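import Pool.Agent.Lib.D2.Comp2
import Pool.Agent.Lib.LU2H.Dense3

/-!
# D2, FIN2a: the components of the valuation rings with a dense subfield all of whose components
have defect at most one, or are zero-dimensional of defect at most two, are good
-/

set_option autoImplicit false

namespace Pool.Agent.D2

open Pool.Agent.LU2 Pool.Agent.LU2G Pool.Agent.LU2H
open Pool.Agent.LUC (DenseIn LUrV fgField_of_fg ascent ascends_lur)

universe u

theorem two_pow_mul_factorial_mono {m n : ℕ} (h : m ≤ n) :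
    2 ^ m * m.factorial ≤ 2 ^ n * n.factorial :=
  Nat.mul_le_mul (Nat.pow_le_pow_right (by norm_num) h) (Nat.factorial_le h)

/-- The zero-dimensional components of defect at most two are good. -/
theorem compGood_of2 {p : ℕ} {k K : Type u} [Field k] [Field K] [Algebra k K]
    (hreal2 : RealCase2 p k) {V V₁ : ValuationSubring K} (hcov : Covers V V₁)
    (hdef : CompZD p k V V₁) : CompGood k V V₁ := by
  classical
  obtain ⟨K₁, _, _, φ, V₂, hres, hD₂, hres0, m, hm, hp⟩ := hdef
  refine ⟨K₁, inferInstance, inferInstance, φ, V₂, hres, fun A hfg hA _ hc => ?_⟩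
  have hle : V ≤ V₁ := hcov.1.le
  obtain ⟨L, hL⟩ : ∃ L : IntermediateField k K₁, L = IntermediateField.adjoin k
    {c : K₁ | ∃ a : V₁, (a : K) ∈ A ∧ φ a = c} := ⟨_, rfl⟩
  rw [← hL]
  have hLfg : L.FG := hL ▸ adjoin_res_fg hres hfg hA
  have hLtop : (⊤ : IntermediateField k L).FG := by
    rw [← IntermediateField.essFiniteType_iff] at hLfg
    rw [IntermediateField.fg_top_iff]
    exact hLfg
  have hfin₁ : Algebra.trdeg k K₁ < Cardinal.aleph0 := by
    rw [hm]
    exact Cardinal.natCast_lt_aleph0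
  have hk₂ : ∀ c : k, algebraMap k K₁ c ∈ V₂ := hres.const₂
  have hLle : Algebra.trdeg k L ≤ Algebra.trdeg k K₁ :=
    _root_.trdeg_le_of_injective L.val L.val.injective
  obtain ⟨m', hm'⟩ := Cardinal.lt_aleph0.1 (hLle.trans_lt hfin₁)
  have hmm : m' ≤ m := by
    rw [hm, hm'] at hLle
    exact_mod_cast hLle
  refine hreal2 L hLtop _ ?_ (comap_isR1 hres hcov L ?_) ?_ m' hm'
    ((two_pow_mul_factorial_mono hmm).trans_lt hp) (DefLE.comap' hk₂ hfin₁ L hD₂)
  · intro c
    rw [ValuationSubring.mem_comap]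
    have h := hk₂ c
    rwa [IsScalarTower.algebraMap_apply k L K₁] at h
  · obtain ⟨c, hcA, hcV, hcV₁⟩ := hc
    have hcV₁' : c ∈ V₁ := hle (hA c hcA)
    have hcL : φ ⟨c, hcV₁'⟩ ∈ L :=
      hL ▸ IntermediateField.subset_adjoin _ _ ⟨⟨c, hcV₁'⟩, hcA, rfl⟩
    have hc0 : φ ⟨c, hcV₁'⟩ ≠ 0 := (hres.ne_zero_iff _).2 hcV₁
    have hlt : V₂.valuation (φ ⟨c, hcV₁'⟩) < 1 := (hres.val_lt_iff _).2 hcV
    intro htop
    have h1 : (⟨φ ⟨c, hcV₁'⟩, hcL⟩ : L)⁻¹ ∈ V₂.comap (algebraMap L K₁) := by
      rw [htop]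
      exact ValuationSubring.mem_top _
    rw [ValuationSubring.mem_comap, map_inv₀, ← V₂.valuation_le_one_iff, map_inv₀] at h1
    have h2 : V₂.valuation (φ ⟨c, hcV₁'⟩) ≠ 0 := (Valuation.ne_zero_iff _).2 hc0
    have h3 : V₂.valuation (φ ⟨c, hcV₁'⟩) * (V₂.valuation (φ ⟨c, hcV₁'⟩))⁻¹ < 1 :=
      mul_lt_of_lt_of_le_one hlt h1
    rw [mul_inv_cancel₀ h2] at h3
    exact lt_irrefl _ h3
  · intro f hf
    rw [ValuationSubring.mem_comap] at hf
    obtain ⟨c, hc⟩ := hres0 _ hf
    refine ⟨c, ?_⟩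
    rw [comap_lt_iff]
    have h1 : ((f - algebraMap k L c : L) : K₁) = algebraMap L K₁ f - algebraMap k K₁ c := rfl
    rw [h1]
    exact hc

section Main

variable {k K : Type} [Field k] [Field K] [Algebra k K]

/-- The residue degree of the trivial valuation ring. -/
theorem resDegree_top (hk₁ : ∀ c : k, algebraMap k K c ∈ (⊤ : ValuationSubring K)) :
    resDegree (algebraMap k K) ⊤ hk₁ = Algebra.trdeg k K := by
  let _ : Algebra k (IsLocalRing.ResidueField (⊤ : ValuationSubring K)) :=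
    ((IsLocalRing.residue (⊤ : ValuationSubring K)).comp
      ((algebraMap k K).codRestrict ⊤ hk₁)).toAlgebra
  let ψ : K →+* IsLocalRing.ResidueField (⊤ : ValuationSubring K) :=
    (IsLocalRing.residue (⊤ : ValuationSubring K)).comp
      ((RingHom.id K).codRestrict (⊤ : ValuationSubring K).toSubring
        (fun x => ValuationSubring.mem_top x))
  let φ : K →ₐ[k] IsLocalRing.ResidueField (⊤ : ValuationSubring K) :=
    { ψ with commutes' := fun c => rfl }
  refine le_antisymm (_root_.trdeg_le_of_surjective φ fun y => ?_)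
    (_root_.trdeg_le_of_injective φ ψ.injective)
  obtain ⟨x, rfl⟩ := IsLocalRing.residue_surjective y
  exact ⟨(x : K), rfl⟩

/-- The defect of a zero-dimensional valuation ring of rank one. -/
theorem defLE_two_of (hfin : Algebra.trdeg k K < Cardinal.aleph0) {V : ValuationSubring K}
    (hk : ∀ c : k, algebraMap k K c ∈ V)
    (h : Algebra.trdeg k K ≤ compRank V ⊤ + 2) : DefLE k V 2 := by
  have h' : Algebra.trdeg k K ≤
      compRank V ⊤ + resDegree (algebraMap k K) V hk + ((2 : ℕ) : Cardinal) := by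
    refine h.trans ?_
    rw [Nat.cast_ofNat]
    gcongr
    exact self_le_add_right _ _
  obtain ⟨r, d, hr, hd, hT⟩ := exists_nat_split hfin h'
  obtain ⟨x, -, hx⟩ := exists_units V ⊤ hr
  obtain ⟨z, hz⟩ := exists_indRes' V hk hd
  exact ⟨r, d, hT, ⟨x, hx⟩, ⟨z, hz⟩⟩

/-- FIN2a: the components of a valuation ring with a dense subfield all of whose components have
defect at most one, or are zero-dimensional of defect at most two, are good. -/
theorem allGood_of_dense2 (p : ℕ) {k K : Type} [Field k] [IsAlgClosed k] [Field K] [Algebra k K]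
    (hreal : RealCaseR k) (hreal2 : RealCase2 p k)
    (hK : (⊤ : IntermediateField k K).FG)
    (V : ValuationSubring K) (hkV : ∀ c : k, algebraMap k K c ∈ V) (F : IntermediateField k K)
    (hF : F.FG) (hdense : ∀ a b : K, b ≠ 0 → ∃ c ∈ F, V.valuation (a - c) < V.valuation b)
    (s : Finset K) (hs : AlgebraicIndependent F (Subtype.val : s → K))
    (hsep : Algebra.IsSeparable (IntermediateField.adjoin F (s : Set K)) K)
    (hdef : ComponentDefectsLETwo p (algebraMap k F) (V.comap (algebraMap F K))) :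
    AllGood k V := by
  have hFtop : (⊤ : IntermediateField k F).FG := by
    rw [← IntermediateField.essFiniteType_iff] at hF
    rw [IntermediateField.fg_top_iff]
    exact hF
  have h2 : Algebra.EssFiniteType k K := IntermediateField.fg_top_iff.1 hK
  have h3 : Algebra.EssFiniteType k F := IntermediateField.fg_top_iff.1 hFtop
  have hfin : Algebra.trdeg k K < Cardinal.aleph0 := _root_.trdeg_lt_aleph0 k K
  have hfinF : Algebra.trdeg k F < Cardinal.aleph0 := _root_.trdeg_lt_aleph0 k F
  have hd : DenseIn V (algebraMap F K) := by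
    intro a b hb
    obtain ⟨c, hc, hc'⟩ := hdense a b hb
    exact ⟨⟨c, hc⟩, hc'⟩
  intro V₂ V₁ hle hcov
  have hne₂ : V₂ ≠ ⊤ := fun h => (lt_of_lt_of_le hcov.1 le_top).ne h
  have hd₂ : DenseIn V₂ (algebraMap F K) := DenseIn.of_le hle hd hne₂
  have hcovF : Covers (V₂.comap (algebraMap F K)) (V₁.comap (algebraMap F K)) :=
    Covers.comap hd hle hcov
  obtain ⟨hkW₂, hkW₁, hdeg⟩ := hdef (V₂.comap (algebraMap F K)) (V₁.comap (algebraMap F K))
    (fun x hx => by
      rw [ValuationSubring.mem_comap] at hx ⊢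
      exact hle hx) hcovF.covBy
  have hk₂ : ∀ c : k, algebraMap k K c ∈ V₂ := fun c => hle (hkV c)
  have hk₁ : ∀ c : k, algebraMap k K c ∈ V₁ := fun c => hcov.1.le (hk₂ c)
  have hm₂ : ∀ x : F, x ∈ V₂.comap (algebraMap F K) ↔ algebraMap F K x ∈ V₂ := fun x =>
    ValuationSubring.mem_comap
  have hm₁ : ∀ x : F, x ∈ V₁.comap (algebraMap F K) ↔ algebraMap F K x ∈ V₁ := fun x =>
    ValuationSubring.mem_comap
  by_cases hne : V₁ = ⊤
  · subst hne
    have htop : (⊤ : ValuationSubring K).comap (algebraMap F K) = ⊤ := by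
      rw [eq_top_iff]
      intro x _
      rw [ValuationSubring.mem_comap]
      exact ValuationSubring.mem_top _
    refine compGood_top hK hk₂ ?_
    have hcovF' : Covers (V₂.comap (algebraMap F K)) ⊤ := htop ▸ hcovF
    have hLU : LUr k (V₂.comap (algebraMap F K)) := by
      rcases hdeg with hdeg | ⟨h0, m, hm, hm2, hp⟩
      · have hdeg' : ∀ U : ValuationSubring F, U = ⊤ → ∀ hU : ∀ c : k, algebraMap k F c ∈ U,
            resDegree (algebraMap k F) U hU ≤ resDegree (algebraMap k F)
              (V₂.comap (algebraMap F K)) hkW₂ + compRank (V₂.comap (algebraMap F K)) U + 1 →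
            DefLE k (V₂.comap (algebraMap F K)) 1 := by
          rintro U rfl hU h
          exact defLE_of hfinF hkW₂ hU h
        exact hreal F hFtop _ hkW₂ (isR1_of_covers hcovF') (hdeg' _ htop hkW₁ hdeg)
      · have hdeg' : ∀ U : ValuationSubring F, U = ⊤ → ∀ hU : ∀ c : k, algebraMap k F c ∈ U,
            resDegree (algebraMap k F) U hU = m →
            (m : Cardinal) ≤ compRank (V₂.comap (algebraMap F K)) U + 2 →
            Algebra.trdeg k F = m ∧ DefLE k (V₂.comap (algebraMap F K)) 2 := by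
          rintro U rfl hU h h'
          rw [resDegree_top] at h
          exact ⟨h, defLE_two_of hfinF hkW₂ (h.le.trans h')⟩
        obtain ⟨htr, hD⟩ := hdeg' _ htop hkW₁ hm hm2
        exact hreal2 F hFtop _ hkW₂ (isR1_of_covers hcovF')
          (fun f hf => exists_const_of_resDegree hkW₂ h0 hf) m htr hp hD
    rw [lur_iff] at hLU ⊢
    exact ascent (ascends_lur k) V₂ hd₂ (fgField_of_fg hFtop) (fgField_of_fg hK) s hs hsep hLU
  · have hd₁ : DenseIn V₁ (algebraMap F K) := DenseIn.of_le (hle.trans hcov.1.le) hd hne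
    rcases hdeg with hdeg | ⟨h0, m, hm, hm2, hp⟩
    · refine compGood_of hreal hcov hfin (compLE_of hfin hcov.1.le hk₂ hk₁ ?_)
      refine (resDegree_ge hm₁ hkW₁ hk₁ hd₁ hne).trans (hdeg.trans ?_)
      gcongr
      · exact resDegree_le V₂ _ hm₂ hkW₂ hk₂
      · exact compRank_le hm₂ hm₁
    · refine compGood_of2 hreal2 hcov (compZD_of hcov.1.le hk₂ hk₁ ?_ m ?_ ?_ hp)
      · exact le_antisymm ((resDegree_ge hm₂ hkW₂ hk₂ hd₂ hne₂).trans h0.le) zero_le
      · exact le_antisymm ((resDegree_ge hm₁ hkW₁ hk₁ hd₁ hne).trans hm.le)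
          (hm.ge.trans (resDegree_le V₁ _ hm₁ hkW₁ hk₁))
      · refine hm2.trans ?_
        gcongr
        exact compRank_le hm₂ hm₁

end Main

end Pool.Agent.D2
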