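import Pool.Agent.Lib.D2.Comp2
import Pool.Agent.Lib.LUC.AscPerf

/-!
# D2, FIN3: log uniformization of the valuation rings with a dense subfield all of whose components
have defect at most one, or are zero-dimensional of defect at most two
-/

set_option autoImplicit false

namespace Pool.Agent.D2

open Pool.Agent.LU2 Pool.Agent.LU2G

universe u

/-- The transcendence degree does not change in an algebraic extension. -/
theorem trdeg_sub {k K : Type u} [Field k] [Field K] [Algebra k K] (L : IntermediateField k K)
    [Algebra.IsAlgebraic L K] : Algebra.trdeg k L = Algebra.trdeg k K := by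
  have h := _root_.trdeg_add_eq k L (A := K)
  have h0 : Algebra.trdeg L K = 0 := trdeg_eq_zero
  rw [h0, add_zero] at h
  exact h

theorem lu_chain2 {p : ℕ} {k : Type u} [Field k] (hreal : RealCase k) (hreal2 : RealCase2 p k)
    (K : Type u) [Field K] [Algebra k K]
    (hfin : Algebra.trdeg k K < Cardinal.aleph0) (n : ℕ) :
    ∀ W : Fin (n + 1) → ValuationSubring K, W 0 = ⊤ →
      (∀ i : Fin n, Covers (W i.succ) (W i.castSucc)) →
      (∀ c : k, algebraMap k K c ∈ W (Fin.last n)) → AllComp2 p k (W (Fin.last n)) →
      LU k (W (Fin.last n)) := by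
  induction n with
  | zero =>
    intro W hW0 _ _ _
    have h1 : W (Fin.last 0) = ⊤ := hW0
    rw [h1]
    exact lu_top
  | succ n ih =>
    intro W hW0 hcov hk hdef
    have hcovV : Covers (W (Fin.last (n + 1))) (W (Fin.last n).castSucc) := hcov (Fin.last n)
    have hle := hcovV.1.le
    have hLU₁ : LU k (W (Fin.last n).castSucc) := ih (fun i => W i.castSucc) hW0
      (fun i => hcov i.castSucc) (fun c => hle (hk c)) (hdef.of_le hle)
    rcases hdef _ _ le_rfl hcovV with hc | hc
    · obtain ⟨K₁, _, _, φ, V₂, hres, hD₂⟩ := hc
      obtain ⟨m, hm⟩ := Cardinal.lt_aleph0.1 hfin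
      obtain ⟨n₁, hn₁, -⟩ := hres.trdeg_le hm (x := (Fin.elim0 : Fin 0 → K))
        ⟨fun i => i.elim0, fun e _ => Subsingleton.elim _ _⟩
      have hfin₁ : Algebra.trdeg k K₁ < Cardinal.aleph0 := by
        rw [hn₁]
        exact Cardinal.natCast_lt_aleph0
      have hk₂ : ∀ c : k, algebraMap k K₁ c ∈ V₂ := hres.const₂
      refine composite hres ?_ hLU₁ ?_
      · have := FinTrdeg.of_trdeg hfin₁
        obtain ⟨s, hs⟩ := exists_finset_isTranscendenceBasis k K₁
        refine ⟨s, ?_⟩
        have h := hs.isAlgebraic_field
        rwa [Subtype.range_coe_subtype, Finset.setOfPred_mem] at h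
      · intro L hL halg
        have hLtop : (⊤ : IntermediateField k L).FG := by
          rw [← IntermediateField.essFiniteType_iff] at hL
          rw [IntermediateField.fg_top_iff]
          exact hL
        by_cases hne : V₂.comap (algebraMap L K₁) = ⊤
        · rw [hne]
          exact lu_top
        refine hreal L hLtop _ ?_ (comap_isR1 hres hcovV L hne) (DefLE.comap' hk₂ hfin₁ L hD₂)
        intro c
        rw [ValuationSubring.mem_comap]
        have h := hk₂ c
        rwa [IsScalarTower.algebraMap_apply k L K₁] at h
    · obtain ⟨K₁, _, _, φ, V₂, hres, hD₂, hres0, m, hm, hp⟩ := hc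
      have hfin₁ : Algebra.trdeg k K₁ < Cardinal.aleph0 := by
        rw [hm]
        exact Cardinal.natCast_lt_aleph0
      have hk₂ : ∀ c : k, algebraMap k K₁ c ∈ V₂ := hres.const₂
      refine composite hres ?_ hLU₁ ?_
      · have := FinTrdeg.of_trdeg hfin₁
        obtain ⟨s, hs⟩ := exists_finset_isTranscendenceBasis k K₁
        refine ⟨s, ?_⟩
        have h := hs.isAlgebraic_field
        rwa [Subtype.range_coe_subtype, Finset.setOfPred_mem] at h
      · intro L hL halg
        have hLtop : (⊤ : IntermediateField k L).FG := by
          rw [← IntermediateField.essFiniteType_iff] at hL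
          rw [IntermediateField.fg_top_iff]
          exact hL
        by_cases hne : V₂.comap (algebraMap L K₁) = ⊤
        · rw [hne]
          exact lu_top
        refine (hreal2 L hLtop _ ?_ (comap_isR1 hres hcovV L hne) ?_ m ?_ hp
          (DefLE.comap' hk₂ hfin₁ L hD₂)).lu
        · intro c
          rw [ValuationSubring.mem_comap]
          have h := hk₂ c
          rwa [IsScalarTower.algebraMap_apply k L K₁] at h
        · intro f hf
          rw [ValuationSubring.mem_comap] at hf
          obtain ⟨c, hc⟩ := hres0 _ hf
          refine ⟨c, ?_⟩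
          rw [comap_lt_iff]
          have h1 : ((f - algebraMap k L c : L) : K₁) = algebraMap L K₁ f - algebraMap k K₁ c := rfl
          rw [h1]
          exact hc
        · rw [trdeg_sub, hm]

/-- Log uniformization of the valuation rings all of whose components have defect at most one, or
are zero-dimensional of defect at most two. -/
theorem lu_comp2 {p : ℕ} {k : Type u} [Field k] (hreal : RealCase k) (hreal2 : RealCase2 p k)
    (K : Type u) [Field K] [Algebra k K]
    (hfin : Algebra.trdeg k K < Cardinal.aleph0) (V : ValuationSubring K)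
    (hk : ∀ c : k, algebraMap k K c ∈ V) (hV : AllComp2 p k V) : LU k V := by
  by_cases htop : V = ⊤
  · rw [htop]
    exact lu_top
  · obtain ⟨n, W, hW0, hWn, hcov⟩ := exists_chain hk htop hfin
    subst hWn
    exact lu_chain2 hreal hreal2 K hfin n W hW0 hcov hk hV

/-- FIN3: the final theorem for MP_5b7a2c_ag. -/
theorem logUniformizable_dense2 (p : ℕ) (k : Type) [Field k] [IsAlgClosed k]
    (hreal : RealCaseR k) (hreal2 : RealCase2 p k) (A : Type)
    [CommRing A] [IsDomain A] [Algebra k A] [Algebra.EssFiniteType k A]
    (V : ValuationSubring (FractionRing A)) (hV : ∀ a : A, algebraMap A (FractionRing A) a ∈ V)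
    (F : IntermediateField k (FractionRing A)) (hF : F.FG)
    (hdense : ∀ a b : FractionRing A, b ≠ 0 → ∃ c ∈ F, V.valuation (a - c) < V.valuation b)
    (s : Finset (FractionRing A)) (hs : AlgebraicIndependent F (Subtype.val : s → FractionRing A))
    (hsep : Algebra.IsSeparable (IntermediateField.adjoin F (s : Set (FractionRing A)))
      (FractionRing A))
    (hdef : ComponentDefectsLETwo p (algebraMap k F)
      (V.comap (algebraMap F (FractionRing A)))) :
    LU2G.LogUniformizable V := by
  have h1 : Algebra.EssFiniteType A (FractionRing A) :=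
    Algebra.EssFiniteType.of_isLocalization _ (nonZeroDivisors A)
  have h2 : Algebra.EssFiniteType k (FractionRing A) :=
    Algebra.EssFiniteType.comp k A (FractionRing A)
  have hFtop : (⊤ : IntermediateField k F).FG := by
    rw [← IntermediateField.essFiniteType_iff] at hF
    rw [IntermediateField.fg_top_iff]
    exact hF
  have hKtop : (⊤ : IntermediateField k (FractionRing A)).FG :=
    IntermediateField.fg_top_iff.2 h2
  have h3 : Algebra.EssFiniteType k F := IntermediateField.fg_top_iff.1 hFtop
  have hfin : Algebra.trdeg k F < Cardinal.aleph0 := _root_.trdeg_lt_aleph0 k F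
  have hkV : ∀ c : k, algebraMap k (FractionRing A) c ∈ V := by
    intro c
    rw [IsScalarTower.algebraMap_apply k A (FractionRing A)]
    exact hV _
  have hLU : Pool.Agent.LU2.LU k (V.comap (algebraMap F (FractionRing A))) := by
    refine lu_comp2 hreal.realCase hreal2 F hfin _ (fun c => ?_) (allComp2_of hfin hdef)
    rw [ValuationSubring.mem_comap]
    exact hkV c
  refine Pool.Agent.LU2G.logUniformizable_of_LU_ess k A V hV (LUC.lu_iff.2 ?_)
  refine LUC.ascent (LUC.ascends_lu k) V (fun a b hb => ?_) (LUC.fgField_of_fg hFtop)
    (LUC.fgField_of_fg hKtop) s hs hsep (LUC.lu_iff.1 hLU)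
  obtain ⟨c, hc, hc'⟩ := hdense a b hb
  exact ⟨⟨c, hc⟩, hc'⟩

end Pool.Agent.D2
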