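import Pool.Agent.Lib.D2.Ctx0
import Pool.Agent.Lib.LUC.H3
import Pool.Agent.Lib.LU3.Defs
import Pool.Agent.Lib.LU2_h15z.Final

/-!
# D2, FIN1: valuation rings of rank one, residue field `k` and Abhyankar defect at most two

`lurV_defectTwo` : log uniformization of these valuation rings, from the statement `LUs` for the
subfields of algebraically closed fields with a real valuation of defect two.
-/

set_option autoImplicit false

namespace Pool.Agent.D2

open Pool.Agent.H15JM (RVal)
open Pool.Agent.LU1 (VPos)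
open Pool.Agent.LU2 (IsR1 IndVal IndRes DefLE Rel)
open Pool.Agent.LU3 (Ctx2)
open Pool.Agent.LUC (LUs LUrV)
open Polynomial

universe u

/-- The residue field does not grow. -/
theorem residue_ext0 {k K Ω : Type u} [Field k] [Field K] [Field Ω] [Algebra k K] [Algebra K Ω]
    [Algebra k Ω] [IsScalarTower k K Ω] [Algebra.IsAlgebraic K Ω] [IsAlgClosed k] (v : RVal K)
    (h : Ctx0 k v) (w : RVal Ω)
    (hw : ∀ g : K, g ≠ 0 → w (algebraMap K Ω g) = v g) (g : Ω) (hg : g ≠ 0) (hg0 : w g = 0) :
    ∃ c : k, c ≠ 0 ∧ VPos w (g - algebraMap k Ω c) := by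
  classical
  have htriv : ∀ c : k, c ≠ 0 → w (algebraMap k Ω c) = 0 := by
    intro c hc
    rw [IsScalarTower.algebraMap_apply k K Ω, hw _ (by rwa [_root_.map_ne_zero]), h.triv c hc]
  have hge1 : ∀ n : ℕ, w.Ge 0 (g ^ n) := by
    intro n _
    rw [w.map_pow hg, hg0, mul_zero]
  obtain ⟨P, hP, hPg⟩ := Algebra.IsAlgebraic.isAlgebraic (R := K) g
  have hsne := (Polynomial.nonempty_support_iff).mpr hP
  obtain ⟨i₀, hi₀, hmin⟩ := Finset.exists_min_image P.support (fun i => v (P.coeff i)) hsne
  have ha₀ : P.coeff i₀ ≠ 0 := mem_support_iff.mp hi₀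
  -- the normalised coefficients
  have hres : ∀ i, ∃ c : k, VPos v ((P.coeff i₀)⁻¹ * P.coeff i - algebraMap k K c) ∧
      (i = i₀ → c = 1) ∧ (P.coeff i = 0 → c = 0) := by
    intro i
    by_cases hi : i = i₀
    · subst hi
      refine ⟨1, ?_, fun _ => rfl, fun h => absurd h ha₀⟩
      rw [inv_mul_cancel₀ ha₀, _root_.map_one, sub_self]
      exact LU1.VPos.zero
    by_cases hi0 : P.coeff i = 0
    · refine ⟨0, ?_, fun h => absurd h hi, fun _ => rfl⟩
      rw [hi0, mul_zero, _root_.map_zero, sub_zero]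
      exact LU1.VPos.zero
    · have : v.Ge 0 ((P.coeff i₀)⁻¹ * P.coeff i) := by
        intro _
        rw [v.map_mul (inv_ne_zero ha₀) hi0, v.map_inv ha₀]
        have := hmin i (mem_support_iff.mpr hi0)
        linarith
      obtain ⟨c, hc⟩ := h.residue this
      exact ⟨c, hc, fun h => absurd h hi, fun h => absurd h hi0⟩
  choose c hc hc1 hc0 using hres
  set p : k[X] := ∑ i ∈ P.support, C (c i) * X ^ i with hp
  have hpcoeff : p.coeff i₀ = 1 := by
    rw [hp, finsetSum_coeff]
    rw [Finset.sum_eq_single i₀]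
    · rw [coeff_C_mul_X_pow, if_pos rfl, hc1 i₀ rfl]
    · intro j _ hj
      rw [coeff_C_mul_X_pow, if_neg (Ne.symm hj)]
    · intro h
      exact absurd hi₀ h
  have hp0 : p ≠ 0 := by
    intro h
    rw [h, coeff_zero] at hpcoeff
    exact zero_ne_one hpcoeff
  -- the value of `p` at `g` is positive
  have hpg : VPos w (aeval g p) := by
    have h1 : aeval g p = ∑ i ∈ P.support, algebraMap k Ω (c i) * g ^ i := by
      rw [hp, map_sum]
      refine Finset.sum_congr rfl fun i _ => ?_
      rw [_root_.map_mul, aeval_C, _root_.map_pow, aeval_X]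
    have h2 : ∑ i ∈ P.support, algebraMap K Ω ((P.coeff i₀)⁻¹ * P.coeff i) * g ^ i = 0 := by
      rw [aeval_def, eval₂_eq_sum, sum_def] at hPg
      have : ∀ i ∈ P.support, algebraMap K Ω ((P.coeff i₀)⁻¹ * P.coeff i) * g ^ i =
          algebraMap K Ω ((P.coeff i₀)⁻¹) * (algebraMap K Ω (P.coeff i) * g ^ i) := by
        intro i _
        rw [_root_.map_mul]; ring
      rw [Finset.sum_congr rfl this, ← Finset.mul_sum, hPg, mul_zero]
    have h3 : aeval g p = -∑ i ∈ P.support,
        algebraMap K Ω ((P.coeff i₀)⁻¹ * P.coeff i - algebraMap k K (c i)) * g ^ i := by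
      rw [h1, ← sub_zero (∑ i ∈ P.support, algebraMap k Ω (c i) * g ^ i), ← h2,
        ← Finset.sum_sub_distrib, ← Finset.sum_neg_distrib]
      refine Finset.sum_congr rfl fun i _ => ?_
      rw [_root_.map_sub, ← IsScalarTower.algebraMap_apply k K Ω]
      ring
    rw [h3]
    refine LU1.VPos.neg ?_
    have : ∀ s : Finset ℕ, VPos w (∑ i ∈ s,
        algebraMap K Ω ((P.coeff i₀)⁻¹ * P.coeff i - algebraMap k K (c i)) * g ^ i) := by
      intro s
      induction s using Finset.induction_on with
      | empty => rw [Finset.sum_empty]; exact LU1.VPos.zero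
      | insert a s ha ih =>
        rw [Finset.sum_insert ha]
        refine LU1.VPos.add (LU1.VPos.mul ?_ (hge1 a)) ih
        intro hne
        have hne' : (P.coeff i₀)⁻¹ * P.coeff a - algebraMap k K (c a) ≠ 0 := by
          intro h
          rw [h, _root_.map_zero] at hne
          exact hne rfl
        rw [hw _ hne']
        exact hc a hne'
    exact this _
  -- `p` splits
  have hsplit : p.Splits := IsAlgClosed.splits p
  have hroots : aeval g p = algebraMap k Ω p.leadingCoeff *
      (p.roots.map fun a => g - algebraMap k Ω a).prod := by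
    conv_lhs => rw [hsplit.eq_prod_roots]
    rw [_root_.map_mul, aeval_C, _root_.map_multiset_prod, Multiset.map_map]
    congr 2
    refine Multiset.map_congr rfl fun a _ => ?_
    simp
  have hlc : w.Ge 0 (algebraMap k Ω p.leadingCoeff) := by
    intro _
    rw [htriv _ (leadingCoeff_ne_zero.mpr hp0)]
  -- one factor has positive value
  have hkey : ∃ a ∈ p.roots, VPos w (g - algebraMap k Ω a) := by
    by_contra hcon
    push Not at hcon
    have hfac : ∀ a ∈ p.roots, g - algebraMap k Ω a ≠ 0 ∧ w (g - algebraMap k Ω a) = 0 := by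
      intro a ha
      have h1 := hcon a ha
      unfold VPos at h1
      push Not at h1
      refine ⟨h1.1, le_antisymm h1.2 ?_⟩
      have h2 : w.Ge 0 (g - algebraMap k Ω a) := by
        refine RVal.Ge.sub (fun _ => hg0.ge) fun h0 => ?_
        have : a ≠ 0 := by rintro rfl; simp at h0
        rw [htriv a this]
      exact h2 h1.1
    have hprod : ∀ s : Multiset k, (∀ a ∈ s, g - algebraMap k Ω a ≠ 0 ∧
        w (g - algebraMap k Ω a) = 0) →
        (s.map fun a => g - algebraMap k Ω a).prod ≠ 0 ∧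
        w (s.map fun a => g - algebraMap k Ω a).prod = 0 := by
      intro s
      induction s using Multiset.induction_on with
      | empty => intro _; simp [w.map_one]
      | cons a s ih =>
        intro hs
        have h1 := hs a (Multiset.mem_cons_self a s)
        have h2 := ih fun b hb => hs b (Multiset.mem_cons_of_mem hb)
        rw [Multiset.map_cons, Multiset.prod_cons]
        refine ⟨mul_ne_zero h1.1 h2.1, ?_⟩
        rw [w.map_mul h1.1 h2.1, h1.2, h2.2, add_zero]
    have h1 := hprod p.roots hfac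
    have hlc0 : algebraMap k Ω p.leadingCoeff ≠ 0 := by
      rw [_root_.map_ne_zero]; exact leadingCoeff_ne_zero.mpr hp0
    have h2 : aeval g p ≠ 0 := by rw [hroots]; exact mul_ne_zero hlc0 h1.1
    have h3 := hpg h2
    rw [hroots, w.map_mul hlc0 h1.1, h1.2, htriv _ (leadingCoeff_ne_zero.mpr hp0)] at h3
    simp at h3
  obtain ⟨a, -, ha⟩ := hkey
  refine ⟨a, ?_, ha⟩
  rintro rfl
  rw [_root_.map_zero, sub_zero] at ha
  have := ha hg
  rw [hg0] at this
  exact lt_irrefl _ this

/-- The standing assumptions for the algebraic closure. -/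
theorem ctx2_of_ext {k K Ω : Type u} [Field k] [Field K] [Field Ω] [Algebra k K] [Algebra K Ω]
    [Algebra k Ω] [IsScalarTower k K Ω] [Algebra.IsAlgebraic K Ω] [IsAlgClosed k] (v : RVal K)
    (h : Ctx0 k v) (w : RVal Ω)
    (hw : ∀ g : K, g ≠ 0 → w (algebraMap K Ω g) = v g) {r : ℕ}
    (htr : Algebra.trdeg k K = ((r + 2 : ℕ) : Cardinal)) (hpos : ∃ c : K, c ≠ 0 ∧ 0 < v c)
    (X : Fin r → K) (hX : ∀ i, X i ≠ 0) (hind : LinearIndependent ℚ fun i => v (X i))
    (hspan : ∀ g : K, g ≠ 0 → v g ∈ Submodule.span ℚ (Set.range fun i => v (X i))) :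
    Ctx2 k w r where
  triv := by
    intro c hc
    rw [IsScalarTower.algebraMap_apply k K Ω, hw _ (by rwa [_root_.map_ne_zero]), h.triv c hc]
  res := residue_ext0 v h w hw
  rpos := by
    rcases Nat.eq_zero_or_pos r with h0 | h0
    · exfalso
      subst h0
      obtain ⟨c, hc0, hc⟩ := hpos
      have h1 := hspan c hc0
      rw [Set.range_eq_empty, Submodule.span_empty, Submodule.mem_bot] at h1
      rw [h1] at hc
      exact lt_irrefl _ hc
    · exact h0
  trdeg := by
    have h1 := trdeg_add_eq k K (A := Ω)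
    rw [trdeg_eq_zero (R := K) (A := Ω), add_zero] at h1
    rw [← h1, htr]
    push_cast
    rfl
  rank := by
    have hXw : (fun i => w (algebraMap K Ω (X i))) = fun i => v (X i) := by
      funext i
      exact hw _ (hX i)
    refine ⟨fun i => algebraMap K Ω (X i), fun i => by simpa using hX i, ?_, ?_⟩
    · rw [hXw]; exact hind
    · rw [hXw]
      exact LU1.ExtVal_H2.val_mem_span v w hw _ hspan

/-- **FIN1.** Log uniformization for the valuation rings of rank one, residue field `k` and
Abhyankar defect at most two of a function field. -/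
theorem lurV_defectTwo (p : ℕ) (hp : p.Prime) {k K : Type u} [Field k] [IsAlgClosed k]
    [CharP k p] [Field K] [Algebra k K]
    (H : ∀ (Ω : Type u) [Field Ω] [Algebra k Ω] [IsAlgClosed Ω] (v : RVal Ω) (r : ℕ)
      (L : IntermediateField k Ω), Ctx2 k v r → 2 ^ (r + 2) * (r + 2).factorial < p → L.FG →
      (∀ g : Ω, IsAlgebraic L g) → LUs v (algebraMap k Ω).range L.toSubfield)
    (hK : (⊤ : IntermediateField k K).FG)
    (V : ValuationSubring K) (hk : ∀ c : k, algebraMap k K c ∈ V) (hR : IsR1 V)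
    (hres : ∀ f ∈ V, ∃ c : k, V.valuation (f - algebraMap k K c) < 1)
    (hD : DefLE k V 2)
    (hpn : ∀ n : ℕ, Algebra.trdeg k K = n → 2 ^ n * n.factorial < p) : LUrV k V := by
  classical
  by_cases hD1 : DefLE k V 1
  · exact LUC.lurV_of_lur (LU2.realCaseR p hp K hK V hk hR hD1)
  obtain ⟨r, d, htr, ⟨x, hx⟩, z, hz⟩ := hD
  -- there are no elements with independent residues
  have hd : d = 0 := by
    by_contra hd
    have hd' : 0 < d := Nat.pos_of_ne_zero hd
    obtain ⟨c, hc⟩ := hres (z ⟨0, hd'⟩) (hz.1 _)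
    have h1 := hz.2 (MvPolynomial.X ⟨0, hd'⟩ - MvPolynomial.C c) (by
      rw [map_sub, MvPolynomial.aeval_X, MvPolynomial.aeval_C]
      exact hc)
    have h2 := congrArg (MvPolynomial.eval (fun _ => c + 1)) h1
    rw [map_sub, MvPolynomial.eval_X, MvPolynomial.eval_C, map_zero, add_sub_cancel_left] at h2
    exact one_ne_zero h2
  subst hd
  rw [add_zero] at htr
  -- the transcendence degree
  have htr' : Algebra.trdeg k K = ((r + 2 : ℕ) : Cardinal) := by
    obtain ⟨n, hn⟩ := Cardinal.lt_aleph0.1 (htr.trans_lt (Cardinal.natCast_lt_aleph0 (n := r + 2)))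
    rw [hn] at htr ⊢
    have h1 : n ≤ r + 2 := by exact_mod_cast htr
    have h2 : ¬ n ≤ r + 1 := by
      intro h2
      refine hD1 ⟨r, 0, ?_, ⟨x, hx⟩, Fin.elim0, ⟨fun i => i.elim0, ?_⟩⟩
      · rw [hn]
        exact_mod_cast h2
      · intro P hP
        exact hz.2 P (by
          have : (Fin.elim0 : Fin 0 → K) = z := funext fun i => i.elim0
          rw [← this]
          exact hP)
    have h3 : n = r + 2 := by omega
    rw [h3]
  obtain ⟨v, w, hrel, hw, hV, hVpos, hpos⟩ := LUC.exists_entry V hR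
  have hxv := hrel.indVal_iff.1 hx
  -- the values of the `x i` span
  have hspan : ∀ g : K, g ≠ 0 → v g ∈ Submodule.span ℚ (Set.range fun i => v (x i)) := by
    intro g hg
    by_contra hcon
    apply hD1
    refine ⟨r + 1, 0, ?_, ⟨Fin.cons g x, hrel.indVal_iff.2 ⟨?_, ?_⟩⟩, z, hz⟩
    · rw [htr']
    · intro i
      refine Fin.cases hg (fun j => ?_) i
      exact hxv.1 j
    · have h1 : (fun i => v ((Fin.cons g x : Fin (r + 1) → K) i)) =
          (Fin.cons (v g) (fun i => v (x i)) : Fin (r + 1) → ℝ) := by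
        funext i
        refine Fin.cases rfl (fun j => rfl) i
      rw [h1, linearIndependent_finCons]
      exact ⟨hxv.2, hcon⟩
  -- the standing assumptions
  have hc0 : Ctx0 k v := by
    have htriv : ∀ c : k, c ≠ 0 → v (algebraMap k K c) = 0 := by
      intro c hc
      have hc' : algebraMap k K c ≠ 0 := by rwa [_root_.map_ne_zero]
      have h1 := (hrel _ hc').1 (hk c)
      have h2 := (hrel _ (inv_ne_zero hc')).1 (by rw [← map_inv₀]; exact hk c⁻¹)
      rw [v.map_inv hc'] at h2
      linarith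
    refine ⟨htriv, fun g hg hg0 => ?_⟩
    obtain ⟨c, hc⟩ := hres g ((hrel g hg).2 hg0.ge)
    have hc1 := (hrel.lt_one_iff' _).1 hc
    refine ⟨c, ?_, hc1⟩
    rintro rfl
    rw [_root_.map_zero, sub_zero] at hc1
    have h1 := hc1 hg
    rw [hg0] at h1
    exact lt_irrefl _ h1
  have hctx : Ctx2 k w r := ctx2_of_ext v hc0 w hw htr' hpos x hxv.1 hxv.2 hspan
  let Ω : Type u := AlgebraicClosure K
  let ι : K →ₐ[k] Ω := IsScalarTower.toAlgHom k K Ω
  let L : IntermediateField k Ω := ι.fieldRange
  have hL : L.toSubfield = (algebraMap K Ω).fieldRange := by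
    ext f
    constructor
    · rintro ⟨g, hg⟩
      exact ⟨g, hg⟩
    · rintro ⟨g, hg⟩
      exact ⟨g, hg⟩
  have hLfg : L.FG := by
    obtain ⟨S, hS⟩ := hK
    refine ⟨S.image ι, ?_⟩
    rw [Finset.coe_image, ← IntermediateField.adjoin_map, hS]
    exact (AlgHom.fieldRange_eq_map ι).symm
  have halg : ∀ g : Ω, IsAlgebraic L g := by
    intro g
    obtain ⟨P, hP0, hP⟩ := (Algebra.IsAlgebraic.isAlgebraic g : IsAlgebraic K g)
    let j : K →+* L := (ι.rangeRestrict : K →ₐ[k] ι.range).toRingHom
    refine ⟨P.map j, ?_, ?_⟩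
    · exact (Polynomial.map_ne_zero_iff j.injective).2 hP0
    · rw [Polynomial.aeval_def, Polynomial.eval₂_map]
      exact hP
  have hfin := H Ω w r L hctx (hpn (r + 2) htr') hLfg halg
  rw [hL] at hfin
  exact hfin.lurV hV hk

end Pool.Agent.D2
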