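import Pool.Agent.Lib.D2.Real2
import Pool.Agent.Lib.D2.Fin1

/-!
# D2, FIN1: `realCase2`

The real zero-dimensional case of defect at most two, from the statement about the subfields of
algebraically closed fields with a real valuation.
-/

set_option autoImplicit false

namespace Pool.Agent.D2

open Pool.Agent.H15JM (RVal)
open Pool.Agent.LU3 (Ctx2)
open Pool.Agent.LU2G (LUr)
open Pool.Agent.LUC (LUs LUrV)

universe u

/-- The statement about function fields in an algebraically closed field with a real valuation. -/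
def Main2 (p : ℕ) (k : Type u) [Field k] : Prop :=
  ∀ (Ω : Type u) [Field Ω] [Algebra k Ω] [IsAlgClosed Ω] (v : RVal Ω) (r : ℕ), Ctx2 k v r →
    2 ^ (r + 2) * (r + 2).factorial < p → ∀ E : IntermediateField k Ω, E.FG →
      (∀ g : Ω, IsAlgebraic E g) → LUs v (algebraMap k Ω).range E.toSubfield

theorem lur_of_lurV {k K : Type u} [Field k] [Field K] [Algebra k K] {V : ValuationSubring K}
    (h : LUrV k V) : LUr k V := by
  intro A hfg hA hfrac T hT
  obtain ⟨A', g, hch, n, z, J, hz, hg, ht⟩ := h A hfg hA hfrac T hT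
  exact ⟨A', g, hch, n, z, J, ⟨hz.mem, hz.ne, hz.pos, hz.gen, hz.dim⟩, hg, ht⟩

/-- FIN1: from the field `Ω` to abstract function fields (defect at most one: `LU2.realCaseR`). -/
theorem realCase2 (p : ℕ) (hp : p.Prime) (k : Type u) [Field k] [IsAlgClosed k] [CharP k p]
    (h : Main2 p k) : RealCase2 p k := by
  intro K _ _ hK V hk hR hres m hm hpm hD
  refine lur_of_lurV (lurV_defectTwo p hp (fun Ω _ _ _ v r L hctx hp2 hL halg => ?_) hK V hk hR
    hres hD ?_)
  · exact h Ω v r hctx hp2 L hL halg
  · intro n hn
    rw [hm] at hn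
    have : m = n := by exact_mod_cast hn
    rwa [← this]

end Pool.Agent.D2
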