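import Mathlib

/-! # D2, R13: the order of a sparse polynomial at a nonzero point (helper78) -/

set_option autoImplicit false

open Polynomial

namespace Pool.Agent.D2.PolyT

variable {k : Type*} [Field k]

/-- The order at `c ≠ 0` of a polynomial with exponents in `[A, A + δ]` is at most `δ`. -/
theorem exists_ord (P : k[X]) (hP : P ≠ 0) (c : k) (hc : c ≠ 0) (A δ : ℕ)
    (hA : ∀ n ∈ P.support, A ≤ n ∧ n ≤ A + δ) :
    ∃ o ≤ δ, (taylor c P).coeff o ≠ 0 ∧ ∀ j < o, (taylor c P).coeff j = 0 := by
  have hT : taylor c P ≠ 0 := fun h => hP (taylor_injective c (by rw [h, _root_.map_zero]))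
  refine ⟨(taylor c P).natTrailingDegree, ?_, ?_, ?_⟩
  · have h1 : X ^ A ∣ P := by
      rw [X_pow_dvd_iff]
      intro d hd
      by_contra h0
      have := (hA d (mem_support_iff.2 h0)).1
      omega
    obtain ⟨R, hR⟩ := h1
    have hR0 : R ≠ 0 := by
      rintro rfl
      exact hP (by rw [hR, mul_zero])
    have h2 : R.natDegree ≤ δ := by
      have h3 : P.natDegree = A + R.natDegree := by
        rw [hR, natDegree_X_pow_mul _ hR0]
        exact add_comm _ _
      have h4 := (hA _ (natDegree_mem_support_of_nonzero hP)).2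
      omega
    have h3 : (taylor c P).natTrailingDegree = rootMultiplicity c P := by
      rw [rootMultiplicity_eq_natTrailingDegree, taylor_apply]
    rw [h3, hR, rootMultiplicity_mul (by rw [← hR]; exact hP)]
    have h4 : rootMultiplicity c (X ^ A : k[X]) = 0 := by
      apply rootMultiplicity_eq_zero
      rw [IsRoot, eval_pow, eval_X]
      exact pow_ne_zero _ hc
    rw [h4, zero_add]
    have h5 : rootMultiplicity c R ≤ R.natDegree := by
      classical
      rw [← count_roots]
      exact (Multiset.count_le_card _ _).trans (card_roots' R)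
    exact h5.trans h2
  · have := trailingCoeff_nonzero_iff_nonzero.2 hT
    exact this
  · intro j hj
    exact coeff_eq_zero_of_lt_natTrailingDegree hj

theorem derivative_taylor (c : k) (P : k[X]) :
    derivative (taylor c P) = taylor c (derivative P) := by
  rw [taylor_apply, taylor_apply, derivative_comp]
  simp

theorem taylor_expand (p : ℕ) (hp : p.Prime) [CharP k p] (c : k) (P : k[X]) :
    taylor c (expand k p P) = expand k p (taylor (c ^ p) P) := by
  have : Fact p.Prime := ⟨hp⟩
  rw [taylor_apply, taylor_apply, expand_eq_comp_X_pow, expand_eq_comp_X_pow, comp_assoc,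
    comp_assoc]
  congr 1
  simp only [X_pow_comp, add_comp, X_comp, C_comp]
  rw [add_pow_char, C_pow]

/-- The least exponent not divisible by `p ^ t` in the expansion at `c ≠ 0` of a polynomial with
exponents in `[A, A + δ]`, not all divisible by `p ^ t`. -/
theorem exists_vis (p : ℕ) (hp : p.Prime) [CharP k p] (t : ℕ) :
    ∀ (P : k[X]) (c : k), c ≠ 0 → ∀ A δ : ℕ, (∀ n ∈ P.support, A ≤ n ∧ n ≤ A + δ) →
      (∃ n ∈ P.support, ¬ p ^ t ∣ n) →
      ∃ D, ¬ p ^ t ∣ D ∧ (taylor c P).coeff D ≠ 0 ∧
        (∀ j < D, ¬ p ^ t ∣ j → (taylor c P).coeff j = 0) ∧ D / p ^ t ≤ δ / p ^ t := by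
  classical
  induction t with
  | zero =>
    rintro P c hc A δ hA ⟨n, -, h⟩
    exact absurd (by rw [pow_zero]; exact one_dvd n) h
  | succ t ih =>
    rintro P c hc A δ hA ⟨n, hn, hnt⟩
    by_cases hd : derivative P = 0
    · -- everything is divisible by `p`
      have hex := expand_contract p hd hp.ne_zero
      set P₁ := contract p P with hP₁
      have hsupp : ∀ m, m ∈ P₁.support ↔ p * m ∈ P.support := by
        intro m
        rw [mem_support_iff, mem_support_iff, hP₁, coeff_contract hp.ne_zero, mul_comm]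
      have hdiv : ∀ n ∈ P.support, p ∣ n := by
        intro n hn
        by_contra h0
        rw [mem_support_iff, ← hex, coeff_expand hp.pos, if_neg h0] at hn
        exact hn rfl
      obtain ⟨n₁, rfl⟩ := hdiv n hn
      have hA₁ : ∀ m ∈ P₁.support, (A + p - 1) / p ≤ m ∧ m ≤ (A + p - 1) / p + δ / p := by
        intro m hm
        have h1 := hA _ ((hsupp m).1 hm)
        have h2 : (A + p - 1) / p ≤ m := by
          rw [Nat.div_le_iff_le_mul_add_pred hp.pos]
          have := hp.pos
          omega
        refine ⟨h2, ?_⟩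
        have h3 : A ≤ p * ((A + p - 1) / p) := by
          have := Nat.div_add_mod (A + p - 1) p
          have h4 := Nat.mod_lt (A + p - 1) hp.pos
          have h5 := hp.pos
          omega
        have h4 : p * (m - (A + p - 1) / p) ≤ δ := by
          rw [Nat.mul_sub]
          omega
        have h5 : m - (A + p - 1) / p ≤ δ / p := (Nat.le_div_iff_mul_le hp.pos).2 (by
          rw [mul_comm]; exact h4)
        omega
      obtain ⟨D₁, h1, h2, h3, h4⟩ := ih P₁ (c ^ p) (pow_ne_zero _ hc) _ _ hA₁
        ⟨n₁, (hsupp n₁).2 hn, fun h => hnt (by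
          rw [pow_succ, mul_comm]
          exact mul_dvd_mul_left p h)⟩
      have hcoe : ∀ j, (taylor c P).coeff j =
          if p ∣ j then (taylor (c ^ p) P₁).coeff (j / p) else 0 := by
        intro j
        rw [← hex, taylor_expand p hp, coeff_expand hp.pos]
      refine ⟨p * D₁, ?_, ?_, ?_, ?_⟩
      · rw [pow_succ, mul_comm]
        exact fun h => h1 ((Nat.mul_dvd_mul_iff_left hp.pos).1 h)
      · rw [hcoe, if_pos (dvd_mul_right _ _), Nat.mul_div_cancel_left _ hp.pos]
        exact h2
      · intro j hj hjt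
        rw [hcoe]
        split_ifs with hpj
        · obtain ⟨j₁, rfl⟩ := hpj
          rw [Nat.mul_div_cancel_left _ hp.pos]
          refine h3 j₁ (Nat.lt_of_mul_lt_mul_left hj) fun h => hjt ?_
          rw [pow_succ, mul_comm]
          exact mul_dvd_mul_left p h
        · rfl
      · rw [pow_succ, mul_comm (p ^ t) p, ← Nat.div_div_eq_div_mul, ← Nat.div_div_eq_div_mul,
          Nat.mul_div_cancel_left _ hp.pos]
        exact h4
    · -- the derivative
      have hA' : ∀ n ∈ (derivative P).support, A - 1 ≤ n ∧ n ≤ A - 1 + δ := by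
        intro n hn
        rw [mem_support_iff, coeff_derivative] at hn
        have h1 : P.coeff (n + 1) ≠ 0 := left_ne_zero_of_mul hn
        have h2 := hA (n + 1) (mem_support_iff.2 h1)
        omega
      obtain ⟨o, ho, h1, h2⟩ := exists_ord (derivative P) hd c hc (A - 1) δ hA'
      rw [← derivative_taylor, coeff_derivative] at h1
      have h3 : (taylor c P).coeff (o + 1) ≠ 0 := left_ne_zero_of_mul h1
      have h4 : ¬ p ∣ o + 1 := by
        intro h
        have h5 : ((o + 1 : ℕ) : k) = 0 := (CharP.cast_eq_zero_iff k p _).2 h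
        push_cast at h5
        exact right_ne_zero_of_mul h1 h5
      have h5 : ¬ p ^ (t + 1) ∣ o + 1 := fun h => h4 ((dvd_pow_self p (Nat.succ_ne_zero t)).trans h)
      have hex : ∃ j, ¬ p ^ (t + 1) ∣ j ∧ (taylor c P).coeff j ≠ 0 := ⟨o + 1, h5, h3⟩
      obtain ⟨h6, h7⟩ := Nat.find_spec hex
      have h8 : Nat.find hex ≤ o + 1 := Nat.find_min' hex ⟨h5, h3⟩
      refine ⟨Nat.find hex, h6, h7, ?_, ?_⟩
      · intro j hj hjt
        by_contra h9
        exact Nat.find_min hex hj ⟨hjt, h9⟩
      · set E := Nat.find hex with hE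
        have h9 : 0 < p ^ (t + 1) := pow_pos hp.pos _
        rw [← Nat.lt_add_one_iff, Nat.div_lt_iff_lt_mul h9]
        have h10 : δ < (δ / p ^ (t + 1) + 1) * p ^ (t + 1) := by
          rw [add_mul, one_mul, mul_comm]
          exact Nat.lt_mul_div_succ _ h9 |>.trans_eq (by ring)
        have h11 : E ≤ (δ / p ^ (t + 1) + 1) * p ^ (t + 1) := by omega
        rcases h11.lt_or_eq with h12 | h12
        · exact h12
        · exact absurd ⟨δ / p ^ (t + 1) + 1, by rw [h12, mul_comm]⟩ h6

end Pool.Agent.D2.PolyT
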