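import Pool.Agent.Lib.D2_h13.Est
import Pool.Agent.Lib.D2.PolyT
import Pool.Agent.Lib.LU1_h15.TStepEx

/-! # D2, R13: the T-step of a cleaned element (helper78) -/

set_option autoImplicit false

open Polynomial

namespace Pool.Agent.D2h13

open Pool.Agent.H15JM (RVal)
open Pool.Agent.LU1 Pool.Agent.LU3
open Pool.Agent.D2

universe u

variable {k Ω : Type u} [Field k] [Field Ω] [Algebra k Ω] {v : RVal Ω} {r : ℕ}

/-- Divisibility by `h` is compatible with the isomorphism `Γ × ℤ ≅ Γ' × ℤ`. -/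
theorem lat_vis {Γ : AddSubgroup ℝ} {β : ℝ} {q : ℕ} {s : ℝ → ℤ → ℤ} (h : LatData Γ β q s)
    (p : ℕ) {γ : ℝ} (hγ : γ ∈ Γ) (l : ℤ) (hs : (p : ℤ) ∣ s γ l)
    (hg : ∃ δ ∈ Γ ⊔ AddSubgroup.zmultiples β, γ + l * β = p * δ) :
    (p : ℤ) ∣ l ∧ ∃ δ ∈ Γ, γ = p * δ := by
  obtain ⟨j, hj⟩ := hs
  obtain ⟨δ', hδ', heq⟩ := hg
  obtain ⟨δ, hδ, l', h1, h2⟩ := h.surj hδ' j
  have hpδ : ((p : ℤ) : ℝ) * δ ∈ Γ := by
    rw [← zsmul_eq_mul]
    exact Γ.zsmul_mem hδ _
  have h3 := h.s_zsmul (p : ℤ) hδ l'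
  rw [h2, ← hj] at h3
  obtain ⟨e1, e2⟩ := h.inj hpδ hγ (l := p * l') (m := l) (by
    rw [heq, ← h1]; push_cast; ring) h3
  refine ⟨⟨l', e2.symm⟩, δ, hδ, ?_⟩
  rw [← e1]
  push_cast
  ring

/-- A polynomial in the last parameter. -/
theorem aeval_mem (B : BF k v) (T : k[X]) {y : Ω} (hy : y ∈ B.R) : aeval y T ∈ B.R :=
  aeval_mem_adjoin_singleton k y |> fun h => Algebra.adjoin_le (by simpa using hy) h

/-- Splitting off the terms of degree `< D`. -/
theorem split_poly (hc : Ctx k v r) (B : BF k v) (T : k[X]) (D : ℕ) (hD : T.coeff D ≠ 0) :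
    ∃ u, B.Un u ∧ aeval B.y T =
      ∑ j ∈ Finset.range D, algebraMap k Ω (T.coeff j) * B.y ^ j + u * B.y ^ D := by
  -- the polynomial of the higher terms
  obtain ⟨Q, hQ⟩ : X ^ D ∣ T - ∑ j ∈ Finset.range D, C (T.coeff j) * X ^ j := by
    rw [X_pow_dvd_iff]
    intro d hd
    rw [coeff_sub, finsetSum_coeff, Finset.sum_eq_single d]
    · rw [coeff_C_mul_X_pow, if_pos rfl, sub_self]
    · intro b _ hb
      rw [coeff_C_mul_X_pow, if_neg (Ne.symm hb)]
    · intro h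
      exact absurd (Finset.mem_range.2 hd) h
  have hQ0 : Q.coeff 0 = T.coeff D := by
    have h1 := congrArg (fun P => P.coeff D) hQ
    simp only [coeff_sub, finsetSum_coeff] at h1
    rw [Finset.sum_eq_zero, sub_zero] at h1
    · rw [h1, mul_comm, coeff_mul_X_pow', if_pos le_rfl, Nat.sub_self]
    · intro j hj
      rw [coeff_C_mul_X_pow, if_neg (Finset.mem_range.1 hj).ne']
  have hT : T = ∑ j ∈ Finset.range D, C (T.coeff j) * X ^ j + Q * X ^ D := by
    rw [mul_comm Q, ← hQ]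
    ring
  have hQy : aeval B.y Q ∈ B.R := aeval_mem B Q B.y_mem
  have hQd : ∃ b ∈ B.R, aeval B.y Q = algebraMap k Ω (T.coeff D) + B.y * b := by
    refine ⟨aeval B.y Q.divX, aeval_mem B _ B.y_mem, ?_⟩
    conv_lhs => rw [← Q.divX_mul_X_add]
    rw [_root_.map_add, _root_.map_mul, aeval_X, aeval_C, hQ0]
    ring
  obtain ⟨b, hb, hbe⟩ := hQd
  have hun : B.Un (aeval B.y Q) := by
    have h0 : VPos v (B.y * b) := VPos.mul (fun _ => B.y_pos) (B.nonneg b hb)
    have h1 : v (algebraMap k Ω (T.coeff D)) = 0 := hc.triv _ hD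
    have h2 : algebraMap k Ω (T.coeff D) ≠ 0 := by
      simpa using hD
    have h3 := val_add_vpos h2 h1 h0
    rw [← hbe] at h3
    exact ⟨hQy, h3.1, h3.2⟩
  refine ⟨aeval B.y Q, hun, ?_⟩
  conv_lhs => rw [hT]
  rw [_root_.map_add, _root_.map_mul, map_sum, _root_.map_pow, aeval_X]
  congr 1
  refine Finset.sum_congr rfl fun j _ => ?_
  rw [_root_.map_mul, aeval_C, _root_.map_pow, aeval_X]

/-- R13: the T-step of a cleaned element. -/
theorem rowT : RowT k Ω v r := by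
  classical
  intro p hp hchar halg hc t ht h hh B B' q c s hT f lam I e hC
  have hL := hT.latData
  have h0 : 0 < h := by rw [hh]; exact pow_pos hp.pos t
  have hw0 : B.w q ≠ 0 := hT.w_ne
  have hwU : B'.Un (B.w q) := hT.un_w
  have hlam : lam ∈ B'.Γ := by
    obtain ⟨l, hl, -⟩ := hC.vis
    have h1 := B'.Γ.add_mem (hT.Γ_le (hC.mem l hl)) (B'.Γ.nsmul_mem hT.β_mem l)
    rw [nsmul_eq_mul] at h1
    have h2 : lam - l * v B.y + l * v B.y = lam := by ring
    rwa [h2] at h1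
  -- the exponents of `w`
  obtain ⟨S, hS⟩ : ∃ S : ℕ → ℤ, ∀ l, S l = s (lam - l * v B.y) l := ⟨_, fun _ => rfl⟩
  have hmon : ∀ l ∈ I, B.χ (lam - l * v B.y) * B.y ^ l = B'.χ lam * (B.w q) ^ (S l) := by
    intro l hl
    have h1 := hT.χ_mul (hC.mem l hl) (l : ℤ)
    rw [zpow_natCast] at h1
    rw [h1, hS]
    congr 2
    push_cast
    ring
  have hdiff : ∀ l ∈ I, ∀ m ∈ I, (l : ℤ) - m = q * (S l - S m) := by
    intro l hl m hm
    rw [hS, hS]
    exact hL.same (hC.mem l hl) (hC.mem m hm) (by push_cast; ring)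
  -- a shift by a multiple of `h` which makes them nonnegative
  obtain ⟨N, hN⟩ : ∃ N : ℕ, ∀ l ∈ I, 0 ≤ S l + h * N := by
    refine ⟨∑ l ∈ I, (S l).natAbs, fun l hl => ?_⟩
    have h1 : (S l).natAbs ≤ ∑ l ∈ I, (S l).natAbs :=
      Finset.single_le_sum (f := fun l => (S l).natAbs) (fun _ _ => Nat.zero_le _) hl
    have h2 : ((S l).natAbs : ℤ) ≤ h * ((∑ l ∈ I, (S l).natAbs : ℕ) : ℤ) := by
      have h3 : (S l).natAbs ≤ h * ∑ l ∈ I, (S l).natAbs :=
        h1.trans (Nat.le_mul_of_pos_left _ h0)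
      exact_mod_cast h3
    have h3 : -((S l).natAbs : ℤ) ≤ S l := by omega
    linarith
  obtain ⟨n, hnz⟩ : ∃ n : ℕ → ℕ, ∀ l ∈ I, ((n l : ℕ) : ℤ) = S l + h * N :=
    ⟨fun l => (S l + h * N).toNat, fun l hl => Int.toNat_of_nonneg (hN l hl)⟩
  have hnd : ∀ l ∈ I, ∀ m ∈ I, (l : ℤ) - m = q * ((n l : ℤ) - n m) := by
    intro l hl m hm
    rw [hnz l hl, hnz m hm, hdiff l hl m hm]
    ring
  have hinj : ∀ l ∈ I, ∀ m ∈ I, n l = n m → l = m := by
    intro l hl m hm hlm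
    have h2 := hnd l hl m hm
    rw [hlm, sub_self, mul_zero] at h2
    omega
  obtain ⟨P, hP⟩ : ∃ P : k[X], P = ∑ l ∈ I, C (e l) * X ^ (n l) := ⟨_, rfl⟩
  have hcoef : ∀ l ∈ I, P.coeff (n l) = e l := by
    intro l hl
    rw [hP, finsetSum_coeff, Finset.sum_eq_single l]
    · rw [coeff_C_mul_X_pow, if_pos rfl]
    · intro m hm hml
      rw [coeff_C_mul_X_pow, if_neg]
      intro h1
      exact hml (hinj m hm l hl h1.symm)
    · intro h1
      exact absurd hl h1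
  have hsupp : ∀ j ∈ P.support, ∃ l ∈ I, j = n l := by
    intro j hj
    by_contra hcon
    push Not at hcon
    rw [mem_support_iff] at hj
    apply hj
    rw [hP, finsetSum_coeff]
    refine Finset.sum_eq_zero fun l hl => ?_
    rw [coeff_C_mul_X_pow, if_neg (hcon l hl)]
  have hne : I.Nonempty := by
    obtain ⟨l, hl, -⟩ := hC.vis
    exact ⟨l, hl⟩
  have hlo := I.min'_mem hne
  have hhi := I.max'_mem hne
  obtain ⟨lo, hloe⟩ : ∃ lo, lo = I.min' hne := ⟨_, rfl⟩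
  obtain ⟨hi, hhie⟩ : ∃ hi, hi = I.max' hne := ⟨_, rfl⟩
  rw [← hloe] at hlo
  rw [← hhie] at hhi
  have hmono : ∀ l ∈ I, ∀ m ∈ I, l ≤ m → n l ≤ n m := by
    intro l hl m hm hlm
    have h1 := hnd m hm l hl
    by_contra hcon
    push Not at hcon
    have h2 : (n m : ℤ) - n l < 0 := by omega
    have h3 : (q : ℤ) * ((n m : ℤ) - n l) < 0 :=
      mul_neg_of_pos_of_neg (by exact_mod_cast hL.q_pos) h2
    omega
  obtain ⟨δ, hδ⟩ : ∃ δ, δ = n hi - n lo := ⟨_, rfl⟩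
  have hlh := hmono lo hlo hi hhi (by rw [hloe]; exact I.min'_le hi hhi)
  have hrange : ∀ j ∈ P.support, n lo ≤ j ∧ j ≤ n lo + δ := by
    intro j hj
    obtain ⟨l, hl, rfl⟩ := hsupp j hj
    have h1 := hmono lo hlo l hl (by rw [hloe]; exact I.min'_le l hl)
    have h2 := hmono l hl hi hhi (by rw [hhie]; exact I.le_max' l hl)
    omega
  have hqδ : ∀ D, (∀ l ∈ I, l ≤ D) → q * δ ≤ D := by
    intro D hD
    have h1 := hnd hi hhi lo hlo
    have h3 : ((q * δ : ℕ) : ℤ) = (hi : ℤ) - lo := by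
      rw [h1, hδ]
      push_cast [Nat.cast_sub hlh]
      ring
    have h4 := hD hi hhi
    omega
  -- the element
  have hPw : aeval (B.w q) P = aeval B'.y (taylor c P) := by
    have hy' : B.w q = B'.y + algebraMap k Ω c := by
      rw [hT.y_eq]
      ring
    rw [taylor_apply, aeval_comp, _root_.map_add, aeval_X, aeval_C, ← hy']
  have hsum : ∑ l ∈ I, algebraMap k Ω (e l) * B.χ (lam - l * v B.y) * B.y ^ l =
      B'.χ lam * ((B.w q) ^ (-((h : ℤ) * N)) * aeval (B.w q) P) := by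
    rw [hP, map_sum, Finset.mul_sum, Finset.mul_sum]
    refine Finset.sum_congr rfl fun l hl => ?_
    rw [mul_assoc, hmon l hl, _root_.map_mul, aeval_C, _root_.map_pow, aeval_X]
    have h1 : (B.w q) ^ (-((h : ℤ) * N)) * (B.w q) ^ (n l) = (B.w q) ^ S l := by
      rw [← zpow_natCast (B.w q) (n l), ← zpow_add₀ hw0, hnz l hl]
      congr 1
      ring
    rw [← h1]
    ring
  obtain ⟨Λ, hΛ, hΛl, a, ha, hrem⟩ := hC.rem
  have hχ : B'.χ Λ = B'.χ lam * B'.χ (Λ - lam) := by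
    rw [← B'.χ_add lam hlam _ (B'.Γ.sub_mem hΛ hlam)]
    congr 1
    ring
  have key : ∀ D', (taylor c P).coeff D' ≠ 0 → ∀ g : Ω,
      (∑ j ∈ Finset.range D', algebraMap k Ω ((taylor c P).coeff j) * B'.y ^ j = g ^ h) →
      ∃ u, B'.Un u ∧ f = B'.χ lam * (((B.w q) ^ (-(N : ℤ)) * g) ^ h + u * B'.y ^ D' +
        B'.χ (Λ - lam) * a) := by
    intro D' hD' g hgs
    obtain ⟨u, hu, hue⟩ := split_poly hc B' (taylor c P) D' hD'
    refine ⟨(B.w q) ^ (-((h : ℤ) * N)) * u, (hwU.zpow _).mul hu, ?_⟩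
    have h1 : f = ∑ l ∈ I, algebraMap k Ω (e l) * B.χ (lam - l * v B.y) * B.y ^ l +
        B'.χ Λ * a := by
      rw [← hrem]
      ring
    have h2 : ((B.w q) ^ (-(N : ℤ)) * g) ^ h = (B.w q) ^ (-((h : ℤ) * N)) * g ^ h := by
      rw [mul_pow, ← zpow_natCast ((B.w q) ^ (-(N : ℤ))) h, ← zpow_mul]
      congr 2
      ring
    rw [h1, hsum, hPw, hue, hgs, hχ, h2]
    ring
  by_cases hin : ∃ γ ∈ B'.Γ, lam = (h : ℝ) * γ
  · -- `lam` is divisible by `h`
    have hvis : ∃ j ∈ P.support, ¬ p ^ t ∣ j := by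
      obtain ⟨l, hl, hvl⟩ := hC.vis
      refine ⟨n l, ?_, ?_⟩
      · rw [mem_support_iff, hcoef l hl]
        exact hC.ne l hl
      · intro hdvd
        rw [← hh] at hdvd
        apply hvl
        have h1 : (h : ℤ) ∣ s (lam - l * v B.y) l := by
          have h2 : (h : ℤ) ∣ ((n l : ℕ) : ℤ) := Int.natCast_dvd_natCast.2 hdvd
          rw [hnz l hl] at h2
          rw [← hS]
          exact (Int.dvd_add_left (dvd_mul_right _ _)).1 h2
        obtain ⟨γ, hγ, hγe⟩ := hin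
        have h2 := lat_vis hL h (hC.mem l hl) (l : ℤ) h1 ⟨γ, by rw [← hT.Γ_eq]; exact hγ, by
          rw [← hγe]
          push_cast
          ring⟩
        exact ⟨Int.natCast_dvd_natCast.1 h2.1, h2.2⟩
    obtain ⟨D', h1, h2, h3, h4⟩ := PolyT.exists_vis p hp t P c hT.c_ne (n lo) δ hrange hvis
    rw [← hh] at h1 h3 h4
    choose ρ hρ using fun x : k => IsAlgClosed.exists_pow_nat_eq x h0
    obtain ⟨u, hu, hue⟩ := key D' h2 (∑ j ∈ Finset.range D', if h ∣ j then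
      algebraMap k Ω (ρ ((taylor c P).coeff j)) * B'.y ^ (j / h) else 0) (by
        rw [hh, sum_pow_h (k := k) hp t, ← hh]
        refine Finset.sum_congr rfl fun j hj => ?_
        split_ifs with hj'
        · rw [mul_pow, ← _root_.map_pow, hρ, ← pow_mul, Nat.div_mul_cancel hj']
        · rw [h3 j (Finset.mem_range.1 hj) hj', _root_.map_zero, zero_mul, zero_pow h0.ne'])
    refine ⟨D', ⟨hlam, u, hu, Λ - lam, B'.Γ.sub_mem hΛ hlam, sub_pos.2 hΛl, a, ha, _, ?_, hue,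
      fun hcon => ?_, fun _ => h1⟩, fun D hD => ⟨fun hcon => ?_, fun _ => ?_⟩⟩
    · refine B'.R.mul_mem (hwU.zpow _).1 (B'.R.sum_mem fun j _ => ?_)
      split_ifs
      · exact B'.R.mul_mem (B'.R.algebraMap_mem _) (B'.R.pow_mem B'.y_mem _)
      · exact B'.R.zero_mem
    · obtain ⟨γ, hγ, hγe⟩ := hin
      exact absurd hγe (hcon γ hγ)
    · obtain ⟨γ, hγ, hγe⟩ := hin
      exact absurd hγe (hcon γ hγ)
    · refine h4.trans ?_
      rw [Nat.div_div_eq_div_mul, mul_comm h q, ← Nat.div_div_eq_div_mul]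
      refine Nat.div_le_div_right ?_
      rw [Nat.le_div_iff_mul_le hL.q_pos, mul_comm]
      exact hqδ D hD
  · -- `lam` is not divisible by `h`
    have hP0 : P ≠ 0 := by
      intro h1
      have h2 := hcoef lo hlo
      rw [h1, coeff_zero] at h2
      exact hC.ne lo hlo h2.symm
    obtain ⟨D', h1, h2, h3⟩ := PolyT.exists_ord P hP0 c hT.c_ne (n lo) δ hrange
    obtain ⟨u, hu, hue⟩ := key D' h2 0 (by
      rw [zero_pow h0.ne']
      refine Finset.sum_eq_zero fun j hj => ?_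
      rw [h3 j (Finset.mem_range.1 hj), _root_.map_zero, zero_mul])
    refine ⟨D', ⟨hlam, u, hu, Λ - lam, B'.Γ.sub_mem hΛ hlam, sub_pos.2 hΛl, a, ha, _, ?_, hue,
      fun _ => mul_zero _, fun hcon => absurd hcon hin⟩,
      fun D hD => ⟨fun _ => ?_, fun hcon => absurd hcon hin⟩⟩
    · rw [mul_zero]
      exact B'.R.zero_mem
    · exact (Nat.mul_le_mul_left q h1).trans (hqδ D hD)

end Pool.Agent.D2h13
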