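import Pool.Agent.Lib.LU3.Assembly
import Pool.Agent.Lib.LU3_h83.Row2a
import Pool.Agent.Lib.LU3.Row2b
import Pool.Agent.Lib.LU3.StepA
import Pool.Agent.Lib.LU3_h87.StepFG
import Pool.Agent.Lib.LU3_h17.NFG
import Pool.Agent.Lib.D2_h13.POL

/-! # D2: the embedded statement E2r -/

set_option autoImplicit false

namespace Pool.Agent.D2

open Pool.Agent.H15JM (RVal)
open Pool.Agent.LU3

universe u

/-- The embedded statement. -/
theorem e2r (p : ℕ) (hp : p.Prime) {k Ω : Type u} [Field k] [Field Ω] [Algebra k Ω]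
    [hc : CharP k p] [hk : IsAlgClosed k] [hcl : IsAlgClosed Ω] {v : RVal Ω} {r : ℕ}
    (h : Ctx2 k v r) : E2r k Ω v :=
  e2r_of hcl h (Pool.Agent.LU3.R2a.row2a k Ω v r) (row2b k Ω v r)
    (stepA1 p hp r) (stepA2 p hp r) (Pool.Agent.LU3S.stepFG p hp)
    (Pool.Agent.LU3.H17.stepNFG_of_pol hp hc hk fun _ => Pool.Agent.D2h13.rowPOL)

end Pool.Agent.D2
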