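import Pool.Agent.Lib.LU3.Defs
import Pool.Agent.Lib.LUC.Mods
import Pool.Agent.Lib.LU1_h15.GalSep

/-! # D2, EN2: all function fields, from the rational adapted ones (general form)

`lus_all_of` has the existence of rational frames (EN1) and log uniformization of tame extensions
(TM8) as hypotheses. -/

set_option autoImplicit false

namespace Pool.Agent.D2

open Pool.Agent.H15JM (RVal)
open Pool.Agent.LU1 (VPos fixO decG mem_fixO)
open Pool.Agent.LUC
open Pool.Agent.LU3 (Ctx2 RF2 E2r)

universe u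

variable {k Ω : Type u} [Field k] [Field Ω] [Algebra k Ω] {v : RVal Ω} {r : ℕ}

/-- `Ω` is algebraic over the field generated by `r + 2` algebraically independent elements. -/
theorem isAlgebraic_of_ind (htr : Algebra.trdeg k Ω = r + 2) (x : Fin r → Ω) (y : Fin 2 → Ω)
    (hind : AlgebraicIndependent k (Sum.elim x y)) (F : IntermediateField k Ω)
    (hF : ∀ i, Sum.elim x y i ∈ F) (g : Ω) : IsAlgebraic F g := by
  have h2 : IsTranscendenceBasis k (Sum.elim x y) := by
    refine hind.isTranscendenceBasis_of_lift_trdeg_le_of_finite ?_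
    rw [htr]
    simp
  have h3 : IsAlgebraic (Algebra.adjoin k (Set.range (Sum.elim x y))) g :=
    h2.isAlgebraic.isAlgebraic g
  obtain ⟨P, hP, hPg⟩ := h3
  have hle : ∀ a ∈ Algebra.adjoin k (Set.range (Sum.elim x y)), a ∈ F := by
    have h4 : Algebra.adjoin k (Set.range (Sum.elim x y)) ≤ F.toSubalgebra := by
      refine Algebra.adjoin_le ?_
      rintro _ ⟨i, rfl⟩
      exact hF i
    exact fun a ha => h4 ha
  let ι : Algebra.adjoin k (Set.range (Sum.elim x y)) →+* F :=
    { toFun := fun a => ⟨a, hle a a.2⟩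
      map_one' := rfl
      map_mul' := fun _ _ => rfl
      map_zero' := rfl
      map_add' := fun _ _ => rfl }
  have hι : Function.Injective ι := fun a b hab => by
    have := congrArg (fun c : F => (c : Ω)) hab
    exact Subtype.ext this
  refine ⟨P.map ι, (Polynomial.map_ne_zero_iff hι).2 hP, ?_⟩
  rw [Polynomial.aeval_def, Polynomial.eval₂_map]
  exact hPg

/-- EN2, general form: all function fields, from the conclusion of the toric Albanese theorem. -/
theorem lus_all_of [IsAlgClosed Ω] (p : ℕ)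
    (h : Ctx2 k v r) (hpn : 2 ^ (r + 2) * (r + 2).factorial < p)
    (hRF : ∀ (x : Fin r → Ω) (y z : Ω), (∀ i, x i ≠ 0 ∧ 0 < v (x i)) →
      (LinearIndependent ℚ fun i => v (x i)) → (y ≠ 0 ∧ 0 < v y) → (z ≠ 0 ∧ 0 < v z) →
      (∀ g : Ω, IsAlgebraic (IntermediateField.adjoin k (Set.range x ∪ {y, z})) g) →
      ∃ F : RF2 k v, F.K = IntermediateField.adjoin k (Set.range x ∪ {y, z}))
    (hT : ∀ (F : RF2 k v) (N : IntermediateField F.K Ω) [FiniteDimensional F.K N]
      [IsGalois F.K N] (H : Subgroup (N ≃ₐ[F.K] N)), H.relIndex (decG v F.K N) < p →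
      LUs v (algebraMap k Ω).range (fixO F.K N H).toSubfield)
    (E : IntermediateField k Ω)
    (hTA : ∃ (x : Fin r → Ω) (y : Fin 2 → Ω), (∀ i, x i ∈ E ∧ x i ≠ 0 ∧ 0 < v (x i)) ∧
      LinearIndependent ℚ (fun i => v (x i)) ∧ (∀ j, y j ∈ E ∧ y j ≠ 0 ∧ 0 < v (y j)) ∧
      AlgebraicIndependent k (Sum.elim x y) ∧
      ∀ F : IntermediateField k Ω, F = IntermediateField.adjoin k (Set.range x ∪ Set.range y) →
        (∀ g ∈ E, IsSeparable F g) ∧
        ∀ (N : IntermediateField F Ω) [FiniteDimensional F N] [IsGalois F N]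
          (H : Subgroup (N ≃ₐ[F] N)), fixO F N H = E →
          H.relIndex (decG v F N) ≤ 2 ^ (r + 2) * (r + 2).factorial) (hfg : E.FG) :
    LUs v (algebraMap k Ω).range E.toSubfield := by
  classical
  obtain ⟨x, y, hx, hxi, hy, hind, hF⟩ := hTA
  have hrange : Set.range y = {y 0, y 1} := by
    ext g
    constructor
    · rintro ⟨j, rfl⟩
      fin_cases j
      · exact Or.inl rfl
      · exact Or.inr rfl
    · rintro (rfl | rfl)
      · exact ⟨0, rfl⟩
      · exact ⟨1, rfl⟩
  have halg0 : ∀ g : Ω,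
      IsAlgebraic (IntermediateField.adjoin k (Set.range x ∪ {y 0, y 1})) g := by
    intro g
    refine isAlgebraic_of_ind h.trdeg x y hind _ ?_ g
    rintro (i | j)
    · exact IntermediateField.subset_adjoin _ _ (Or.inl ⟨i, rfl⟩)
    · refine IntermediateField.subset_adjoin _ _ (Or.inr ?_)
      rw [← hrange]
      exact ⟨j, rfl⟩
  obtain ⟨G, hG⟩ := hRF x (y 0) (y 1) (fun i => (hx i).2) hxi (hy 0).2 (hy 1).2 halg0
  obtain ⟨hsep, hdeg⟩ := hF G.K (by rw [hG, hrange])
  have halg : ∀ g : Ω, IsAlgebraic G.K g := by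
    intro g
    rw [hG]
    exact halg0 g
  have hGE : G.K ≤ E := by
    rw [hG, IntermediateField.adjoin_le_iff, ← hrange]
    rintro _ (⟨i, rfl⟩ | ⟨j, rfl⟩)
    · exact (hx i).1
    · exact (hy j).1
  obtain ⟨S, hS⟩ := hfg
  have hSE : ∀ g ∈ S, g ∈ E := by
    intro g hg
    rw [← hS]
    exact IntermediateField.subset_adjoin _ _ hg
  obtain ⟨N, h1, h2, h3⟩ := LU1.exists_galois_closure G.K halg S fun g hg => hsep g (hSE g hg)
  have hEN : ∀ g ∈ E, g ∈ N := by
    have : E ≤ N.restrictScalars k := by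
      rw [← hS, IntermediateField.adjoin_le_iff]
      exact fun g hg => h3 g hg
    exact fun g hg => this hg
  obtain ⟨H, hH⟩ := LU1.exists_fixO_eq G.K N E hGE hEN
  rw [← hH]
  exact hT G N H (lt_of_le_of_lt (hdeg N H hH) hpn)

end Pool.Agent.D2
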