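import Pool.Agent.Lib.D2.TM4b
import Pool.Agent.Lib.LU3.MkRF2

/-! # D2, TM7: the radical step -/

set_option autoImplicit false

namespace Pool.Agent.D2

open Pool.Agent.H15JM (RVal)
open Pool.Agent.LU1 (VPos fixO decG mem_fixO)
open Pool.Agent.LUC
open Pool.Agent.LU3 (Ctx2 RF2 E2r)
open Polynomial

universe u

variable {k Ω : Type u} [Field k] [Field Ω] [Algebra k Ω] {v : RVal Ω} {r : ℕ}

namespace TM7

theorem ctx0_of_ctx2 (h : Ctx2 k v r) : Ctx0 k v := ⟨h.triv, h.res⟩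

/-! ### adjoining a root of a monomial -/

section radical

variable (F : RF2 k v) (ℓ : ℕ) (β : ℝ) (ρ : Ω)

/-- The monomials of the new frame. -/
noncomputable def radχ (γ' : ℝ) : Ω :=
  open Classical in
  if h : ∃ q : ℝ × ℤ, q.1 ∈ F.Γ ∧ γ' = q.1 + q.2 * β then
    F.χ h.choose.1 * ρ ^ h.choose.2
  else 1

variable {F ℓ β ρ}

theorem χ_zsmul {γ : ℝ} (hγ : γ ∈ F.Γ) (q : ℤ) : F.χ (q * γ) = F.χ γ ^ q := by
  have hn : ∀ n : ℕ, F.χ (n * γ) = F.χ γ ^ n := by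
    intro n
    induction n with
    | zero => rw [Nat.cast_zero, zero_mul, pow_zero, F.χ_zero]
    | succ n ih =>
      have h1 : (n : ℝ) * γ ∈ F.Γ := by
        rw [← nsmul_eq_mul]
        exact F.Γ.nsmul_mem hγ n
      rw [Nat.cast_succ, add_mul, one_mul, F.χ_add _ h1 _ hγ, ih, pow_succ]
  cases q with
  | ofNat n => simpa using hn n
  | negSucc n =>
    have h1 : ((n + 1 : ℕ) : ℝ) * γ ∈ F.Γ := by
      rw [← nsmul_eq_mul]
      exact F.Γ.nsmul_mem hγ _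
    rw [zpow_negSucc, ← hn, ← F.χ_neg h1]
    congr 1
    push_cast [Int.negSucc_eq]
    ring

theorem radχ_eq (hℓ : ℓ.Prime) (hβ : (ℓ : ℝ) * β ∈ F.Γ) (hβ' : β ∉ F.Γ) (hρ : ρ ≠ 0)
    (hρℓ : ρ ^ ℓ = F.χ (ℓ * β)) {γ : ℝ} (hγ : γ ∈ F.Γ) (m : ℤ) :
    radχ F β ρ (γ + m * β) = F.χ γ * ρ ^ m := by
  have hex : ∃ q : ℝ × ℤ, q.1 ∈ F.Γ ∧ γ + m * β = q.1 + q.2 * β := ⟨(γ, m), hγ, rfl⟩
  rw [radχ, dif_pos hex]
  obtain ⟨h1, h2⟩ := hex.choose_spec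
  set δ := hex.choose.1 with hδ
  set n := hex.choose.2 with hn
  -- `(m - n) β ∈ Γ`, so `ℓ ∣ m - n`
  have h3 : ((m - n : ℤ) : ℝ) * β ∈ F.Γ := by
    have : ((m - n : ℤ) : ℝ) * β = δ - γ := by push_cast; linarith
    rw [this]
    exact F.Γ.sub_mem h1 hγ
  have h4 : (ℓ : ℤ) ∣ m - n := by
    by_contra hnd
    apply hβ'
    have hc : IsCoprime (ℓ : ℤ) (m - n) :=
      (Prime.coprime_iff_not_dvd (Nat.prime_iff_prime_int.1 hℓ)).2 hnd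
    obtain ⟨a, b, hab⟩ := hc
    have h5 : β = (a : ℤ) • ((ℓ : ℝ) * β) + (b : ℤ) • (((m - n : ℤ) : ℝ) * β) := by
      rw [zsmul_eq_mul, zsmul_eq_mul, ← mul_assoc, ← mul_assoc, ← add_mul]
      have h6 : (a : ℝ) * ℓ + b * ((m - n : ℤ) : ℝ) = 1 := by exact_mod_cast hab
      rw [h6, one_mul]
    rw [h5]
    exact F.Γ.add_mem (F.Γ.zsmul_mem hβ _) (F.Γ.zsmul_mem h3 _)
  obtain ⟨t, ht⟩ := h4
  have h5 : δ = γ + t * (ℓ * β) := by
    have h6 : ((m : ℝ) - n) = ℓ * t := by exact_mod_cast ht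
    have h7 : δ = γ + ((m : ℝ) - n) * β := by linarith
    rw [h7, h6]; ring
  have h8 : (t : ℝ) * (ℓ * β) ∈ F.Γ := by
    rw [← zsmul_eq_mul]
    exact F.Γ.zsmul_mem hβ t
  have h9 : m = n + ℓ * t := by omega
  rw [h5, F.χ_add γ hγ _ h8, χ_zsmul hβ, ← hρℓ, h9, zpow_add₀ hρ, zpow_mul, zpow_natCast]
  ring

theorem mem_supβ {Γ : AddSubgroup ℝ} {β γ' : ℝ}
    (hγ' : γ' ∈ Γ ⊔ AddSubgroup.zmultiples β) : ∃ γ ∈ Γ, ∃ l : ℤ, γ' = γ + l * β := by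
  obtain ⟨γ, hγ, z, hz, rfl⟩ := AddSubgroup.mem_sup.1 hγ'
  obtain ⟨l, rfl⟩ := AddSubgroup.mem_zmultiples_iff.1 hz
  exact ⟨γ, hγ, l, by rw [zsmul_eq_mul]⟩

theorem radχ_monD (hℓ : ℓ.Prime) (hβ : (ℓ : ℝ) * β ∈ F.Γ) (hβ' : β ∉ F.Γ) (hρ : ρ ≠ 0)
    (hρℓ : ρ ^ ℓ = F.χ (ℓ * β)) :
    LU3.MonD v (F.Γ ⊔ AddSubgroup.zmultiples β) (radχ F β ρ) := by
  have hvρ : v ρ = β := by
    have h1 := congrArg v hρℓ
    rw [v.map_pow hρ, F.χ_val _ hβ] at h1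
    have h2 : (ℓ : ℝ) ≠ 0 := by exact_mod_cast hℓ.ne_zero
    exact mul_left_cancel₀ h2 h1
  refine ⟨?_, ?_, ?_⟩
  · intro γ' hγ'
    obtain ⟨γ, hγ, l, rfl⟩ := mem_supβ hγ'
    rw [radχ_eq hℓ hβ hβ' hρ hρℓ hγ]
    exact mul_ne_zero (F.χ_ne γ hγ) (zpow_ne_zero _ hρ)
  · intro γ' hγ' δ' hδ'
    obtain ⟨γ, hγ, l, rfl⟩ := mem_supβ hγ'
    obtain ⟨δ, hδ, m, rfl⟩ := mem_supβ hδ'
    have h1 : γ + l * β + (δ + m * β) = (γ + δ) + ((l + m : ℤ) : ℝ) * β := by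
      push_cast; ring
    rw [h1, radχ_eq hℓ hβ hβ' hρ hρℓ (F.Γ.add_mem hγ hδ), radχ_eq hℓ hβ hβ' hρ hρℓ hγ,
      radχ_eq hℓ hβ hβ' hρ hρℓ hδ, F.χ_add γ hγ δ hδ, zpow_add₀ hρ]
    ring
  · intro γ' hγ'
    obtain ⟨γ, hγ, l, rfl⟩ := mem_supβ hγ'
    rw [radχ_eq hℓ hβ hβ' hρ hρℓ hγ, v.map_mul (F.χ_ne γ hγ) (zpow_ne_zero _ hρ),
      F.χ_val γ hγ, v.map_zpow hρ, hvρ]

/-- The frame obtained by adjoining a root of a monomial. -/
theorem exists_radical_frame (hℓ : ℓ.Prime) (hβ : (ℓ : ℝ) * β ∈ F.Γ) (hβ' : β ∉ F.Γ)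
    (hρ : ρ ≠ 0) (hρℓ : ρ ^ ℓ = F.χ (ℓ * β)) :
    ∃ F' : RF2 k v, F.K ≤ F'.K ∧ ρ ∈ F'.K ∧
      ∀ M : IntermediateField k Ω, F.K ≤ M → ρ ∈ M → F'.K ≤ M := by
  have hX := radχ_monD hℓ hβ hβ' hρ hρℓ
  have hχ : ∀ γ ∈ F.Γ, radχ F β ρ γ = F.χ γ := by
    intro γ hγ
    have h1 := radχ_eq hℓ hβ hβ' hρ hρℓ hγ 0
    rw [Int.cast_zero, zero_mul, add_zero, zpow_zero, mul_one] at h1
    exact h1
  have hχβ : radχ F β ρ β = ρ := by
    have h1 := radχ_eq hℓ hβ hβ' hρ hρℓ F.Γ.zero_mem 1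
    rw [Int.cast_one, one_mul, zero_add, zpow_one, F.χ_zero, one_mul] at h1
    exact h1
  have hΓ : ∀ γ ∈ F.Γ, γ ∈ F.Γ ⊔ AddSubgroup.zmultiples β :=
    fun γ hγ => AddSubgroup.mem_sup_left hγ
  let F' : RF2 k v := LU3.mkRF2 F hX (LU1.fg_sup F.Γ F.fg β) hΓ F.y_ne F.y_pos F.z_ne F.z_pos
    (by
      rintro f (⟨γ, hγ, rfl⟩ | hf)
      · exact LU1.le_quo (Algebra.subset_adjoin (Or.inl ⟨γ, hΓ γ hγ, hχ γ hγ⟩))
      · exact LU1.le_quo (Algebra.subset_adjoin (Or.inr hf)))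
  have hK' : F'.K = IntermediateField.adjoin k
    (radχ F β ρ '' {γ | γ ∈ F.Γ ⊔ AddSubgroup.zmultiples β} ∪ {F.y, F.z}) := rfl
  refine ⟨F', ?_, ?_, ?_⟩
  · rw [hK', LU3.RF2.K, IntermediateField.adjoin_le_iff]
    rintro f (⟨γ, hγ, rfl⟩ | hf)
    · exact IntermediateField.subset_adjoin k _ (Or.inl ⟨γ, hΓ γ hγ, hχ γ hγ⟩)
    · exact IntermediateField.subset_adjoin k _ (Or.inr hf)
  · rw [hK']
    exact IntermediateField.subset_adjoin k _ (Or.inl ⟨β, AddSubgroup.mem_sup_right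
      (AddSubgroup.mem_zmultiples _), hχβ⟩)
  · intro M hM hρM
    rw [hK', IntermediateField.adjoin_le_iff]
    rintro f (⟨γ', hγ', rfl⟩ | hf)
    · obtain ⟨γ, hγ, l, rfl⟩ := mem_supβ hγ'
      rw [radχ_eq hℓ hβ hβ' hρ hρℓ hγ]
      exact M.mul_mem (hM (IntermediateField.subset_adjoin k _ (Or.inl ⟨γ, hγ, rfl⟩)))
        (zpow_mem hρM l)
    · exact hM (IntermediateField.subset_adjoin k _ (Or.inr hf))

end radical

/-- A root of `X ^ ℓ - a` is separable if `ℓ ≠ p`. -/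
theorem separable_root {K : IntermediateField k Ω} {ℓ : ℕ} (hℓk : ((ℓ : ℕ) : k) ≠ 0) {ρ : Ω}
    (hρ : ρ ≠ 0) (hρℓ : ρ ^ ℓ ∈ K) : IsSeparable K ρ := by
  have h1 : (⟨ρ ^ ℓ, hρℓ⟩ : K) ≠ 0 := by
    intro h0
    exact pow_ne_zero ℓ hρ (congrArg Subtype.val h0)
  have hℓK : ((ℓ : ℕ) : K) ≠ 0 := by
    intro h0
    apply hℓk
    have h2 : algebraMap k K ((ℓ : ℕ) : k) = 0 := by rw [map_natCast, h0]
    exact (map_eq_zero (algebraMap k K)).mp h2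
  have h2 : (X ^ ℓ - C (⟨ρ ^ ℓ, hρℓ⟩ : K)).Separable :=
    Polynomial.separable_X_pow_sub_C _ hℓK h1
  refine h2.of_dvd (minpoly.dvd K ρ ?_)
  rw [map_sub, map_pow, aeval_X, aeval_C]
  exact sub_eq_zero.2 rfl

end TM7

open TM7 in
/-- TM7: the radical step. -/
theorem radical_step [IsAlgClosed k] [IsAlgClosed Ω] (p : ℕ) (hp : p.Prime) [CharP k p]
    (h : Ctx2 k v r) (hE : E2r k Ω v) (F : RF2 k v) (E : IntermediateField k Ω)
    (hE₁ : ∀ a ∈ E, a ∈ Cl v F.K.toSubfield) (hE₂ : ∀ a ∈ F.K, a ∈ Cl v E.toSubfield)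
    (ℓ : ℕ) (hℓ : ℓ.Prime) (hℓp : ℓ ≠ p) (η : Ω) (hη : η ≠ 0) (hηE : η ^ ℓ ∈ E) :
    ∃ F' : RF2 k v, F.K ≤ F'.K ∧ (∀ a ∈ F'.K, IsSeparable F.K a) ∧
      (∀ a ∈ F'.K, a ∈ Cl v (LU1.adj E η).toSubfield) ∧
      ∀ a ∈ LU1.adj E η, a ∈ Cl v F'.K.toSubfield := by
  have hℓk : ((ℓ : ℕ) : k) ≠ 0 := by
    rw [Ne, CharP.cast_eq_zero_iff k p]
    intro h0
    exact hℓp ((Nat.prime_dvd_prime_iff_eq hp hℓ).1 h0).symm
  -- approximation of `η ^ ℓ`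
  have ha0 : η ^ ℓ ≠ 0 := pow_ne_zero ℓ hη
  obtain ⟨b, hb, hb0, hvb, hclose⟩ := Cl.exists_val (hE₁ _ hηE) (v (η ^ ℓ) + 1) ha0
  -- `b` becomes a monomial
  obtain ⟨F₁, hle, hK₁, hmono⟩ := hE F {b} (by
    intro f hf
    rw [Finset.mem_singleton] at hf
    rw [hf]
    exact ⟨hb, hb0⟩)
  obtain ⟨-, hg, hu⟩ := hmono b (Finset.mem_singleton_self b)
  set g := v b with hgdef
  obtain ⟨c, hc, hcv⟩ := h.res _ hu.2.1 hu.2.2
  obtain ⟨d, hd⟩ := IsAlgClosed.exists_pow_nat_eq c hℓ.pos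
  have hd0 : d ≠ 0 := by
    rintro rfl
    rw [zero_pow hℓ.ne_zero] at hd
    exact hc hd.symm
  have hcΩ : algebraMap k Ω c ≠ 0 := (_root_.map_ne_zero _).2 hc
  have hdΩ : algebraMap k Ω d ≠ 0 := (_root_.map_ne_zero _).2 hd0
  have hχ0 : F₁.χ g ≠ 0 := F₁.χ_ne g hg
  have hχK : F₁.χ g ∈ F.K := by
    rw [← hK₁]
    exact IntermediateField.subset_adjoin k _ (Or.inl ⟨g, hg, rfl⟩)
  -- `η ^ ℓ = c χ(g) (1 + ε)`
  set ε := η ^ ℓ / (algebraMap k Ω c * F₁.χ g) - 1 with hε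
  have hεCl : ε ∈ Cl v F.K.toSubfield := by
    refine (clF v F.K.toSubfield).sub_mem ((clF v F.K.toSubfield).div_mem (hE₁ _ hηE) ?_)
      (clF v F.K.toSubfield).one_mem
    exact (clF v F.K.toSubfield).mul_mem (Cl.subset (F.K.algebraMap_mem c)) (Cl.subset hχK)
  have hvc : v (algebraMap k Ω c) = 0 := h.triv c hc
  have hεpos : VPos v ε := by
    have e1 : ε = (η ^ ℓ - b) / (algebraMap k Ω c * F₁.χ g)
        + (b / F₁.χ g - algebraMap k Ω c) * (algebraMap k Ω c)⁻¹ := by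
      rw [hε]
      field_simp
      ring
    rw [e1]
    refine LU1.VPos.add ?_ (hcv.mul ?_)
    · intro h0
      have h1 : η ^ ℓ - b ≠ 0 := by
        intro h2
        rw [h2, zero_div] at h0
        exact h0 rfl
      rw [v.map_div h1 (mul_ne_zero hcΩ hχ0), v.map_mul hcΩ hχ0, hvc, F₁.χ_val g hg]
      have h2 := hclose h1
      linarith
    · intro _
      rw [v.map_inv hcΩ, hvc, neg_zero]
  obtain ⟨s, hsCl, hs0, hsℓ, hs1⟩ := exists_root_one (ctx0_of_ctx2 h) ℓ hℓk F.K.toSubfield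
    hεpos hεCl
  -- `ρ`
  set ρ := η / (algebraMap k Ω d * s) with hρdef
  have hds : algebraMap k Ω d * s ≠ 0 := mul_ne_zero hdΩ hs0
  have hρ0 : ρ ≠ 0 := div_ne_zero hη hds
  have hρℓ : ρ ^ ℓ = F₁.χ g := by
    rw [hρdef, div_pow, mul_pow, ← _root_.map_pow, hd, hsℓ, hε]
    field_simp
    ring
  have hηρ : η = ρ * (algebraMap k Ω d * s) := by
    rw [hρdef, div_mul_cancel₀ _ hds]
  have hclE : ∀ a ∈ Cl v F.K.toSubfield, a ∈ Cl v (LU1.adj E η).toSubfield := by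
    intro a ha
    refine cl_cl (fun b' => ?_)
    obtain ⟨a₁, h1, h2⟩ := ha b'
    refine ⟨a₁, ?_, h2⟩
    intro b''
    obtain ⟨a₂, h3, h4⟩ := hE₂ a₁ h1 b''
    exact ⟨a₂, LU1.le_adj E η h3, h4⟩
  have hfin : ∀ F' : RF2 k v, F.K ≤ F'.K → ρ ∈ F'.K →
      ∀ a ∈ LU1.adj E η, a ∈ Cl v F'.K.toSubfield := by
    intro F' h1 h2
    have h3 : ∀ a ∈ Cl v F.K.toSubfield, a ∈ Cl v F'.K.toSubfield := by
      intro a ha b'
      obtain ⟨a₁, h4, h5⟩ := ha b'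
      exact ⟨a₁, h1 h4, h5⟩
    have hηCl : η ∈ Cl v F'.K.toSubfield := by
      rw [hηρ]
      exact Cl.mul (Cl.subset h2) (Cl.mul (Cl.subset (F'.K.algebraMap_mem d)) (h3 s hsCl))
    let M : IntermediateField k Ω :=
      { clF v F'.K.toSubfield with
        algebraMap_mem' := fun c => Cl.subset (F'.K.algebraMap_mem c) }
    have hM : LU1.adj E η ≤ M := LU1.adj_le (fun a ha => h3 a (hE₁ a ha)) hηCl
    exact fun a ha => hM ha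
  have hρsep : IsSeparable F.K ρ := separable_root hℓk hρ0 (by rw [hρℓ]; exact hχK)
  by_cases hβ : g / ℓ ∈ F₁.Γ
  · -- `ρ ∈ F.K`
    have hℓR : (ℓ : ℝ) ≠ 0 := by exact_mod_cast hℓ.ne_zero
    have h1 : (F₁.χ (g / ℓ)) ^ ℓ = F₁.χ g := by
      have h2 := χ_zsmul hβ (ℓ : ℤ)
      rw [zpow_natCast, Int.cast_natCast, mul_div_cancel₀ _ hℓR] at h2
      exact h2.symm
    have hχβ0 := F₁.χ_ne _ hβ
    have h2 : (ρ / F₁.χ (g / ℓ)) ^ ℓ = 1 := by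
      rw [div_pow, hρℓ, h1, div_self hχ0]
    -- roots of unity are in `k`
    have h3 : ∃ e : k, algebraMap k Ω e = ρ / F₁.χ (g / ℓ) := by
      have h4 : IsAlgebraic k (ρ / F₁.χ (g / ℓ)) := by
        refine ⟨X ^ ℓ - 1, ?_, ?_⟩
        · exact X_pow_sub_C_ne_zero hℓ.pos 1
        · rw [map_sub, map_pow, aeval_X, map_one, h2, sub_self]
      have h5 : Algebra.IsAlgebraic k (IntermediateField.adjoin k {ρ / F₁.χ (g / ℓ)}) :=
        IntermediateField.isAlgebraic_adjoin_simple h4.isIntegral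
      have h6 := IntermediateField.subset_adjoin k {ρ / F₁.χ (g / ℓ)} (Set.mem_singleton _)
      rw [IntermediateField.eq_bot_of_isAlgClosed_of_isAlgebraic
        (IntermediateField.adjoin k {ρ / F₁.χ (g / ℓ)})] at h6
      exact IntermediateField.mem_bot.1 h6
    obtain ⟨e, he⟩ := h3
    have hρK : ρ ∈ F.K := by
      have h4 : ρ = algebraMap k Ω e * F₁.χ (g / ℓ) := by
        rw [he, div_mul_cancel₀ _ hχβ0]
      rw [h4]
      refine F.K.mul_mem (F.K.algebraMap_mem e) ?_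
      rw [← hK₁]
      exact IntermediateField.subset_adjoin k _ (Or.inl ⟨_, hβ, rfl⟩)
    refine ⟨F, le_rfl, fun a ha => ?_, fun a ha => hclE a (Cl.subset ha), hfin F le_rfl hρK⟩
    exact isSeparable_algebraMap (⟨a, ha⟩ : F.K)
  · have hℓR : (ℓ : ℝ) ≠ 0 := by exact_mod_cast hℓ.ne_zero
    have h1 : (ℓ : ℝ) * (g / ℓ) = g := mul_div_cancel₀ _ hℓR
    obtain ⟨F', h2, h3, h4⟩ := exists_radical_frame (F := F₁) (β := g / ℓ) (ρ := ρ) hℓ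
      (by rw [h1]; exact hg) hβ hρ0 (by rw [h1]; exact hρℓ)
    rw [hK₁] at h2 h4
    refine ⟨F', h2, ?_, ?_, hfin F' h2 h3⟩
    · have h5 := h4 ((separableClosure F.K Ω).restrictScalars k)
        (fun a ha => (mem_separableClosure_iff (F := F.K) (E := Ω)).2
          (isSeparable_algebraMap (⟨a, ha⟩ : F.K)))
        ((mem_separableClosure_iff (F := F.K) (E := Ω)).2 hρsep)
      exact fun a ha => mem_separableClosure_iff.1 (h5 ha)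
    · have hρCl : ρ ∈ Cl v (LU1.adj E η).toSubfield := by
        rw [hρdef]
        refine (clF v (LU1.adj E η).toSubfield).div_mem (Cl.subset (LU1.mem_adj E η)) ?_
        exact Cl.mul (Cl.subset ((LU1.adj E η).algebraMap_mem d)) (hclE s hsCl)
      let M : IntermediateField k Ω :=
        { clF v (LU1.adj E η).toSubfield with
          algebraMap_mem' := fun c => Cl.subset ((LU1.adj E η).algebraMap_mem c) }
      have hM : F'.K ≤ M := h4 M (fun a ha => hclE a (Cl.subset ha)) hρCl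
      exact fun a ha => hM ha

end Pool.Agent.D2
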