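import Pool.Agent.Lib.D2.TM8a
import Pool.Agent.Lib.D2.TM7

/-! # D2, TM8 and TM9: tame extensions of rational adapted fields -/

set_option autoImplicit false

namespace Pool.Agent.D2

open Pool.Agent.H15JM (RVal)
open Pool.Agent.LU1 (VPos fixO decG mem_fixO)
open Pool.Agent.LUC
open Pool.Agent.LU3 (Ctx2 RF2 E2r)
open Polynomial

universe u

variable {k Ω : Type u} [Field k] [Field Ω] [Algebra k Ω] {v : RVal Ω} {r : ℕ}

/-- TM8: a tame extension of a rational adapted field has the same closure as another one. -/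
theorem tame_thm [IsAlgClosed k] [IsAlgClosed Ω] (p : ℕ) (hp : p.Prime) [CharP k p]
    (h : Ctx2 k v r) (hE : E2r k Ω v) (F : RF2 k v) (N : IntermediateField F.K Ω)
    [FiniteDimensional F.K N] [IsGalois F.K N] (H : Subgroup (N ≃ₐ[F.K] N))
    (hi : H.relIndex (decG v F.K N) < p) :
    ∃ F' : RF2 k v, F.K ≤ F'.K ∧ (∀ a ∈ F'.K, IsSeparable F.K a) ∧
      (∀ a ∈ fixO F.K N H, a ∈ Cl v F'.K.toSubfield) ∧
      ∀ a ∈ F'.K, a ∈ Cl v (fixO F.K N H).toSubfield :=
  T8.tame_thm_of_rad p hp h (fun F E hE₁ hE₂ ℓ hℓ hℓp η hη hηE =>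
    radical_step p hp h hE F E hE₁ hE₂ ℓ hℓ hℓp η hη hηE) F N H hi

/-- TM9: log uniformization of tame extensions of rational adapted fields. -/
theorem lus_tame [IsAlgClosed k] [IsAlgClosed Ω] (p : ℕ) (hp : p.Prime) [CharP k p]
    (h : Ctx2 k v r) (hE : E2r k Ω v) (F : RF2 k v) (N : IntermediateField F.K Ω)
    [FiniteDimensional F.K N] [IsGalois F.K N] (H : Subgroup (N ≃ₐ[F.K] N))
    (hi : H.relIndex (decG v F.K N) < p) :
    LUs v (algebraMap k Ω).range (fixO F.K N H).toSubfield :=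
  T8.lus_tame_of_rad p hp h hE (fun F E hE₁ hE₂ ℓ hℓ hℓp η hη hηE =>
    radical_step p hp h hE F E hE₁ hE₂ ℓ hℓ hℓp η hη hηE) F N H hi

end Pool.Agent.D2
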