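import Pool.Agent.Lib.D2.EN1
import Pool.Agent.Lib.D2.EN2a
import Pool.Agent.Lib.D2.E2
import Pool.Agent.Lib.D2.Fin1b
import Pool.Agent.Lib.D2.TM8
import Pool.Agent.Lib.TA.Main

/-! # D2: the statement about the subfields of algebraically closed fields -/

set_option autoImplicit false

namespace Pool.Agent.D2

open Pool.Agent.H15JM (RVal)
open Pool.Agent.LU3 (Ctx2 E2r)

universe u

/-- The statement `Main2`. -/
theorem main2 (p : ℕ) (hp : p.Prime) (k : Type u) [Field k] [IsAlgClosed k] [CharP k p] :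
    Main2 p k := by
  intro Ω _ _ _ v r h hpn E hfg halg
  have hE : E2r k Ω v := e2r p hp h
  obtain ⟨S, hS⟩ := id hfg
  refine lus_all_of p h hpn (fun x y z hx hind hy hz halg0 => ?_)
    (fun F N _ _ H hi => lus_tame p hp h hE F N H hi) E ?_ hfg
  · obtain ⟨F, hF, -⟩ := exists_RF2 h x y z hx hind hy hz halg0
    exact ⟨F, hF⟩
  · exact TA.toric_albanese (n := r + 2) (D := 2)
      { triv := h.triv, res := h.res, trdeg := by rw [h.trdeg]; push_cast; rfl, rank := h.rank }
      rfl E ⟨S, hS.symm⟩ halg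

end Pool.Agent.D2
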