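import Pool.Agent.Lib.LU2G.Real

/-! # D2: the real zero-dimensional case of defect at most two (definition) -/

set_option autoImplicit false

namespace Pool.Agent.D2

open Pool.Agent.LU2 (IsR1 DefLE)
open Pool.Agent.LU2G (LUr)

universe u

/-- The real zero-dimensional case of defect at most two. -/
def RealCase2 (p : ℕ) (k : Type u) [Field k] : Prop :=
  ∀ (K : Type u) [Field K] [Algebra k K], (⊤ : IntermediateField k K).FG →
    ∀ V : ValuationSubring K, (∀ c : k, algebraMap k K c ∈ V) → IsR1 V →
      (∀ f ∈ V, ∃ c : k, V.valuation (f - algebraMap k K c) < 1) →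
      ∀ m : ℕ, Algebra.trdeg k K = m → 2 ^ m * m.factorial < p → DefLE k V 2 → LUr k V

end Pool.Agent.D2
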