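import Pool.Agent.Lib.D2.FDefs
import Pool.Agent.Lib.D2.Real2
import Pool.Agent.Lib.LU2G.CompOf

/-!
# D2: the zero-dimensional components of defect at most two
-/

set_option autoImplicit false

namespace Pool.Agent.D2

open Pool.Agent.LU2 Pool.Agent.LU2G

universe u

/-- The component of the valuation ring `V` between `V` and `V₁` has the residue field `k`,
Abhyankar defect at most two and dimension `m` with `2 ^ m * m! < p`. -/
def CompZD (p : ℕ) (k : Type u) {K : Type u} [Field k] [Field K] [Algebra k K]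
    (V V₁ : ValuationSubring K) : Prop :=
  ∃ (K₁ : Type u) (_ : Field K₁) (_ : Algebra k K₁) (φ : V₁ →+* K₁) (V₂ : ValuationSubring K₁),
    IsRes (k := k) V V₁ φ V₂ ∧ DefLE k V₂ 2 ∧
      (∀ f ∈ V₂, ∃ c : k, V₂.valuation (f - algebraMap k K₁ c) < 1) ∧
      ∃ m : ℕ, Algebra.trdeg k K₁ = m ∧ 2 ^ m * m.factorial < p

/-- All rank one components of `V` have defect at most one, or are zero-dimensional of defect at
most two. -/
def AllComp2 (p : ℕ) (k : Type u) {K : Type u} [Field k] [Field K] [Algebra k K]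
    (V : ValuationSubring K) : Prop :=
  ∀ V₂ V₁ : ValuationSubring K, V ≤ V₂ → Covers V₂ V₁ → CompLE k V₂ V₁ 1 ∨ CompZD p k V₂ V₁

theorem AllComp2.of_le {p : ℕ} {k K : Type u} [Field k] [Field K] [Algebra k K]
    {V V₁ : ValuationSubring K} (h : AllComp2 p k V) (hle : V ≤ V₁) :
    AllComp2 p k V₁ := fun _ _ h₂ hc => h _ _ (hle.trans h₂) hc

/-- The residue field of a valuation ring of residue degree zero, `k` algebraically closed. -/
theorem exists_const_of_resDegree {k K : Type} [Field k] [IsAlgClosed k] [Field K] [Algebra k K]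
    {V : ValuationSubring K} (hk : ∀ c : k, algebraMap k K c ∈ V)
    (h : resDegree (algebraMap k K) V hk = 0) {f : K} (hf : f ∈ V) :
    ∃ c : k, V.valuation (f - algebraMap k K c) < 1 := by
  let alg : Algebra k (IsLocalRing.ResidueField V) :=
    ((IsLocalRing.residue V).comp ((algebraMap k K).codRestrict V hk)).toAlgebra
  have h1 : Algebra.trdeg k (IsLocalRing.ResidueField V) = 0 := h
  have hinj : Function.Injective (algebraMap k (IsLocalRing.ResidueField V)) :=
    (algebraMap k (IsLocalRing.ResidueField V)).injective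
  have : FaithfulSMul k (IsLocalRing.ResidueField V) :=
    (faithfulSMul_iff_algebraMap_injective k _).2 hinj
  have h2 : Algebra.IsAlgebraic k (IsLocalRing.ResidueField V) := trdeg_eq_zero_iff.1 h1
  obtain ⟨c, hc⟩ := (IsAlgClosed.algebraMap_bijective_of_isIntegral
    (k := k) (K := IsLocalRing.ResidueField V)).2 (IsLocalRing.residue V ⟨f, hf⟩)
  refine ⟨c, ?_⟩
  have h3 : IsLocalRing.residue V (⟨f, hf⟩ - ⟨algebraMap k K c, hk c⟩) = 0 := by
    rw [map_sub, ← hc, sub_eq_zero]
    rfl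
  rw [IsLocalRing.residue_eq_zero_iff, V.valuation_lt_one_iff] at h3
  exact h3

/-- The zero-dimensional components. -/
theorem compZD_of {p : ℕ} {k K : Type} [Field k] [IsAlgClosed k] [Field K] [Algebra k K]
    {V V₁ : ValuationSubring K} (hle : V ≤ V₁)
    (hk : ∀ c : k, algebraMap k K c ∈ V) (hk₁ : ∀ c : k, algebraMap k K c ∈ V₁)
    (h0 : resDegree (algebraMap k K) V hk = 0) (m : ℕ)
    (hm : resDegree (algebraMap k K) V₁ hk₁ = m) (hm2 : (m : Cardinal) ≤ compRank V V₁ + 2)
    (hp : 2 ^ m * m.factorial < p) : CompZD p k V V₁ := by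
  let alg : Algebra k (IsLocalRing.ResidueField V₁) :=
    ((IsLocalRing.residue V₁).comp ((algebraMap k K).codRestrict V₁ hk₁)).toAlgebra
  have hres : IsRes (k := k) V V₁ (IsLocalRing.residue V₁) (imgV hle) :=
    isRes_residue hle hk hk₁
  have hm' : Algebra.trdeg k (IsLocalRing.ResidueField V₁) = m := hm
  have hfin₁ : Algebra.trdeg k (IsLocalRing.ResidueField V₁) < Cardinal.aleph0 := by
    rw [hm']
    exact Cardinal.natCast_lt_aleph0
  have h' : Algebra.trdeg k (IsLocalRing.ResidueField V₁) ≤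
      compRank V V₁ + resDegree (algebraMap k K) V hk + ((2 : ℕ) : Cardinal) := by
    rw [h0, add_zero, hm']
    exact_mod_cast hm2
  obtain ⟨r, d, hr, hd, hT⟩ := exists_nat_split hfin₁ h'
  obtain ⟨x, hx1, hx⟩ := exists_units V V₁ hr
  obtain ⟨z, hz⟩ := exists_indRes' V hk hd
  refine ⟨IsLocalRing.ResidueField V₁, inferInstance, alg, IsLocalRing.residue V₁, imgV hle, hres,
    ⟨r, d, hT, ?_, ?_⟩, ?_, m, hm', hp⟩
  · have hxm : ∀ i, x i ∈ V₁ := fun i => (V₁.valuation_le_one_iff _).1 (hx1 i).le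
    exact ⟨_, hres.indVal₂ (y := fun i => ⟨x i, hxm i⟩) hx1 hx⟩
  · exact ⟨_, hres.indRes₂ (fun i => ⟨z i, hle (hz.1 i)⟩) hz⟩
  · intro f hf
    obtain ⟨y, rfl⟩ := hres.surj f
    rw [hres.mem] at hf
    obtain ⟨c, hc⟩ := exists_const_of_resDegree hk h0 hf
    refine ⟨c, ?_⟩
    rw [← hres.map_const c (hres.const₁ c), ← map_sub, hres.val_lt_iff]
    exact hc

/-- The hypothesis of the final theorems. -/
theorem allComp2_of {p : ℕ} {k K : Type} [Field k] [IsAlgClosed k] [Field K] [Algebra k K]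
    (hfin : Algebra.trdeg k K < Cardinal.aleph0) {V : ValuationSubring K}
    (h : ComponentDefectsLETwo p (algebraMap k K) V) : AllComp2 p k V := by
  intro V₁ V₂ h₁ hc
  obtain ⟨hk₁, hk₂, hd⟩ := h V₁ V₂ h₁ hc.covBy
  rcases hd with hd | ⟨h0, m, hm, hm2, hp⟩
  · exact Or.inl (compLE_of hfin hc.1.le hk₁ hk₂ hd)
  · exact Or.inr (compZD_of hc.1.le hk₁ hk₂ h0 m hm hm2 hp)

end Pool.Agent.D2
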