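import Pool.Agent.Lib.LU1_h15.GalDec
import Pool.Agent.Lib.LU1_h15.GroupThy
import Pool.Agent.Lib.LUC.ClDefs
import Pool.Agent.Lib.LUC.EtDefs

/-! # D2: the basic assumptions on the real valuation -/

set_option autoImplicit false

namespace Pool.Agent.D2

open Pool.Agent.H15JM (RVal)
open Pool.Agent.LU1 (VPos fixO decG mem_fixO)

universe u

/-- `v` is trivial on `k` and its residue field is `k`. -/
structure Ctx0 (k : Type u) {Ω : Type u} [Field k] [Field Ω] [Algebra k Ω] (v : RVal Ω) :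
    Prop where
  triv : ∀ c : k, c ≠ 0 → v (algebraMap k Ω c) = 0
  res : ∀ g : Ω, g ≠ 0 → v g = 0 → ∃ c : k, c ≠ 0 ∧ VPos v (g - algebraMap k Ω c)

variable {k Ω : Type u} [Field k] [Field Ω] [Algebra k Ω] {v : RVal Ω}

theorem Ctx0.ge (h : Ctx0 k v) (c : k) : v.Ge 0 (algebraMap k Ω c) := by
  intro h0
  have : c ≠ 0 := by rintro rfl; simp at h0
  rw [h.triv c this]

/-- An element of the valuation ring has a residue in `k`. -/
theorem Ctx0.residue (h : Ctx0 k v) {f : Ω} (hf : v.Ge 0 f) :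
    ∃ c : k, VPos v (f - algebraMap k Ω c) := by
  by_cases h0 : f = 0
  · exact ⟨0, by simp [h0, LU1.VPos.zero]⟩
  rcases (hf h0).lt_or_eq with h1 | h1
  · exact ⟨0, by rw [_root_.map_zero, sub_zero]; exact fun _ => h1⟩
  · obtain ⟨c, -, hc⟩ := h.res f h0 h1.symm
    exact ⟨c, hc⟩

theorem Ctx0.const_eq_zero (h : Ctx0 k v) {c : k} (hc : VPos v (algebraMap k Ω c)) :
    c = 0 := by
  by_contra h0
  have := hc (by simpa using h0)
  rw [h.triv c h0] at this
  exact lt_irrefl _ this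

end Pool.Agent.D2
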