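import Pool.Agent.Lib.D2.Ctx0
import Pool.Agent.Lib.LUC.Mods
import Pool.Agent.Lib.LU1_h15.Reg

/-! # D2: the local ring of a polynomial ring at the origin (dimension and parameters) -/

set_option autoImplicit false

namespace Pool.Agent.D2

open Pool.Agent.H15JM (RVal)
open Pool.Agent.LU1 (VPos)
open Pool.Agent.LUC

universe u

variable {k Ω : Type u} [Field k] [Field Ω] [Algebra k Ω] {v : RVal Ω}

/-- The ring `k[z]` consists of the values of the polynomials. -/
theorem mem_adj_range {n : ℕ} (z : Fin n → Ω) (f : Ω) :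
    f ∈ LUC.adj (algebraMap k Ω).range (Set.range z) ↔
      ∃ P : MvPolynomial (Fin n) k, MvPolynomial.aeval z P = f := by
  constructor
  · intro hf
    refine adj_induction (p := fun f => ∃ P : MvPolynomial (Fin n) k,
      MvPolynomial.aeval z P = f) ?_ ?_ ?_ ?_ hf
    · rintro _ ⟨c, rfl⟩
      exact ⟨MvPolynomial.C c, by simp⟩
    · rintro _ ⟨i, rfl⟩
      exact ⟨MvPolynomial.X i, by simp⟩
    · rintro _ _ ⟨P, rfl⟩ ⟨Q, rfl⟩
      exact ⟨P + Q, by simp⟩
    · rintro _ _ ⟨P, rfl⟩ ⟨Q, rfl⟩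
      exact ⟨P * Q, by simp⟩
  · rintro ⟨P, rfl⟩
    induction P using MvPolynomial.induction_on with
    | C c =>
      rw [MvPolynomial.aeval_C]
      exact base_le_adj _ _ ⟨c, rfl⟩
    | add P Q hP hQ =>
      rw [map_add]
      exact Subring.add_mem _ hP hQ
    | mul_X P i hP =>
      rw [map_mul, MvPolynomial.aeval_X]
      exact Subring.mul_mem _ hP (mem_adj ⟨i, rfl⟩)

theorem adj_range_nonneg (h : Ctx0 k v) {n : ℕ} (z : Fin n → Ω) (hz : ∀ i, VPos v (z i)) :
    ∀ f ∈ LUC.adj (algebraMap k Ω).range (Set.range z), v.Ge 0 f := by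
  refine adj_nonneg ?_ ?_
  · rintro _ ⟨c, rfl⟩
    exact h.ge c
  · rintro _ ⟨i, rfl⟩
    exact fun h0 => (hz i h0).le

/-- DIM: the local ring of a polynomial ring at the origin. -/
theorem dim_lv [IsAlgClosed k] (h : Ctx0 k v) {n : ℕ} (z : Fin n → Ω)
    (hz : ∀ i, VPos v (z i)) (hind : AlgebraicIndependent k z) :
    ringKrullDim (lv v (LUC.adj (algebraMap k Ω).range (Set.range z))) = n := by
  set B := LUC.adj (algebraMap k Ω).range (Set.range z) with hB
  have hge : ∀ P : MvPolynomial (Fin n) k, v.Ge 0 (MvPolynomial.aeval z P) := fun P =>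
    adj_range_nonneg h z hz _ ((mem_adj_range z _).2 ⟨P, rfl⟩)
  let φ : MvPolynomial (Fin n) k →+* lv v B :=
    { toFun := fun P => ⟨MvPolynomial.aeval z P, le_lv v B ((mem_adj_range z _).2 ⟨P, rfl⟩)⟩
      map_one' := Subtype.ext (map_one _)
      map_zero' := Subtype.ext (map_zero _)
      map_mul' := fun P Q => Subtype.ext (map_mul _ P Q)
      map_add' := fun P Q => Subtype.ext (map_add _ P Q) }
  have hφ : ∀ P, ((φ P : lv v B) : Ω) = MvPolynomial.aeval z P := fun P => rfl
  let _ : Algebra (MvPolynomial (Fin n) k) (lv v B) := φ.toAlgebra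
  have halg : ∀ P, algebraMap (MvPolynomial (Fin n) k) (lv v B) P = φ P := fun P => rfl
  let p : Ideal (MvPolynomial (Fin n) k) :=
    { carrier := {P | VPos v (MvPolynomial.aeval z P)}
      add_mem' := fun {a b} ha hb => by
        have := VPos.add ha hb
        rw [Set.mem_ofPred_eq, map_add]
        exact this
      zero_mem' := by
        rw [Set.mem_ofPred_eq, map_zero]
        exact LU1.VPos.zero
      smul_mem' := fun c a ha => by
        have := LU1.VPos.mul' (hge c) ha
        rw [Set.mem_ofPred_eq, smul_eq_mul, map_mul]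
        exact this }
  have hmem : ∀ P, P ∈ p ↔ VPos v (MvPolynomial.aeval z P) := fun P => Iff.rfl
  have h1p : (1 : MvPolynomial (Fin n) k) ∉ p := by
    intro h1
    rw [hmem, map_one] at h1
    have h2 := h1 one_ne_zero
    rw [v.map_one] at h2
    exact lt_irrefl _ h2
  have hp : p.IsMaximal := by
    rw [Ideal.isMaximal_iff]
    refine ⟨h1p, fun J x hJ hx hxJ => ?_⟩
    obtain ⟨c, hc⟩ := h.residue (hge x)
    have hxc : x - MvPolynomial.C c ∈ p := by
      rw [hmem, map_sub, MvPolynomial.aeval_C]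
      exact hc
    have hc0 : c ≠ 0 := by
      rintro rfl
      rw [MvPolynomial.C_0, sub_zero] at hxc
      exact hx hxc
    have h2 : MvPolynomial.C c ∈ J := by
      have h3 := J.sub_mem hxJ (hJ hxc)
      rwa [sub_sub_cancel] at h3
    have h4 := J.mul_mem_left (MvPolynomial.C c⁻¹) h2
    rwa [← MvPolynomial.C_mul, inv_mul_cancel₀ hc0, MvPolynomial.C_1] at h4
  have hpr : p.IsPrime := hp.isPrime
  have hloc : IsLocalization.AtPrime (lv v B) p := by
    rw [IsLocalization.AtPrime, isLocalization_iff]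
    refine ⟨?_, ?_, ?_⟩
    · rintro ⟨y, hy⟩
      have hy0 : MvPolynomial.aeval z y ≠ 0 := by
        intro h0
        apply hy
        rw [SetLike.mem_coe, hmem, h0]
        exact LU1.VPos.zero
      have hyv : v (MvPolynomial.aeval z y) = 0 := by
        by_contra h1
        apply hy
        rw [SetLike.mem_coe, hmem]
        intro _
        exact lt_of_le_of_ne (hge y hy0) (Ne.symm h1)
      have hinv : (MvPolynomial.aeval z y)⁻¹ ∈ lv v B :=
        lv_inv (le_lv v B ((mem_adj_range z _).2 ⟨y, rfl⟩)) hy0 hyv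
      refine IsUnit.of_mul_eq_one ⟨_, hinv⟩ ?_
      apply Subtype.ext
      exact mul_inv_cancel₀ hy0
    · rintro ⟨f, hf⟩
      obtain ⟨a, ha, b, hb, hb0, hvb, hab⟩ := hf
      obtain ⟨P, hP⟩ := (mem_adj_range z a).1 ha
      obtain ⟨Q, hQ⟩ := (mem_adj_range z b).1 hb
      refine ⟨(P, ⟨Q, ?_⟩), ?_⟩
      · intro h1
        rw [SetLike.mem_coe, hmem, hQ] at h1
        have h2 := h1 hb0
        rw [hvb] at h2
        exact lt_irrefl _ h2
      · apply Subtype.ext
        change f * MvPolynomial.aeval z Q = MvPolynomial.aeval z P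
        rw [hP, hQ, hab, div_mul_cancel₀ _ hb0]
    · intro x y hxy
      refine ⟨1, ?_⟩
      have h1 : MvPolynomial.aeval z x = MvPolynomial.aeval z y :=
        congrArg (fun t : lv v B => (t : Ω)) hxy
      have h2 : x = y := hind h1
      rw [h2]
  rw [IsLocalization.AtPrime.ringKrullDim_eq_height p (lv v B), LU1.RegAux.height_mv k n p hp]
  rfl

/-- A polynomial is its constant term plus a combination of the variables. -/
theorem exists_sum_aeval {n : ℕ} (z : Fin n → Ω) (P : MvPolynomial (Fin n) k) :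
    ∃ c : k, ∃ Q : Fin n → MvPolynomial (Fin n) k,
      MvPolynomial.aeval z P = algebraMap k Ω c + ∑ i, z i * MvPolynomial.aeval z (Q i) := by
  induction P using MvPolynomial.induction_on with
  | C c => exact ⟨c, 0, by simp⟩
  | add P Q hP hQ =>
    obtain ⟨c, A, hA⟩ := hP
    obtain ⟨d, B, hB⟩ := hQ
    refine ⟨c + d, A + B, ?_⟩
    rw [map_add, hA, hB, map_add]
    simp only [Pi.add_apply, map_add, mul_add, Finset.sum_add_distrib]
    ring
  | mul_X P i hP =>
    classical
    refine ⟨0, Pi.single i P, ?_⟩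
    rw [map_mul, MvPolynomial.aeval_X, map_zero, zero_add,
      Finset.sum_eq_single i (fun j _ hj => by rw [Pi.single_eq_of_ne hj]; simp)
      (fun h => absurd (Finset.mem_univ i) h), Pi.single_eq_same, mul_comm]

/-- PARP: the parameters of the local ring of a polynomial ring at the origin. -/
theorem par_lv (h : Ctx0 k v) {n : ℕ} (z : Fin n → Ω)
    (hz : ∀ i, VPos v (z i)) (hz0 : ∀ i, z i ≠ 0) :
    Par v (lv v (LUC.adj (algebraMap k Ω).range (Set.range z))) z := by
  set B := LUC.adj (algebraMap k Ω).range (Set.range z) with hB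
  have hzB : ∀ i, z i ∈ B := fun i => mem_adj ⟨i, rfl⟩
  have hzlv : ∀ i, z i ∈ lv v B := fun i => le_lv v B (hzB i)
  refine ⟨hzlv, hz0, fun i => hz i (hz0 i), ?_⟩
  intro f hf hpos
  obtain ⟨a, ha, b, hb, hb0, hvb, hab⟩ := hf
  obtain ⟨P, hP⟩ := (mem_adj_range z a).1 ha
  obtain ⟨c, Q, hQ⟩ := exists_sum_aeval z P
  have hQB : ∀ i, MvPolynomial.aeval z (Q i) ∈ B := fun i => (mem_adj_range z _).2 ⟨Q i, rfl⟩
  have hsum : VPos v (∑ i, z i * MvPolynomial.aeval z (Q i)) := by
    refine Finset.sum_induction _ (fun x => VPos v x) (fun x y hx hy => VPos.add hx hy)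
      LU1.VPos.zero (fun i _ => ?_)
    rw [mul_comm]
    exact LU1.VPos.mul' (adj_range_nonneg h z hz _ (hQB i)) (hz i)
  have haP : a = algebraMap k Ω c + ∑ i, z i * MvPolynomial.aeval z (Q i) := by
    rw [← hP, hQ]
  have hapos : VPos v a := by
    intro ha0
    have h1 : f ≠ 0 := by rw [hab]; exact div_ne_zero ha0 hb0
    have h2 := hpos h1
    rw [hab, v.map_div ha0 hb0, hvb, sub_zero] at h2
    exact h2
  have hc : VPos v (algebraMap k Ω c) := by
    have h1 : algebraMap k Ω c = a + -(∑ i, z i * MvPolynomial.aeval z (Q i)) := by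
      rw [haP]; ring
    rw [h1]
    exact VPos.add hapos hsum.neg
  have hc0 := h.const_eq_zero hc
  rw [hc0, map_zero, zero_add] at haP
  have hbinv : b⁻¹ ∈ lv v B := lv_inv (le_lv v B hb) hb0 hvb
  have hfs : f = ∑ i, (MvPolynomial.aeval z (Q i) * b⁻¹) * z i := by
    rw [hab, haP, div_eq_mul_inv, Finset.sum_mul]
    exact Finset.sum_congr rfl fun i _ => by ring
  rw [hfs]
  refine IP.sum _ _ fun i _ => (IP.gen (hzlv i)).mul_left ?_
  exact (lv v B).mul_mem (le_lv v B (hQB i)) hbinv

end Pool.Agent.D2
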