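import Pool.Agent.Lib.LU3.Defs
import Pool.Agent.Lib.LU1_h15.Base_G0

/-! # D2, EN1: the rational frame given by coordinates `x_1, …, x_r, y, z` -/

set_option autoImplicit false

namespace Pool.Agent.D2

open Pool.Agent.H15JM (RVal)
open Pool.Agent.LU1 (VPos)
open Pool.Agent.LU1.BaseG0 (ph mo ch ch_ph ch_ne ch_add ch_val ph_single mo_single ph_apply)
open Pool.Agent.LU3 (Ctx2 RF2)

universe u

variable {k Ω : Type u} [Field k] [Field Ω] [Algebra k Ω] {v : RVal Ω} {r : ℕ}

/-- Values are rational combinations of the values of the `x i`. -/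
theorem full2 (h : Ctx2 k v r) {x : Fin r → Ω} (hx : ∀ i, x i ≠ 0)
    (hind : LinearIndependent ℚ fun i => v (x i)) (g : Ω) (hg : g ≠ 0) :
    ∃ m : ℕ, 0 < m ∧ (m : ℝ) * v g ∈ (ph v x).range := by
  classical
  obtain ⟨X, hX0, hXi, hX⟩ := h.rank
  have hle : Submodule.span ℚ (Set.range fun i => v (x i)) ≤
      Submodule.span ℚ (Set.range fun i => v (X i)) := by
    rw [Submodule.span_le]
    rintro _ ⟨i, rfl⟩
    exact hX (x i) (hx i)
  have hfin : FiniteDimensional ℚ (Submodule.span ℚ (Set.range fun i => v (X i))) :=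
    FiniteDimensional.span_of_finite ℚ (Set.finite_range _)
  have heq := Submodule.eq_of_le_of_finrank_eq hle (by
    rw [finrank_span_eq_card hind, finrank_span_eq_card hXi])
  have hmem : v g ∈ Submodule.span ℚ (Set.range fun i => v (x i)) := by
    rw [heq]
    exact hX g hg
  obtain ⟨c, hc⟩ := (Submodule.mem_span_range_iff_exists_fun ℚ).1 hmem
  refine ⟨∏ i, (c i).den, Finset.prod_pos fun i _ => (c i).pos, ?_⟩
  refine ⟨fun i => (c i).num * ∏ j ∈ Finset.univ.erase i, ((c j).den : ℤ), ?_⟩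
  rw [ph_apply, ← hc, Finset.mul_sum]
  refine Finset.sum_congr rfl fun i _ => ?_
  rw [Rat.smul_def, ← Finset.mul_prod_erase _ _ (Finset.mem_univ i), ← mul_assoc]
  congr 1
  have h1 : ((c i).num : ℝ) = (c i : ℝ) * (c i).den := by
    exact_mod_cast (Rat.mul_den_eq_num (c i)).symm
  push_cast
  rw [h1]
  ring

/-- EN1: the rational frame given by `x`, `y`, `z`. -/
theorem exists_RF2 (h : Ctx2 k v r) (x : Fin r → Ω) (y z : Ω)
    (hx : ∀ i, x i ≠ 0 ∧ 0 < v (x i)) (hind : LinearIndependent ℚ fun i => v (x i))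
    (hy : y ≠ 0 ∧ 0 < v y) (hz : z ≠ 0 ∧ 0 < v z)
    (halg : ∀ g : Ω, IsAlgebraic (IntermediateField.adjoin k (Set.range x ∪ {y, z})) g) :
    ∃ F : RF2 k v, F.K = IntermediateField.adjoin k (Set.range x ∪ {y, z}) ∧ F.y = y ∧
      F.z = z ∧ ∀ l : Fin r → ℤ, (∑ i, (l i : ℝ) * v (x i)) ∈ F.Γ ∧
        F.χ (∑ i, (l i : ℝ) * v (x i)) = ∏ i, x i ^ l i := by
  have hx0 : ∀ i, x i ≠ 0 := fun i => (hx i).1
  have hsub : Set.range x ⊆ ch v x '' {γ | γ ∈ (ph v x).range} := by
    rintro _ ⟨i, rfl⟩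
    exact ⟨v (x i), ⟨_, ph_single x i⟩, by
      rw [← ph_single (v := v) x i, ch_ph hind, mo_single]⟩
  refine ⟨{ Γ := (ph v x).range, fg := ?_, full := full2 h hx0 hind, χ := ch v x,
            χ_ne := fun γ _ => ch_ne hx0, χ_add := fun γ hγ δ hδ => ch_add hx0 hind hγ hδ,
            χ_val := fun γ hγ => ch_val hx0 hind hγ, y := y, y_ne := hy.1, y_pos := hy.2,
            z := z, z_ne := hz.1, z_pos := hz.2, alg := ?_ }, ?_, rfl, rfl, ?_⟩
  · rw [← AddGroup.fg_iff_addSubgroup_fg]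
    infer_instance
  · intro g
    refine IsAlgebraic.tower_top_of_subalgebra_le ?_ (LU1.BaseG0.alg_down _ g (halg g))
    exact Algebra.adjoin_mono (Set.union_subset_union_left _ hsub)
  · apply le_antisymm
    · rw [RF2.K, IntermediateField.adjoin_le_iff]
      rintro f (⟨γ, -, rfl⟩ | hf)
      · rw [SetLike.mem_coe]
        change (∏ i, x i ^ (Function.invFun (ph v x) γ) i) ∈
          IntermediateField.adjoin k (Set.range x ∪ {y, z})
        refine prod_mem fun i _ => zpow_mem ?_ _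
        exact IntermediateField.subset_adjoin _ _ (Or.inl ⟨i, rfl⟩)
      · exact IntermediateField.subset_adjoin _ _ (Or.inr hf)
    · rw [RF2.K]
      exact IntermediateField.adjoin.mono _ _ _ (Set.union_subset_union_left _ hsub)
  · intro l
    exact ⟨⟨l, rfl⟩, ch_ph hind l⟩

/-- The field of a rational frame is finitely generated. -/
theorem RF2K_fg (F : RF2 k v) : F.K.FG := by
  classical
  obtain ⟨S, hS⟩ := F.fg
  have h0 : F.χ 0 = 1 := by
    have h1 := F.χ_add 0 F.Γ.zero_mem 0 F.Γ.zero_mem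
    rw [add_zero] at h1
    exact (mul_right_cancel₀ (F.χ_ne 0 F.Γ.zero_mem) (by rw [one_mul]; exact h1)).symm
  have hneg : ∀ γ ∈ F.Γ, F.χ (-γ) = (F.χ γ)⁻¹ := by
    intro γ hγ
    have h1 := F.χ_add γ hγ (-γ) (F.Γ.neg_mem hγ)
    rw [add_neg_cancel, h0] at h1
    exact eq_inv_of_mul_eq_one_right h1.symm
  have key : ∀ γ (hγ : γ ∈ AddSubgroup.closure (S : Set ℝ)), γ ∈ F.Γ ∧ F.χ γ ∈
      IntermediateField.adjoin k (((S.image F.χ ∪ {F.y, F.z} : Finset Ω)) : Set Ω) := by
    intro γ hγ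
    refine AddSubgroup.closure_induction (p := fun γ _ => γ ∈ F.Γ ∧ F.χ γ ∈
      IntermediateField.adjoin k (((S.image F.χ ∪ {F.y, F.z} : Finset Ω)) : Set Ω))
      ?_ ?_ ?_ ?_ hγ
    · intro s hs
      refine ⟨?_, ?_⟩
      · rw [← hS]
        exact AddSubgroup.subset_closure hs
      · apply IntermediateField.subset_adjoin
        rw [Finset.coe_union, Finset.coe_image]
        exact Or.inl ⟨s, hs, rfl⟩
    · exact ⟨F.Γ.zero_mem, by rw [h0]; exact one_mem _⟩
    · rintro a b _ _ ⟨ha, ha'⟩ ⟨hb, hb'⟩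
      exact ⟨F.Γ.add_mem ha hb, by rw [F.χ_add a ha b hb]; exact mul_mem ha' hb'⟩
    · rintro a _ ⟨ha, ha'⟩
      exact ⟨F.Γ.neg_mem ha, by rw [hneg a ha]; exact inv_mem ha'⟩
  refine ⟨S.image F.χ ∪ {F.y, F.z}, le_antisymm ?_ ?_⟩
  · rw [IntermediateField.adjoin_le_iff]
    intro f hf
    rw [Finset.coe_union, Finset.coe_image] at hf
    rcases hf with ⟨s, hs, rfl⟩ | hf
    · refine IntermediateField.subset_adjoin _ _ (Or.inl ⟨s, ?_, rfl⟩)
      have : s ∈ F.Γ := by
        rw [← hS]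
        exact AddSubgroup.subset_closure hs
      exact this
    · exact IntermediateField.subset_adjoin _ _ (Or.inr (by simpa using hf))
  · rw [RF2.K, IntermediateField.adjoin_le_iff]
    rintro f (⟨γ, hγ, rfl⟩ | hf)
    · refine (key γ ?_).2
      rw [hS]
      exact hγ
    · apply IntermediateField.subset_adjoin
      rw [Finset.coe_union]
      exact Or.inr (by simpa using hf)

end Pool.Agent.D2
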