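import Pool.Agent.Lib.D2.EN2a
import Pool.Agent.Lib.D2.EN1
import Pool.Agent.Lib.D2.TM8

/-! # D2, EN2: all function fields, from the conclusion of the toric Albanese theorem -/

set_option autoImplicit false

namespace Pool.Agent.D2

open Pool.Agent.H15JM (RVal)
open Pool.Agent.LU1 (VPos fixO decG mem_fixO)
open Pool.Agent.LUC
open Pool.Agent.LU3 (Ctx2 RF2 E2r)

universe u

variable {k Ω : Type u} [Field k] [Field Ω] [Algebra k Ω] {v : RVal Ω} {r : ℕ}

/-- EN2: all function fields, from the conclusion of the toric Albanese theorem. -/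
theorem lus_all [IsAlgClosed k] [IsAlgClosed Ω] (p : ℕ) (hp : p.Prime) [CharP k p]
    (h : Ctx2 k v r) (hE : E2r k Ω v) (hpn : 2 ^ (r + 2) * (r + 2).factorial < p)
    (E : IntermediateField k Ω) (_halg : ∀ g : Ω, IsAlgebraic E g)
    (hTA : ∃ (x : Fin r → Ω) (y : Fin 2 → Ω), (∀ i, x i ∈ E ∧ x i ≠ 0 ∧ 0 < v (x i)) ∧
      LinearIndependent ℚ (fun i => v (x i)) ∧ (∀ j, y j ∈ E ∧ y j ≠ 0 ∧ 0 < v (y j)) ∧
      AlgebraicIndependent k (Sum.elim x y) ∧
      ∀ F : IntermediateField k Ω, F = IntermediateField.adjoin k (Set.range x ∪ Set.range y) →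
        (∀ g ∈ E, IsSeparable F g) ∧
        ∀ (N : IntermediateField F Ω) [FiniteDimensional F N] [IsGalois F N]
          (H : Subgroup (N ≃ₐ[F] N)), fixO F N H = E →
          H.relIndex (decG v F N) ≤ 2 ^ (r + 2) * (r + 2).factorial) (hfg : E.FG) :
    LUs v (algebraMap k Ω).range E.toSubfield :=
  lus_all_of p h hpn (fun x y z hx hi hy hz ha => by
    obtain ⟨F, hF, -⟩ := exists_RF2 h x y z hx hi hy hz ha
    exact ⟨F, hF⟩) (fun F N _ _ H hi => lus_tame p hp h hE F N H hi) E hTA hfg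

end Pool.Agent.D2
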