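import Pool.Agent.Lib.LU2G.CompDefs

/-!
# Valuation rings all of whose rank one components have defect at most one, or are zero-dimensional
of defect at most two
-/

namespace Pool.Agent.D2

open Pool.Agent.LU2G

/-- All rank one components of the valuation ring `V` of `K` have Abhyankar defect at most one over
`k`, or have a residue field algebraic over `k`, defect at most two and dimension `m` with
`2 ^ m * m! < p`: if `V ⊆ V₁ ⊂ V₂` are valuation rings with nothing between `V₁` and `V₂`, the
transcendence degree over `k` of the residue field of `V₂` is at most the sum of that of the residue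
field of `V₁`, of the rational rank of the value group `V₂ˣ / V₁ˣ`, and of one; or the residue field
of `V₁` is algebraic over `k`, that of `V₂` has transcendence degree `m` with `2 ^ m * m! < p`, and
`m` is at most the rational rank of `V₂ˣ / V₁ˣ` plus two. -/
def ComponentDefectsLETwo (p : ℕ) {k K : Type} [Field k] [Field K] (ι : k →+* K)
    (V : ValuationSubring K) : Prop :=
  ∀ V₁ V₂ : ValuationSubring K, V ≤ V₁ → V₁ ⋖ V₂ →
    ∃ (h₁ : ∀ a, ι a ∈ V₁) (h₂ : ∀ a, ι a ∈ V₂),
      resDegree ι V₂ h₂ ≤ resDegree ι V₁ h₁ + compRank V₁ V₂ + 1 ∨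
      (resDegree ι V₁ h₁ = 0 ∧ ∃ m : ℕ, resDegree ι V₂ h₂ = m ∧
        (m : Cardinal) ≤ compRank V₁ V₂ + 2 ∧ 2 ^ m * m.factorial < p)

/-- For an embedding of `k` in `K` and a valuation ring `V` of `K`: `K` contains a finitely
generated extension `F` of `k`, dense in `K` for the topology defined by `V`, such that `K` is
separably generated over `F` and the valuation ring `V ∩ F` of `F` satisfies
`ComponentDefectsLETwo`. -/
def DenseDefectsLETwo (p : ℕ) {k K : Type} [Field k] [Field K] (ι : k →+* K)
    (V : ValuationSubring K) : Prop :=
  letI : Algebra k K := ι.toAlgebra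
  ∃ F : IntermediateField k K, F.FG ∧
    (∀ a b : K, b ≠ 0 → ∃ c ∈ F, V.valuation (a - c) < V.valuation b) ∧
    (∃ s : Finset K, AlgebraicIndependent F (Subtype.val : s → K) ∧
      Algebra.IsSeparable (IntermediateField.adjoin F (s : Set K)) K) ∧
    ComponentDefectsLETwo p (algebraMap k F) (V.comap (algebraMap F K))

end Pool.Agent.D2
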