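import Pool.Agent.Lib.D2.FIN2a
import Pool.Agent.Lib.LU2H.Final

/-! # D2: the final theorem for several valuations -/

set_option autoImplicit false

open AlgebraicGeometry CategoryTheory

namespace Pool.Agent.D2

open Pool.Agent.LU2G (LUr RealCaseR consts coarser IsSmoothAt const_mem)
open Pool.Agent.LU1G (IsGen)
open Pool.Agent.LU2H (fg_functionField all_steps AllGood)

/-- The final theorem for MP_b525bf_ag. -/
theorem exists_smooth_centres2 (p : ℕ) (k : Type) [Field k] [IsAlgClosed k]
    (hreal : RealCaseR k) (hreal2 : RealCase2 p k)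
    (X : Scheme.{0}) [IsIntegral X] (f : X ⟶ Spec (CommRingCat.of k))
    [LocallyOfFiniteType f] (m : ℕ) (V : Fin m → ValuationSubring X.functionField)
    (hV : ∀ i, DenseDefectsLETwo p (LU2G.consts f) (V i))
    (c : ∀ i, Spec (CommRingCat.of (V i)) ⟶ X)
    (hc : ∀ i, Spec.map (CommRingCat.ofHom (algebraMap (V i) X.functionField)) ≫
      c i = X.fromSpecStalk (genericPoint X)) :
    ∃ (Y : Scheme.{0}) (π : Y ⟶ X), IsIntegral Y ∧ IsProper π ∧
      (∀ W : X.Opens, (∀ (i : Fin m) (V' : ValuationSubring X.functionField) (h : V i ≤ V'),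
        V' ≠ ⊤ → (LU2G.coarser h ≫ c i) (IsLocalRing.closedPoint V') ∈ W →
          LU2G.IsSmoothAt f ((LU2G.coarser h ≫ c i) (IsLocalRing.closedPoint V'))) →
          IsIso (π ∣_ W)) ∧
      ∀ i, ∃ c' : Spec (CommRingCat.of (V i)) ⟶ Y, c' ≫ π = c i ∧
        LU2G.IsSmoothAt (π ≫ f) (c' (IsLocalRing.closedPoint (V i))) := by
  let _ : Algebra k X.functionField := (consts f).toAlgebra
  have hη : IsGen (K := X.functionField) (X.fromSpecStalk (genericPoint X)) := by
    refine ⟨RingEquiv.refl _, ?_⟩
    have h1 : (CommRingCat.ofHom (RingEquiv.refl X.functionField).toRingHom) =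
        𝟙 (CommRingCat.of X.functionField) := rfl
    rw [h1, Spec.map_id]
    exact (Category.id_comp _).symm
  have hηf : X.fromSpecStalk (genericPoint X) ≫ f =
      Spec.map (CommRingCat.ofHom (algebraMap k X.functionField)) := by
    have h1 : CommRingCat.ofHom (algebraMap k X.functionField) =
        Spec.preimage (X.fromSpecStalk (genericPoint X) ≫ f) := rfl
    rw [h1, Spec.map_preimage]
  have hK : (⊤ : IntermediateField k X.functionField).FG :=
    fg_functionField (K := X.functionField) f (X.fromSpecStalk (genericPoint X)) hη hηf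
  refine all_steps k X.functionField m X f (X.fromSpecStalk (genericPoint X)) hη hηf V
    (fun i => ?_) c hc
  obtain ⟨F, hF, hdense, ⟨s, hs, hsep⟩, hdef⟩ := hV i
  exact allGood_of_dense2 p hreal hreal2 hK (V i)
    (const_mem f (X.fromSpecStalk (genericPoint X)) hηf (V i) (c i) (hc i)) F hF hdense s hs hsep
    hdef

end Pool.Agent.D2
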