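import Pool.Agent.Lib.LU3.Defs
import Pool.Agent.Lib.LUC.Mods

/-! # D2: definitions of block G1 -/

set_option autoImplicit false

namespace Pool.Agent.D2

open Pool.Agent.H15JM (RVal)
open Pool.Agent.LU1 (VPos)
open Pool.Agent.LUC
open Pool.Agent.LU3 (Ctx2 RF2 E2r)

universe u

variable {k Ω : Type u} [Field k] [Field Ω] [Algebra k Ω] {v : RVal Ω} {r : ℕ}

/-- The parameters `χ(γ_i)`, `y`, `z`. -/
noncomputable def xyz (F : RF2 k v) (γ : Fin r → ℝ) : Fin (r + 2) → Ω :=
  Fin.append (fun i => F.χ (γ i)) ![F.y, F.z]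

/-- The indices of the parameters `χ(γ_i)`. -/
def xJ (r : ℕ) : Finset (Fin (r + 2)) := Finset.univ.image (Fin.castAdd 2)

/-- The local ring of the noetherian frame given by `γ`. -/
noncomputable def Oγ (F : RF2 k v) (γ : Fin r → ℝ) : Subring Ω :=
  lv v (LUC.adj (algebraMap k Ω).range (Set.range (xyz F γ)))

end Pool.Agent.D2
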