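import Pool.Agent.Lib.D2.G1Defs
import Pool.Agent.Lib.LU3.Assembly

/-! # D2, G1a (Perron): noetherian frames inside a rational frame -/

set_option autoImplicit false

namespace Pool.Agent.D2

open Pool.Agent.H15JM (RVal)
open Pool.Agent.LU1 (VPos GoodBasis perron locv)
open Pool.Agent.LUC
open Pool.Agent.LU3 (Ctx2 RF2 E2r)

universe u

variable {k Ω : Type u} [Field k] [Field Ω] [Algebra k Ω] {v : RVal Ω} {r : ℕ}

namespace G1A

theorem χ_nsmul (F : RF2 k v) {γ : ℝ} (h : γ ∈ F.Γ) (n : ℕ) : F.χ (n * γ) = F.χ γ ^ n := by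
  induction n with
  | zero => simp [LU3.Asm.χ_zero]
  | succ n ih =>
    have h1 : ((n + 1 : ℕ) : ℝ) * γ = n * γ + γ := by push_cast; ring
    have h2 : (n : ℝ) * γ ∈ F.Γ := by
      rw [← nsmul_eq_mul]; exact F.Γ.nsmul_mem h n
    rw [h1, F.χ_add _ h2 _ h, ih, pow_succ]

theorem χ_zsmul (F : RF2 k v) {γ : ℝ} (h : γ ∈ F.Γ) (n : ℤ) : F.χ (n * γ) = F.χ γ ^ n := by
  cases n with
  | ofNat n => simpa using χ_nsmul F h n
  | negSucc n =>
    have h2 : ((n + 1 : ℕ) : ℝ) * γ ∈ F.Γ := by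
      rw [← nsmul_eq_mul]; exact F.Γ.nsmul_mem h _
    have h1 : ((Int.negSucc n : ℤ) : ℝ) * γ = -(((n + 1 : ℕ) : ℝ) * γ) := by
      push_cast; ring
    rw [h1, LU3.Asm.χ_neg F h2, χ_nsmul F h, zpow_negSucc]

theorem χ_sum (F : RF2 k v) {ι : Type*} (s : Finset ι) (u : ι → ℝ) (hu : ∀ i, u i ∈ F.Γ)
    (n : ι → ℤ) : (∑ i ∈ s, (n i : ℝ) * u i) ∈ F.Γ ∧
      F.χ (∑ i ∈ s, (n i : ℝ) * u i) = ∏ i ∈ s, F.χ (u i) ^ n i := by
  classical
  induction s using Finset.induction_on with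
  | empty => exact ⟨by simp, by simp [LU3.Asm.χ_zero]⟩
  | insert i s hi ih =>
    have h1 : (n i : ℝ) * u i ∈ F.Γ := by
      rw [← zsmul_eq_mul]; exact F.Γ.zsmul_mem (hu i) _
    rw [Finset.sum_insert hi, Finset.prod_insert hi]
    exact ⟨F.Γ.add_mem h1 ih.1, by rw [F.χ_add _ h1 _ ih.1, χ_zsmul F (hu i), ih.2]⟩

/-- `Γ` has rank `r`. -/
theorem rank (h : Ctx2 k v r) (F : RF2 k v) :
    ∃ X : Fin r → ℝ, LinearIndependent ℚ X ∧ (∀ i, X i ∈ F.Γ) ∧
      ∀ γ ∈ F.Γ, γ ∈ Submodule.span ℚ (Set.range X) := by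
  obtain ⟨X, hX, hind, hspan⟩ := h.rank
  choose m hm hmΓ using fun i => F.full (X i) (hX i)
  let w : Fin r → ℚˣ := fun i => Units.mk0 (m i : ℚ) (by exact_mod_cast (hm i).ne')
  have hw : (fun i => (m i : ℝ) * v (X i)) = w • (fun i => v (X i)) := by
    funext i
    rw [Pi.smul_apply', Units.smul_def]
    simp only [w, Units.val_mk0]
    rw [Rat.smul_def]
    norm_num
  refine ⟨fun i => (m i : ℝ) * v (X i), ?_, hmΓ, fun γ hγ => ?_⟩
  · rw [hw]
    exact hind.units_smul w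
  · have h1 := hspan (F.χ γ) (F.χ_ne γ hγ)
    rw [F.χ_val γ hγ] at h1
    refine (Submodule.span_le.2 ?_) h1
    rintro _ ⟨i, rfl⟩
    have h2 : v (X i) = (1 / (m i : ℚ)) • ((m i : ℝ) * v (X i)) := by
      have h3 : (m i : ℝ) ≠ 0 := by exact_mod_cast (hm i).ne'
      rw [Rat.smul_def]
      push_cast
      field_simp
    simp only
    rw [h2]
    exact Submodule.smul_mem _ _ (Submodule.subset_span ⟨i, rfl⟩)

/-- The polynomial ring `k[χ(γ_i), y, z]`. -/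
noncomputable def Pγ (F : RF2 k v) (γ : Fin r → ℝ) : Subring Ω :=
  LUC.adj (algebraMap k Ω).range (Set.range (xyz F γ))

theorem xyz_left (F : RF2 k v) (γ : Fin r → ℝ) (i : Fin r) :
    xyz F γ (Fin.castAdd 2 i) = F.χ (γ i) := by
  rw [xyz, Fin.append_left]

theorem xyz_y (F : RF2 k v) (γ : Fin r → ℝ) : xyz F γ (Fin.natAdd r 0) = F.y := by
  rw [xyz, Fin.append_right]; rfl

theorem xyz_z (F : RF2 k v) (γ : Fin r → ℝ) : xyz F γ (Fin.natAdd r 1) = F.z := by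
  rw [xyz, Fin.append_right]; rfl

theorem mem_Pγ (F : RF2 k v) (γ : Fin r → ℝ) (i : Fin (r + 2)) : xyz F γ i ∈ Pγ F γ :=
  mem_adj ⟨i, rfl⟩

theorem const_mem_Pγ (F : RF2 k v) (γ : Fin r → ℝ) (c : k) : algebraMap k Ω c ∈ Pγ F γ :=
  base_le_adj _ _ ⟨c, rfl⟩

/-- monomials with natural exponents -/
theorem χ_mem_Pγ (F : RF2 k v) {γ : Fin r → ℝ} (hγ : ∀ i, γ i ∈ F.Γ) (n : Fin r → ℕ) :
    F.χ (∑ i, (n i : ℝ) * γ i) ∈ Pγ F γ := by
  have h1 := (χ_sum F Finset.univ γ hγ fun i => (n i : ℤ)).2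
  simp only [Int.cast_natCast, zpow_natCast] at h1
  rw [h1]
  refine Subring.prod_mem _ fun i _ => Subring.pow_mem _ ?_ _
  rw [← xyz_left F γ i]
  exact mem_Pγ F γ _

/-- Only finitely many monomials are used. -/
theorem exists_supp (F : RF2 k v) {f : Ω} (hf : f ∈ F.P) :
    ∃ S : Finset ℝ, (∀ γ ∈ S, γ ∈ F.Γ ∧ 0 < γ) ∧
      ∀ u : Fin r → ℝ, GoodBasis F.Γ (S : Set ℝ) u → f ∈ Pγ F u := by
  classical
  have good_mono : ∀ {S T : Finset ℝ} {u : Fin r → ℝ}, S ⊆ T → GoodBasis F.Γ (T : Set ℝ) u →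
      GoodBasis F.Γ (S : Set ℝ) u := fun hST hu =>
    ⟨hu.mem, hu.pos, hu.ind, hu.gen, fun γ hγ => hu.cone γ (hST hγ)⟩
  have hun : ∀ {S T : Finset ℝ}, (∀ γ ∈ S, γ ∈ F.Γ ∧ 0 < γ) → (∀ γ ∈ T, γ ∈ F.Γ ∧ 0 < γ) →
      ∀ γ ∈ S ∪ T, γ ∈ F.Γ ∧ 0 < γ := by
    intro S T h1 h2 γ hγ
    rcases Finset.mem_union.1 hγ with h | h
    · exact h1 γ h
    · exact h2 γ h
  unfold RF2.P at hf
  induction hf using Algebra.adjoin_induction with
  | mem x hx =>
    rcases hx with ⟨γ, ⟨hγ, h0⟩, rfl⟩ | rfl | rfl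
    · rcases h0.lt_or_eq with h1 | h1
      · refine ⟨{γ}, by simp [hγ, h1], fun u hu => ?_⟩
        obtain ⟨n, -, hn⟩ := hu.cone γ (by simp)
        rw [hn]
        exact χ_mem_Pγ F hu.mem n
      · refine ⟨∅, by simp, fun u _ => ?_⟩
        rw [← h1, LU3.Asm.χ_zero]
        exact Subring.one_mem _
    · exact ⟨∅, by simp, fun u _ => by rw [← xyz_y F u]; exact mem_Pγ F u _⟩
    · exact ⟨∅, by simp, fun u _ => by rw [← xyz_z F u]; exact mem_Pγ F u _⟩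
  | algebraMap c => exact ⟨∅, by simp, fun u _ => const_mem_Pγ F u c⟩
  | add x y _ _ hx hy =>
    obtain ⟨S, hS, h1⟩ := hx
    obtain ⟨T, hT, h2⟩ := hy
    exact ⟨S ∪ T, hun hS hT, fun u hu =>
      Subring.add_mem _ (h1 u (good_mono Finset.subset_union_left hu))
        (h2 u (good_mono Finset.subset_union_right hu))⟩
  | mul x y _ _ hx hy =>
    obtain ⟨S, hS, h1⟩ := hx
    obtain ⟨T, hT, h2⟩ := hy
    exact ⟨S ∪ T, hun hS hT, fun u hu =>
      Subring.mul_mem _ (h1 u (good_mono Finset.subset_union_left hu))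
        (h2 u (good_mono Finset.subset_union_right hu))⟩

theorem exists_supp_R (F : RF2 k v) {f : Ω} (hf : f ∈ F.R) :
    ∃ S : Finset ℝ, (∀ γ ∈ S, γ ∈ F.Γ ∧ 0 < γ) ∧
      ∀ u : Fin r → ℝ, GoodBasis F.Γ (S : Set ℝ) u → f ∈ Oγ F u := by
  classical
  obtain ⟨a, ha, b, hb, h0, h1, rfl⟩ := hf
  obtain ⟨S, hS, h2⟩ := exists_supp (r := r) F ha
  obtain ⟨T, hT, h3⟩ := exists_supp (r := r) F hb
  refine ⟨S ∪ T, fun γ hγ => ?_, fun u hu => ⟨a, h2 u ?_, b, h3 u ?_, h0, h1, rfl⟩⟩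
  · rcases Finset.mem_union.1 hγ with h | h
    · exact hS γ h
    · exact hT γ h
  · exact ⟨hu.mem, hu.pos, hu.ind, hu.gen, fun γ hγ => hu.cone γ
      (Finset.mem_coe.2 (Finset.mem_union_left _ hγ))⟩
  · exact ⟨hu.mem, hu.pos, hu.ind, hu.gen, fun γ hγ => hu.cone γ
      (Finset.mem_coe.2 (Finset.mem_union_right _ hγ))⟩

/-- The parameters are algebraically independent. -/
theorem algInd (h : Ctx2 k v r) (F : RF2 k v) {u : Fin r → ℝ} (hu : ∀ i, u i ∈ F.Γ)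
    (hgen : ∀ γ ∈ F.Γ, ∃ n : Fin r → ℤ, γ = ∑ i, (n i : ℝ) * u i) :
    AlgebraicIndependent k (xyz F u) := by
  have halg : Algebra.IsAlgebraic (Algebra.adjoin k (Set.range (xyz F u))) Ω := by
    refine ⟨fun g => LU1.NFA.isAlgebraic_of_frac (fun f hf => ?_) (F.alg g)⟩
    rw [← LU1.NFA.mem_frac]
    have hle : Algebra.adjoin k (F.χ '' {γ | γ ∈ F.Γ} ∪ {F.y, F.z}) ≤
        (IntermediateField.adjoin k ((Algebra.adjoin k (Set.range (xyz F u)) :
          Subalgebra k Ω) : Set Ω)).toSubalgebra := by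
      have hx : ∀ i, xyz F u i ∈ IntermediateField.adjoin k
          ((Algebra.adjoin k (Set.range (xyz F u)) : Subalgebra k Ω) : Set Ω) := fun i =>
        IntermediateField.subset_adjoin _ _ (Algebra.subset_adjoin ⟨i, rfl⟩)
      refine Algebra.adjoin_le ?_
      rintro f (⟨γ, hγ, rfl⟩ | rfl | rfl)
      · obtain ⟨n, hn⟩ := hgen γ hγ
        have h1 := (χ_sum F Finset.univ u hu n).2
        rw [← hn] at h1
        rw [SetLike.mem_coe, IntermediateField.mem_toSubalgebra, h1]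
        refine prod_mem fun i _ => zpow_mem ?_ _
        have := hx (Fin.castAdd 2 i)
        rwa [xyz_left] at this
      · have := hx (Fin.natAdd r 0)
        rwa [xyz_y] at this
      · have := hx (Fin.natAdd r 1)
        rwa [xyz_z] at this
    exact hle hf
  refine (Algebra.IsAlgebraic.isTranscendenceBasis_of_lift_le_trdeg_of_finite k
    (xyz F u) ?_).1
  rw [h.trdeg]
  simp

/-- Monomials of `F` are monomials in all the `χ(γ_i)`. -/
theorem sm_of_mono (F : RF2 k v) {u : Fin r → ℝ} {S : Set ℝ} (hu : GoodBasis F.Γ S u) {t : Ω}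
    (ht : F.Mono t) (hw : t / F.χ (v t) ∈ Oγ F u) (hS : v t ≠ 0 → |v t| ∈ S) :
    SM v (Oγ F u) (xyz F u) (xJ r) t := by
  obtain ⟨h1, h2, h3⟩ := ht
  -- the exponents
  obtain ⟨n, hn, hpos, hneg, hzero⟩ : ∃ n : Fin r → ℤ, v t = ∑ i, (n i : ℝ) * u i ∧
      (0 < v t → ∀ i, 0 < n i) ∧ (v t < 0 → ∀ i, n i < 0) ∧ (v t = 0 → ∀ i, n i = 0) := by
    rcases lt_trichotomy (v t) 0 with h | h | h
    · obtain ⟨n, hn, e⟩ := hu.cone _ (hS h.ne)
      rw [abs_of_neg h] at e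
      refine ⟨fun i => -(n i : ℤ), ?_, fun h' => absurd h' (not_lt.2 h.le), fun _ i => ?_,
        fun h' => absurd h' h.ne⟩
      · have : v t = -∑ i, (n i : ℝ) * u i := by rw [← e]; ring
        rw [this, ← Finset.sum_neg_distrib]
        refine Finset.sum_congr rfl fun i _ => ?_
        push_cast
        ring
      · have := hn i
        simp only
        omega
    · refine ⟨fun _ => 0, by rw [h]; simp, fun h' => absurd h' (by rw [h]; exact lt_irrefl _),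
        fun h' => absurd h' (by rw [h]; exact lt_irrefl _), fun _ _ => rfl⟩
    · obtain ⟨n, hn, e⟩ := hu.cone _ (hS h.ne')
      rw [abs_of_pos h] at e
      refine ⟨fun i => (n i : ℤ), ?_, fun _ i => ?_, fun h' => absurd h' (not_lt.2 h.le),
        fun h' => absurd h' h.ne'⟩
      · rw [e]; simp
      · have := hn i
        simp only
        omega
  have hχ := (χ_sum F Finset.univ u hu.mem n).2
  rw [← hn] at hχ
  have hmemJ : ∀ i : Fin r, Fin.castAdd 2 i ∈ xJ r := fun i =>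
    Finset.mem_image_of_mem _ (Finset.mem_univ _)
  have hnotJ : ∀ j : Fin 2, Fin.natAdd r j ∉ xJ r := by
    intro j hj
    obtain ⟨i, -, hi⟩ := Finset.mem_image.1 hj
    have h4 := congrArg Fin.val hi
    rw [Fin.val_castAdd, Fin.val_natAdd] at h4
    have h5 := i.2
    omega
  refine ⟨Fin.append n (fun _ => 0), t / F.χ (v t), hw, h3.2.1, h3.2.2, ?_, ?_, ?_, ?_, ?_⟩
  · have hprod : (∏ i, xyz F u i ^ (Fin.append n (fun _ : Fin 2 => (0 : ℤ)) i)) = F.χ (v t) := by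
      rw [Fin.prod_univ_add, hχ]
      have e1 : ∏ i : Fin r, xyz F u (Fin.castAdd 2 i) ^
          (Fin.append n (fun _ : Fin 2 => (0 : ℤ)) (Fin.castAdd 2 i)) =
          ∏ i, F.χ (u i) ^ n i := Finset.prod_congr rfl fun i _ => by
        rw [xyz_left, Fin.append_left]
      have e2 : ∏ i : Fin 2, xyz F u (Fin.natAdd r i) ^
          (Fin.append n (fun _ : Fin 2 => (0 : ℤ)) (Fin.natAdd r i)) = 1 :=
        Finset.prod_eq_one fun i _ => by rw [Fin.append_right, zpow_zero]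
      rw [e1, e2, mul_one]
    rw [hprod, mul_div_cancel₀ _ (F.χ_ne _ h2)]
  · intro i hi
    refine Fin.addCases (fun j hj => ?_) (fun j _ => ?_) i hi
    · exact absurd (hmemJ j) hj
    · rw [Fin.append_right]
  · intro h0 i hi
    obtain ⟨j, -, rfl⟩ := Finset.mem_image.1 hi
    rw [Fin.append_left]
    exact hpos h0 j
  · intro h0 i hi
    obtain ⟨j, -, rfl⟩ := Finset.mem_image.1 hi
    rw [Fin.append_left]
    exact hneg h0 j
  · intro h0 i
    refine Fin.addCases (fun j => ?_) (fun j => ?_) i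
    · rw [Fin.append_left]; exact hzero h0 j
    · rw [Fin.append_right]

end G1A

open G1A in
/-- G1a (Perron): a noetherian frame which contains finitely many given elements of `F.R`, in which
finitely many given monomials of `F` are monomials in all the `χ(γ_i)`. -/
theorem exists_cone (h : Ctx2 k v r) (F : RF2 k v) (T U : Finset Ω)
    (hT : ∀ t ∈ T, F.Mono t) (hU : ∀ f ∈ U, f ∈ F.R) :
    ∃ γ : Fin r → ℝ, (∀ i, γ i ∈ F.Γ ∧ 0 < γ i) ∧ LinearIndependent ℚ γ ∧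
      (∀ δ ∈ F.Γ, ∃ l : Fin r → ℤ, δ = ∑ i, (l i : ℝ) * γ i) ∧
      AlgebraicIndependent k (xyz F γ) ∧ (∀ f ∈ U, f ∈ Oγ F γ) ∧
      ∀ t ∈ T, SM v (Oγ F γ) (xyz F γ) (xJ r) t := by
  classical
  choose S hS hSu using fun f : {f // f ∈ U} => exists_supp_R (r := r) F (hU f.1 f.2)
  choose S' hS' hSu' using fun t : {t // t ∈ T} =>
    exists_supp_R (r := r) F (hT t.1 t.2).2.2.1
  set Z : Finset ℝ := (U.attach.biUnion S) ∪ (T.attach.biUnion S') ∪
    ((T.image fun t => |v t|).filter fun γ => 0 < γ) with hZ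
  have hZ1 : ∀ γ ∈ Z, γ ∈ F.Γ ∧ 0 < γ := by
    intro γ hγ
    rw [hZ, Finset.mem_union, Finset.mem_union] at hγ
    rcases hγ with (hγ | hγ) | hγ
    · obtain ⟨f, -, hf⟩ := Finset.mem_biUnion.1 hγ
      exact hS f γ hf
    · obtain ⟨t, -, ht⟩ := Finset.mem_biUnion.1 hγ
      exact hS' t γ ht
    · obtain ⟨h1, h2⟩ := Finset.mem_filter.1 hγ
      obtain ⟨t, ht, rfl⟩ := Finset.mem_image.1 h1
      refine ⟨?_, h2⟩
      rcases abs_choice (v t) with h3 | h3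
      · rw [h3]; exact (hT t ht).2.1
      · rw [h3]; exact F.Γ.neg_mem (hT t ht).2.1
  obtain ⟨u, hu⟩ := perron h.rpos F.Γ F.fg (rank h F) Z hZ1
  have hsub : ∀ {W : Finset ℝ}, W ⊆ Z → GoodBasis F.Γ (W : Set ℝ) u := fun hW =>
    ⟨hu.mem, hu.pos, hu.ind, hu.gen, fun γ hγ => hu.cone γ (hW hγ)⟩
  refine ⟨u, fun i => ⟨hu.mem i, hu.pos i⟩, hu.ind, hu.gen, algInd h F hu.mem hu.gen,
    fun f hf => ?_, fun t ht => ?_⟩
  · refine hSu ⟨f, hf⟩ u (hsub fun γ hγ => ?_)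
    rw [hZ, Finset.mem_union, Finset.mem_union]
    exact Or.inl (Or.inl (Finset.mem_biUnion.2 ⟨⟨f, hf⟩, Finset.mem_attach _ _, hγ⟩))
  · refine sm_of_mono F hu (hT t ht) (hSu' ⟨t, ht⟩ u (hsub fun γ hγ => ?_)) fun h0 => ?_
    · rw [hZ, Finset.mem_union, Finset.mem_union]
      exact Or.inl (Or.inr (Finset.mem_biUnion.2 ⟨⟨t, ht⟩, Finset.mem_attach _ _, hγ⟩))
    · rw [Finset.mem_coe, hZ, Finset.mem_union]
      exact Or.inr (Finset.mem_filter.2 ⟨Finset.mem_image_of_mem _ ht, abs_pos.2 h0⟩)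

end Pool.Agent.D2
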