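import Pool.Agent.Lib.D2.G1Defs

/-!
# D2, row G1b: denominators

A refinement of a rational frame whose monomials and parameters are fractions of elements of a
given algebra, with denominators which are monomials.
-/

set_option autoImplicit false

namespace Pool.Agent.D2

open Pool.Agent.H15JM (RVal)
open Pool.Agent.LU1 (VPos)
open Pool.Agent.LUC
open Pool.Agent.LU3 (Ctx2 RF2 E2r)

universe u

variable {k Ω : Type u} [Field k] [Field Ω] [Algebra k Ω] {v : RVal Ω} {r : ℕ}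

namespace G1b

section mono

variable {F : RF2 k v} {f g : Ω}

theorem un_one : F.Un 1 := ⟨F.R.one_mem, one_ne_zero, v.map_one⟩

theorem un_mul (hf : F.Un f) (hg : F.Un g) : F.Un (f * g) :=
  ⟨F.R.mul_mem hf.1 hg.1, mul_ne_zero hf.2.1 hg.2.1, by
    rw [v.map_mul hf.2.1 hg.2.1, hf.2.2, hg.2.2, add_zero]⟩

theorem un_inv (hf : F.Un f) : F.Un f⁻¹ :=
  ⟨LU1.locv_inv hf.1 hf.2.1 hf.2.2, inv_ne_zero hf.2.1, by
    rw [v.map_inv hf.2.1, hf.2.2, neg_zero]⟩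

theorem chi_zero (F : RF2 k v) : F.χ 0 = 1 := by
  have h1 := F.χ_add 0 F.Γ.zero_mem 0 F.Γ.zero_mem
  rw [add_zero] at h1
  exact (mul_right_cancel₀ (F.χ_ne 0 F.Γ.zero_mem) (by rw [one_mul]; exact h1)).symm

theorem chi_neg (F : RF2 k v) {γ : ℝ} (hγ : γ ∈ F.Γ) : F.χ (-γ) = (F.χ γ)⁻¹ := by
  have h1 := F.χ_add γ hγ (-γ) (F.Γ.neg_mem hγ)
  rw [add_neg_cancel, chi_zero] at h1
  exact eq_inv_of_mul_eq_one_right h1.symm

theorem mono_iff : F.Mono f ↔ ∃ γ ∈ F.Γ, ∃ u, F.Un u ∧ f = F.χ γ * u := by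
  constructor
  · rintro ⟨h1, h2, h3⟩
    exact ⟨v f, h2, _, h3, by rw [mul_div_cancel₀ _ (F.χ_ne _ h2)]⟩
  · rintro ⟨γ, hγ, u, hu, rfl⟩
    have hne := mul_ne_zero (F.χ_ne γ hγ) hu.2.1
    have hv : v (F.χ γ * u) = γ := by
      rw [v.map_mul (F.χ_ne γ hγ) hu.2.1, F.χ_val γ hγ, hu.2.2, add_zero]
    refine ⟨hne, by rw [hv]; exact hγ, ?_⟩
    rw [hv, mul_div_cancel_left₀ _ (F.χ_ne γ hγ)]
    exact hu

theorem mono_un (hf : F.Un f) : F.Mono f :=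
  mono_iff.2 ⟨0, F.Γ.zero_mem, f, hf, by rw [chi_zero, one_mul]⟩

theorem mono_chi {γ : ℝ} (hγ : γ ∈ F.Γ) : F.Mono (F.χ γ) :=
  mono_iff.2 ⟨γ, hγ, 1, un_one, by rw [mul_one]⟩

theorem mono_mul (hf : F.Mono f) (hg : F.Mono g) : F.Mono (f * g) := by
  obtain ⟨γ, hγ, u, hu, rfl⟩ := mono_iff.1 hf
  obtain ⟨δ, hδ, w, hw, rfl⟩ := mono_iff.1 hg
  exact mono_iff.2 ⟨γ + δ, F.Γ.add_mem hγ hδ, u * w, un_mul hu hw, by
    rw [F.χ_add γ hγ δ hδ, mul_mul_mul_comm]⟩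

/-- A monomial of value `≥ 0` is in the ring. -/
theorem mono_mem (hf : F.Mono f) (h0 : 0 ≤ v f) : f ∈ F.R := by
  obtain ⟨-, h2, h3⟩ := hf
  have h4 : f = F.χ (v f) * (f / F.χ (v f)) := by rw [mul_div_cancel₀ _ (F.χ_ne _ h2)]
  rw [h4]
  refine F.R.mul_mem ?_ h3.1
  exact LU1.le_locv _ (Algebra.subset_adjoin (Or.inl ⟨v f, ⟨h2, h0⟩, rfl⟩))

end mono

/-- Fractions of elements of `B` with a denominator which is a monomial of `F`. -/
def Q (F : RF2 k v) (B : Subring Ω) (f : Ω) : Prop := ∃ a ∈ B, ∃ b ∈ B, F.Mono b ∧ f = a / b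

section Q

variable {F : RF2 k v} {B : Subring Ω} {f g : Ω}

theorem Q.of_mem (hf : f ∈ B) : Q F B f :=
  ⟨f, hf, 1, B.one_mem, mono_un un_one, by rw [div_one]⟩

theorem Q.mul (hf : Q F B f) (hg : Q F B g) : Q F B (f * g) := by
  obtain ⟨a, ha, b, hb, hm, rfl⟩ := hf
  obtain ⟨c, hc, d, hd, hn, rfl⟩ := hg
  exact ⟨a * c, B.mul_mem ha hc, b * d, B.mul_mem hb hd, mono_mul hm hn, by
    rw [div_mul_div_comm]⟩

theorem Q.add (hf : Q F B f) (hg : Q F B g) : Q F B (f + g) := by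
  obtain ⟨a, ha, b, hb, hm, rfl⟩ := hf
  obtain ⟨c, hc, d, hd, hn, rfl⟩ := hg
  exact ⟨a * d + b * c, B.add_mem (B.mul_mem ha hd) (B.mul_mem hb hc), b * d,
    B.mul_mem hb hd, mono_mul hm hn, by rw [div_add_div _ _ hm.1 hn.1]⟩

theorem Q.inv (hf : Q F B f) (hm' : F.Mono f) : Q F B f⁻¹ := by
  obtain ⟨a, ha, b, hb, hm, rfl⟩ := hf
  refine ⟨b, hb, a, ha, ?_, by rw [inv_div]⟩
  have h1 := mono_mul hm' hm
  rwa [div_mul_cancel₀ _ hm.1] at h1

theorem Q.div (hf : Q F B f) (hg : Q F B g) (hm' : F.Mono g) : Q F B (f / g) := by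
  rw [div_eq_mul_inv]
  exact hf.mul (hg.inv hm')

end Q

end G1b

open G1b

/-- G1b (denominators): a refinement whose monomials and parameters are fractions of elements of
the given algebra, with denominators which are monomials. -/
theorem exists_frac (h : Ctx2 k v r) (hE : E2r k Ω v) (F : RF2 k v) (A : Finset Ω)
    (hA : ∀ a ∈ A, v.Ge 0 a)
    (hq : QuoIs (LUC.adj (algebraMap k Ω).range (A : Set Ω)) F.K.toSubfield) (T : Finset Ω)
    (hT : ∀ t ∈ T, t ∈ F.K ∧ t ≠ 0) :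
    ∃ F' : RF2 k v, F'.K = F.K ∧ (∀ t ∈ T, F'.Mono t) ∧ (∀ a ∈ A, a ∈ F'.R) ∧
      ∀ f : Ω, (f = F'.y ∨ f = F'.z ∨ ∃ γ ∈ F'.Γ, f = F'.χ γ) →
        ∃ a ∈ LUC.adj (algebraMap k Ω).range (A : Set Ω),
        ∃ b ∈ LUC.adj (algebraMap k Ω).range (A : Set Ω), F'.Mono b ∧ f = a / b := by
  classical
  set B := LUC.adj (algebraMap k Ω).range (A : Set Ω) with hB
  obtain ⟨S, hS⟩ := F.fg
  have hSΓ : ∀ γ ∈ S, γ ∈ F.Γ := fun γ hγ => by
    rw [← hS]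
    exact AddSubgroup.subset_closure hγ
  -- numerators and denominators
  have hfrac : ∀ f : Ω, ∃ b : Ω, f ∈ F.K → b ∈ B ∧ b ≠ 0 ∧ ∃ a ∈ B, f = a / b := by
    intro f
    by_cases hf : f ∈ F.K
    · obtain ⟨a, ha, b, hb, hb0, hfab⟩ := hq.2 f hf
      exact ⟨b, fun _ => ⟨hb, hb0, a, ha, hfab⟩⟩
    · exact ⟨0, fun h => absurd h hf⟩
  choose den hden using hfrac
  have hχK : ∀ γ ∈ F.Γ, F.χ γ ∈ F.K := fun γ hγ =>
    IntermediateField.subset_adjoin k _ (Or.inl ⟨γ, hγ, rfl⟩)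
  have hyK : F.y ∈ F.K := IntermediateField.subset_adjoin k _ (Or.inr (Or.inl rfl))
  have hzK : F.z ∈ F.K := IntermediateField.subset_adjoin k _ (Or.inr (Or.inr rfl))
  have hBK : ∀ b ∈ B, b ∈ F.K := fun b hb => hq.1 b hb
  set T₁ : Finset Ω := T ∪ A.filter (fun a => a ≠ 0) ∪ S.image (fun γ => den (F.χ γ)) ∪
    {den F.y, den F.z} with hT₁
  obtain ⟨F', hle, hK, hmono⟩ := hE F T₁ (by
    intro t ht
    simp only [hT₁, Finset.mem_union, Finset.mem_filter, Finset.mem_image, Finset.mem_insert,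
      Finset.mem_singleton] at ht
    rcases ht with ((ht | ht) | ⟨γ, hγ, rfl⟩) | (rfl | rfl)
    · exact hT t ht
    · exact ⟨hBK t (LUC.mem_adj ht.1), ht.2⟩
    · have h1 := hden _ (hχK γ (hSΓ γ hγ))
      exact ⟨hBK _ h1.1, h1.2.1⟩
    · have h1 := hden _ hyK
      exact ⟨hBK _ h1.1, h1.2.1⟩
    · have h1 := hden _ hzK
      exact ⟨hBK _ h1.1, h1.2.1⟩)
  have hQK : ∀ f ∈ F.K, den f ∈ T₁ → Q F' B f := by
    intro f hf hd
    obtain ⟨h1, -, a, ha, h2⟩ := hden f hf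
    exact ⟨a, ha, den f, h1, hmono _ hd, h2⟩
  have hmχ : ∀ γ ∈ F.Γ, F'.Mono (F.χ γ) := by
    intro γ hγ
    have h1 := mono_mul (mono_un (hle.χ_un γ hγ)) (mono_chi (hle.Γ_le γ hγ))
    rwa [div_mul_cancel₀ _ (F'.χ_ne γ (hle.Γ_le γ hγ))] at h1
  -- the monomials of `F`
  have hQχ : ∀ γ ∈ F.Γ, Q F' B (F.χ γ) := by
    intro γ hγ
    rw [← hS] at hγ
    have hcl : ∀ δ ∈ AddSubgroup.closure (S : Set ℝ), δ ∈ F.Γ := fun δ hδ => by rwa [hS] at hδ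
    refine AddSubgroup.closure_induction (p := fun δ _ => Q F' B (F.χ δ)) ?_ ?_ ?_ ?_ hγ
    · intro δ hδ
      refine hQK _ (hχK δ (hSΓ δ hδ)) ?_
      simp only [hT₁, Finset.mem_union, Finset.mem_image]
      exact Or.inl (Or.inr ⟨δ, hδ, rfl⟩)
    · rw [chi_zero]
      exact Q.of_mem B.one_mem
    · intro δ ε hδ hε h1 h2
      rw [F.χ_add δ (hcl δ hδ) ε (hcl ε hε)]
      exact h1.mul h2
    · intro δ hδ h1
      rw [chi_neg F (hcl δ hδ)]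
      exact h1.inv (hmχ δ (hcl δ hδ))
  have hQy : Q F' B F.y := hQK _ hyK (by simp [hT₁])
  have hQz : Q F' B F.z := hQK _ hzK (by simp [hT₁])
  -- the elements of `F.P` and of `F.R`
  have hQP : ∀ f ∈ F.P, Q F' B f := by
    intro f hf
    induction hf using Algebra.adjoin_induction with
    | mem x hx =>
      rcases hx with ⟨γ, hγ, rfl⟩ | (rfl | rfl)
      · exact hQχ γ hγ.1
      · exact hQy
      · exact hQz
    | algebraMap c => exact Q.of_mem (LUC.base_le_adj _ _ ⟨c, rfl⟩)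
    | add x y _ _ hx hy => exact hx.add hy
    | mul x y _ _ hx hy => exact hx.mul hy
  have hQR : ∀ f ∈ F.R, Q F' B f := by
    rintro f ⟨a, ha, b, hb, hb0, hvb, rfl⟩
    refine (hQP a ha).div (hQP b hb) (mono_un ⟨hle.le (LU1.le_locv _ hb), hb0, hvb⟩)
  have hQR' : ∀ f ∈ F'.R, Q F' B f := by
    intro f hf
    obtain ⟨a, ha, b, hb, hm, rfl⟩ := hle.den f hf
    exact (hQR a ha).div (hQR b hb) hm
  refine ⟨F', hK, fun t ht => hmono t (by simp [hT₁, ht]), ?_, ?_⟩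
  · intro a ha
    by_cases h0 : a = 0
    · rw [h0]
      exact F'.R.zero_mem
    · refine mono_mem (hmono a ?_) (hA a ha h0)
      simp only [hT₁, Finset.mem_union, Finset.mem_filter]
      exact Or.inl (Or.inl (Or.inr ⟨ha, h0⟩))
  · rintro f (rfl | rfl | ⟨γ, hγ, rfl⟩)
    · exact hQR' _ (LU1.le_locv _ (Algebra.subset_adjoin (Or.inr (Or.inl rfl))))
    · exact hQR' _ (LU1.le_locv _ (Algebra.subset_adjoin (Or.inr (Or.inr rfl))))
    · rcases le_total 0 γ with h0 | h0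
      · exact hQR' _ (LU1.le_locv _ (Algebra.subset_adjoin (Or.inl ⟨γ, ⟨hγ, h0⟩, rfl⟩)))
      · have h1 : -γ ∈ F'.Γ := F'.Γ.neg_mem hγ
        have h2 : Q F' B (F'.χ (-γ)) :=
          hQR' _ (LU1.le_locv _ (Algebra.subset_adjoin (Or.inl ⟨-γ, ⟨h1, by linarith⟩, rfl⟩)))
        have h3 := h2.inv (mono_chi h1)
        rw [← chi_neg F' h1, neg_neg] at h3
        exact h3

end Pool.Agent.D2
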