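import Pool.Agent.Lib.D2.G1a
import Pool.Agent.Lib.D2.G1b
import Pool.Agent.Lib.D2.DIM

/-! # D2, G1c: the embedded statement gives log uniformization of rational adapted fields -/

set_option autoImplicit false

namespace Pool.Agent.D2

open Pool.Agent.H15JM (RVal)
open Pool.Agent.LU1 (VPos)
open Pool.Agent.LUC
open Pool.Agent.LU3 (Ctx2 RF2 E2r)

universe u

variable {k Ω : Type u} [Field k] [Field Ω] [Algebra k Ω] {v : RVal Ω} {r : ℕ}

namespace G1C

/-- A product of monomials of nonnegative value is a monomial. -/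
theorem SM.mul {O : Subring Ω} {n : ℕ} {z : Fin n → Ω} {J : Finset (Fin n)}
    (hz : ∀ i, z i ≠ 0) {s t : Ω} (hs0 : s ≠ 0) (ht0 : t ≠ 0) (hs1 : 0 ≤ v s) (ht1 : 0 ≤ v t)
    (hs : SM v O z J s) (ht : SM v O z J t) : SM v O z J (s * t) := by
  obtain ⟨e, u, hu, hu0, hvu, hse, ho, hp, -, h0⟩ := hs
  obtain ⟨e', u', hu', hu0', hvu', hte, ho', hp', -, h0'⟩ := ht
  have hv : v (s * t) = v s + v t := v.map_mul hs0 ht0
  refine ⟨fun i => e i + e' i, u * u', O.mul_mem hu hu', mul_ne_zero hu0 hu0', ?_, ?_,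
    fun i hi => by simp only [ho i hi, ho' i hi, add_zero], fun h i hi => ?_, fun h => ?_,
    fun h i => ?_⟩
  · rw [v.map_mul hu0 hu0', hvu, hvu', add_zero]
  · rw [hse, hte]
    have h1 : ∏ i, z i ^ (e i + e' i) = (∏ i, z i ^ e i) * ∏ i, z i ^ e' i := by
      rw [← Finset.prod_mul_distrib]
      exact Finset.prod_congr rfl fun i _ => zpow_add₀ (hz i) _ _
    rw [h1]; ring
  · rw [hv] at h
    simp only
    rcases hs1.lt_or_eq with h1 | h1
    · rcases ht1.lt_or_eq with h2 | h2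
      · have := hp h1 i hi
        have := hp' h2 i hi
        omega
      · have := hp h1 i hi
        rw [h0' h2.symm i]
        omega
    · have h2 : 0 < v t := by linarith
      have := hp' h2 i hi
      rw [h0 h1.symm i]
      omega
  · rw [hv] at h; exfalso; linarith
  · rw [hv] at h
    have h1 : v s = 0 := by linarith
    have h2 : v t = 0 := by linarith
    simp only [h0 h1 i, h0' h2 i, add_zero]

theorem SM.one {O : Subring Ω} {n : ℕ} {z : Fin n → Ω} {J : Finset (Fin n)} :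
    SM v O z J (1 : Ω) := by
  refine ⟨fun _ => 0, 1, O.one_mem, one_ne_zero, v.map_one, by simp, fun _ _ => rfl,
    fun h => ?_, fun h => ?_, fun _ _ => rfl⟩
  · rw [v.map_one] at h; exact absurd h (lt_irrefl _)
  · rw [v.map_one] at h; exact absurd h (lt_irrefl _)

end G1C

open G1A G1C in
/-- G1: the embedded statement gives log uniformization of rational adapted fields. -/
theorem lus_rat [IsAlgClosed k] (h : Ctx2 k v r) (hE : E2r k Ω v) (F : RF2 k v) :
    LUs v (algebraMap k Ω).range F.K.toSubfield := by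
  classical
  intro A hA hq T hT
  have h0 : Ctx0 k v := ⟨h.triv, h.res⟩
  set B : Subring Ω := LUC.adj (algebraMap k Ω).range (A : Set Ω) with hB
  have hBge : ∀ b ∈ B, v.Ge 0 b := by
    refine adj_nonneg ?_ hA
    rintro f ⟨c, rfl⟩
    exact h0.ge c
  obtain ⟨F', hK, hTm, hAR, hfr⟩ := exists_frac h hE F A hA hq T hT
  -- a first basis and its denominators
  obtain ⟨γ₀, hγ₀, hγ₀ind, hγ₀gen, -, -, -⟩ := exists_cone h F' ∅ ∅ (by simp) (by simp)
  choose a ha b hb hbm hab using fun j : Fin r =>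
    hfr (F'.χ (γ₀ j)) (Or.inr (Or.inr ⟨γ₀ j, (hγ₀ j).1, rfl⟩))
  obtain ⟨ay, hay, by', hby, hbym, haby⟩ := hfr F'.y (Or.inl rfl)
  obtain ⟨az, haz, bz, hbz, hbzm, habz⟩ := hfr F'.z (Or.inr (Or.inl rfl))
  have ham : ∀ j, F'.Mono (a j) := by
    intro j
    have h1 := LU3.Asm.Mono.mul (LU3.Asm.Mono.χ (hγ₀ j).1) (hbm j)
    rwa [hab j, div_mul_cancel₀ _ (hbm j).1] at h1
  -- the final basis
  set T2 : Finset Ω := T ∪ (Finset.univ.image a ∪ Finset.univ.image b) ∪ {by', bz} with hT2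
  have hT2m : ∀ t ∈ T2, F'.Mono t := by
    intro t ht
    simp only [hT2, Finset.mem_union, Finset.mem_image, Finset.mem_univ, true_and,
      Finset.mem_insert, Finset.mem_singleton] at ht
    rcases ht with (ht | ⟨j, rfl⟩ | ⟨j, rfl⟩) | rfl | rfl
    · exact hTm t ht
    · exact ham j
    · exact hbm j
    · exact hbym
    · exact hbzm
  obtain ⟨γ, hγ, hind, hgen, halg, hAO, hSM⟩ := exists_cone h F' T2 A hT2m hAR
  set z : Fin (r + 2) → Ω := xyz F' γ with hz
  have hzi : ∀ i, z i ≠ 0 ∧ 0 < v (z i) := by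
    intro i
    refine Fin.addCases (fun j => ?_) (fun j => ?_) i
    · rw [hz, xyz_left, F'.χ_val _ (hγ j).1]
      exact ⟨F'.χ_ne _ (hγ j).1, (hγ j).2⟩
    · fin_cases j
      · change xyz F' γ (Fin.natAdd r 0) ≠ 0 ∧ 0 < v (xyz F' γ (Fin.natAdd r 0))
        rw [xyz_y]; exact ⟨F'.y_ne, F'.y_pos⟩
      · change xyz F' γ (Fin.natAdd r 1) ≠ 0 ∧ 0 < v (xyz F' γ (Fin.natAdd r 1))
        rw [xyz_z]; exact ⟨F'.z_ne, F'.z_pos⟩
  have hpar : Par v (Oγ F' γ) z := par_lv h0 z (fun i _ => (hzi i).2) fun i => (hzi i).1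
  have hdim : ringKrullDim (Oγ F' γ) = ((r + 2 : ℕ) : WithBot ℕ∞) :=
    dim_lv h0 z (fun i _ => (hzi i).2) halg
  -- good denominators
  let Q : Ω → Prop := fun g => g ∈ B ∧ g ≠ 0 ∧ SM v (Oγ F' γ) z (xJ r) g
  have hQ1 : Q 1 := ⟨B.one_mem, one_ne_zero, SM.one⟩
  have hQmul : ∀ s t, Q s → Q t → Q (s * t) := fun s t hs ht =>
    ⟨B.mul_mem hs.1 ht.1, mul_ne_zero hs.2.1 ht.2.1,
      SM.mul (fun i => (hzi i).1) hs.2.1 ht.2.1 (hBge s hs.1 hs.2.1) (hBge t ht.1 ht.2.1)
        hs.2.2 ht.2.2⟩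
  have hQpow : ∀ s, Q s → ∀ n : ℕ, Q (s ^ n) := by
    intro s hs n
    induction n with
    | zero => rw [pow_zero]; exact hQ1
    | succ n ih => rw [pow_succ]; exact hQmul _ _ ih hs
  have hmem2 : ∀ t, t ∈ T2 → t ∈ B → Q t := fun t ht htB => ⟨htB, (hT2m t ht).1, hSM t ht⟩
  have hQa : ∀ j, Q (a j) := fun j => hmem2 _ (by
    rw [hT2]
    exact Finset.mem_union_left _ (Finset.mem_union_right _ (Finset.mem_union_left _
      (Finset.mem_image_of_mem _ (Finset.mem_univ _))))) (ha j)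
  have hQb : ∀ j, Q (b j) := fun j => hmem2 _ (by
    rw [hT2]
    exact Finset.mem_union_left _ (Finset.mem_union_right _ (Finset.mem_union_right _
      (Finset.mem_image_of_mem _ (Finset.mem_univ _))))) (hb j)
  have hQy : Q by' := hmem2 _ (by
    rw [hT2]
    exact Finset.mem_union_right _ (Finset.mem_insert_self _ _)) hby
  have hQz : Q bz := hmem2 _ (by
    rw [hT2]
    exact Finset.mem_union_right _ (Finset.mem_insert_of_mem (Finset.mem_singleton_self _))) hbz
  -- fractions with good denominators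
  let D : Ω → Prop := fun f => ∃ a ∈ B, ∃ g, Q g ∧ f = a / g
  have hD1 : D 1 := ⟨1, B.one_mem, 1, hQ1, by rw [div_one]⟩
  have hDmul : ∀ s t, D s → D t → D (s * t) := by
    rintro s t ⟨a, ha, g, hg, rfl⟩ ⟨a', ha', g', hg', rfl⟩
    exact ⟨a * a', B.mul_mem ha ha', g * g', hQmul _ _ hg hg', by rw [div_mul_div_comm]⟩
  have hDχ : ∀ (j : Fin r) (n : ℤ), D (F'.χ (γ₀ j) ^ n) := by
    intro j n
    rw [hab j]
    cases n with
    | ofNat n =>
      refine ⟨a j ^ n, B.pow_mem (ha j) n, b j ^ n, hQpow _ (hQb j) n, ?_⟩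
      rw [Int.ofNat_eq_natCast, zpow_natCast, div_pow]
    | negSucc n =>
      refine ⟨b j ^ (n + 1), B.pow_mem (hb j) _, a j ^ (n + 1), hQpow _ (hQa j) _, ?_⟩
      rw [zpow_negSucc, div_pow, inv_div]
  have hDprod : ∀ (s : Finset (Fin r)) (n : Fin r → ℤ),
      D (∏ j ∈ s, F'.χ (γ₀ j) ^ n j) := by
    intro s n
    induction s using Finset.induction_on with
    | empty => rw [Finset.prod_empty]; exact hD1
    | insert j s hj ih => rw [Finset.prod_insert hj]; exact hDmul _ _ (hDχ j _) ih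
  have hDz : ∀ i, D (z i) := by
    intro i
    refine Fin.addCases (fun j => ?_) (fun j => ?_) i
    · rw [hz, xyz_left]
      obtain ⟨n, hn⟩ := hγ₀gen _ (hγ j).1
      have h1 := (χ_sum F' Finset.univ γ₀ (fun i => (hγ₀ i).1) n).2
      rw [hn, h1]
      exact hDprod _ _
    · fin_cases j
      · change D (xyz F' γ (Fin.natAdd r 0))
        rw [xyz_y]; exact ⟨ay, hay, by', hQy, haby⟩
      · change D (xyz F' γ (Fin.natAdd r 1))
        rw [xyz_z]; exact ⟨az, haz, bz, hQz, habz⟩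
  choose c hc g hg hcg using hDz
  have hQprod : ∀ s : Finset (Fin (r + 2)), Q (∏ i ∈ s, g i) := by
    intro s
    induction s using Finset.induction_on with
    | empty => rw [Finset.prod_empty]; exact hQ1
    | insert j s hj ih => rw [Finset.prod_insert hj]; exact hQmul _ _ (hg j) ih
  set g₀ : Ω := ∏ i, g i with hg₀
  have hQg : Q g₀ := hQprod _
  have hgz : ∀ i, g₀ * z i ∈ B := by
    intro i
    have h1 : g₀ * z i = (∏ j ∈ Finset.univ.erase i, g j) * c i := by
      rw [hg₀, ← Finset.mul_prod_erase _ _ (Finset.mem_univ i), hcg i]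
      have := (hg i).2.1
      field_simp
    rw [h1]
    exact B.mul_mem (hQprod _).1 (hc i)
  refine ⟨r + 2, z, xJ r, Oγ F' γ, ⟨hpar, ⟨g₀, hQg.1, hQg.2.1, hQg.2.2,
    Finset.univ.image fun i => g₀ * z i, ?_, ?_⟩, fun t ht => ?_⟩, hdim⟩
  · intro x hx
    obtain ⟨i, -, rfl⟩ := Finset.mem_image.1 hx
    refine ⟨hgz i, fun _ => ?_⟩
    rw [v.map_mul hQg.2.1 (hzi i).1]
    have := (hzi i).2
    linarith
  · have hset : (fun x => x / g₀) '' ((Finset.univ.image fun i => g₀ * z i : Finset Ω) : Set Ω) =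
        Set.range z := by
      ext f
      constructor
      · rintro ⟨x, hx, rfl⟩
        obtain ⟨i, -, rfl⟩ := Finset.mem_image.1 (Finset.mem_coe.1 hx)
        exact ⟨i, (mul_div_cancel_left₀ (z i) hQg.2.1).symm⟩
      · rintro ⟨i, rfl⟩
        exact ⟨g₀ * z i, Finset.mem_coe.2 (Finset.mem_image_of_mem _ (Finset.mem_univ i)), by
          simp only
          rw [mul_div_cancel_left₀ _ hQg.2.1]⟩
    rw [hset]
    refine (lv_eq_of_le (adj_mono le_rfl Set.subset_union_right) (adj_le ?_ ?_)).symm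
    · exact (base_le_adj _ _).trans (le_lv v _)
    · rintro f (hf | hf)
      · exact hAO f hf
      · exact le_lv v _ (mem_adj hf)
  · exact hSM t (by
      rw [hT2]
      exact Finset.mem_union_left _ (Finset.mem_union_left _ ht))

end Pool.Agent.D2
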