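import Pool.Agent.Lib.D2.G3a
import Pool.Agent.Lib.D2.TM3

/-! # D2, G3: log uniformization and finite separable extensions in the closure -/

set_option autoImplicit false

namespace Pool.Agent.D2

open Pool.Agent.H15JM (RVal)
open Pool.Agent.LUC

universe u

variable {k Ω : Type u} [Field k] [Field Ω] [Algebra k Ω] {v : RVal Ω}

/-- G3: log uniformization does not change in a finite separable extension in the closure. -/
theorem lus_of_cl [IsAlgClosed Ω] (K K₁ : IntermediateField k Ω) (hk : ∀ c : k, v.Ge 0 (algebraMap k Ω c))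
    (hpos : ∃ a ∈ K, a ≠ 0 ∧ 0 < v a)
    (hK : K.FG) (hK₁ : K₁.FG) (hΩ : ∀ g : Ω, IsAlgebraic K g)
    (hcl : ∀ a ∈ K, a ∈ Cl v K₁.toSubfield) (hcl₁ : ∀ a ∈ K₁, a ∈ Cl v K.toSubfield)
    (hsep : ∀ a ∈ K, IsSeparable K₁ a) (hsep₁ : ∀ a ∈ K₁, IsSeparable K a)
    (hL : LUs v (algebraMap k Ω).range K₁.toSubfield) :
    LUs v (algebraMap k Ω).range K.toSubfield :=
  lus_of_cl_aux K K₁ hk hpos hK hK₁ hcl hcl₁ hsep hsep₁
    (fun S hS hM hcl => exists_etData_cl K.toSubfield (K ⊔ K₁).toSubfield hΩ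
      (le_sup_left : K ≤ K ⊔ K₁) S hS hM hcl) hL

end Pool.Agent.D2
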