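import Pool.Agent.Lib.D2.Ctx0
import Pool.Agent.Lib.LUC.H1
import Pool.Agent.Lib.LUC.F2
import Pool.Agent.Lib.LUC.G5
import Pool.Agent.Lib.LUC.H0
import Pool.Agent.Lib.LUC.E6
import Pool.Agent.Lib.LUC.Asc10

/-! # D2, G3: log uniformization and finite separable extensions in the closure (without TM3) -/

set_option autoImplicit false

namespace Pool.Agent.D2

open Pool.Agent.H15JM (RVal)
open Pool.Agent.LU1 (VPos)
open Pool.Agent.LU2 (vring rcomap rel_vring)
open Pool.Agent.LUC
open Polynomial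

universe u

section

variable {Ω : Type u} [Field Ω] {v : RVal Ω}

/-- From the dimension to the truncations. -/
theorem lut_of_lus (S : Subring Ω) [IsNoetherianRing S] (hS : ∀ s ∈ S, v.Ge 0 s)
    (L : Subfield Ω) (h : LUs v S L) : LUT v S L := by
  classical
  intro A hA hq T hT
  obtain ⟨n, z, J, O, hmod, hd⟩ := h A hA hq T hT
  refine ⟨n, z, J, O, hmod, ?_⟩
  obtain ⟨g, hg, hg0, -, G, hG, hO⟩ := hmod.chart
  have hset : ((A : Set Ω) ∪ (fun x => x / g) '' (G : Set Ω)) =
      ((A ∪ G.image fun x => x / g : Finset Ω) : Set Ω) := by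
    rw [Finset.coe_union, Finset.coe_image]
  obtain ⟨B, hB⟩ : ∃ B : Subring Ω, B = adj S ((A : Set Ω) ∪ (fun x => x / g) '' (G : Set Ω)) :=
    ⟨_, rfl⟩
  have hBn : IsNoetherianRing B := by
    rw [hB, hset]
    exact adj_isNoetherian S _
  have hB0 : ∀ f ∈ B, v.Ge 0 f := by
    rw [hB]
    refine adj_nonneg hS ?_
    rintro f (hf | ⟨x, hx, rfl⟩)
    · exact hA f hf
    · intro hxg
      have hx0 : x ≠ 0 := by
        rintro rfl
        simp at hxg
      rw [v.map_div hx0 hg0]
      have := (hG x hx).2 hx0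
      linarith
  rw [← hB] at hO
  subst hO
  have hnoe : IsNoetherianRing (lv v B) := lv_isNoetherian B
  have hloc : IsLocalRing (lv v B) := lv_isLocalRing hB0
  exact ⟨lv v B, inferInstance, hnoe, hloc, hd, fun M =>
    ⟨Ideal.Quotient.mk _, Ideal.Quotient.mk_surjective⟩⟩

end

section

variable {k Ω : Type u} [Field k] [Field Ω] [Algebra k Ω] {v : RVal Ω}

/-- The valuation ring of `v` on an intermediate field. -/
theorem mem_vring_iff (E : IntermediateField k Ω) (f : E) :
    f ∈ vring (rcomap v (algebraMap E Ω)) ↔ v.Ge 0 (algebraMap E Ω f) := by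
  rw [(rel_vring (rcomap v (algebraMap E Ω))).mem_iff]
  constructor
  · intro h1 h2
    exact h1 (by
      rintro rfl
      exact h2 (map_zero _))
  · intro h1 h2
    exact h1 ((_root_.map_ne_zero _).2 h2)

theorem fieldRange_eq (E : IntermediateField k Ω) :
    (algebraMap E Ω).fieldRange = E.toSubfield := by
  ext f
  constructor
  · rintro ⟨y, rfl⟩
    exact y.2
  · intro hf
    exact ⟨⟨f, hf⟩, rfl⟩

theorem fgField_of_fg (E : IntermediateField k Ω) (hE : E.FG) : FGField k E := by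
  classical
  obtain ⟨S, hS⟩ := hE
  have hSE : ∀ s ∈ S, s ∈ E := by
    intro s hs
    rw [← hS]
    exact IntermediateField.subset_adjoin _ _ hs
  refine ⟨S.attach.image fun s => ⟨s.1, hSE s.1 s.2⟩, ?_⟩
  have hmap : ∀ f ∈ Algebra.adjoin k (S : Set Ω), ∃ a ∈ Algebra.adjoin k
      ((S.attach.image fun s => (⟨s.1, hSE s.1 s.2⟩ : E) : Finset E) : Set E), (a : Ω) = f := by
    intro f hf
    induction hf using Algebra.adjoin_induction with
    | mem x hx =>
      refine ⟨⟨x, hSE x hx⟩, Algebra.subset_adjoin ?_, rfl⟩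
      rw [Finset.mem_coe, Finset.mem_image]
      exact ⟨⟨x, hx⟩, Finset.mem_attach _ _, rfl⟩
    | algebraMap c => exact ⟨algebraMap k E c, Subalgebra.algebraMap_mem _ c, rfl⟩
    | add x y _ _ hx hy =>
      obtain ⟨a, ha, rfl⟩ := hx
      obtain ⟨b, hb, rfl⟩ := hy
      exact ⟨a + b, add_mem ha hb, rfl⟩
    | mul x y _ _ hx hy =>
      obtain ⟨a, ha, rfl⟩ := hx
      obtain ⟨b, hb, rfl⟩ := hy
      exact ⟨a * b, mul_mem ha hb, rfl⟩
  intro f
  have hf : (f : Ω) ∈ IntermediateField.adjoin k (S : Set Ω) := by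
    rw [hS]
    exact f.2
  obtain ⟨r, hr, s, hs, hrs⟩ := (IntermediateField.mem_adjoin_iff_div (F := k)).1 hf
  obtain ⟨a, ha, rfl⟩ := hmap r hr
  obtain ⟨b, hb, rfl⟩ := hmap s hs
  by_cases hb0 : b = 0
  · refine ⟨0, Subalgebra.zero_mem _, 1, Subalgebra.one_mem _, one_ne_zero, ?_⟩
    apply Subtype.ext
    rw [hrs, hb0]
    simp
  · exact ⟨a, ha, b, hb, hb0, Subtype.ext hrs⟩

/-- Ascent to a finite separable extension in the closure. -/
theorem lus_up (K M : IntermediateField k Ω) (hk : ∀ c : k, v.Ge 0 (algebraMap k Ω c))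
    (hKM : K ≤ M) (hK : K.FG) (hM : M.FG) (hcl : ∀ a ∈ M, a ∈ Cl v K.toSubfield)
    (hsep : ∀ a ∈ M, IsSeparable K a) (hL : LUs v (algebraMap k Ω).range K.toSubfield) :
    LUs v (algebraMap k Ω).range M.toSubfield := by
  let iKM : Algebra K M := (IntermediateField.inclusion hKM).toRingHom.toAlgebra
  have i1 : IsScalarTower k K M := IsScalarTower.of_algebraMap_eq fun c => rfl
  have i2 : IsScalarTower K M Ω := IsScalarTower.of_algebraMap_eq fun c => rfl
  have hVM : ∀ f : M, f ∈ vring (rcomap v (algebraMap M Ω)) ↔ v.Ge 0 (algebraMap M Ω f) :=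
    mem_vring_iff M
  set V : ValuationSubring M := vring (rcomap v (algebraMap M Ω)) with hV
  have hkM : ∀ c : k, algebraMap k M c ∈ V := fun c => (hVM _).2 (hk c)
  have hVK : ∀ f : K, f ∈ V.comap (algebraMap K M) ↔ v.Ge 0 (algebraMap K Ω f) := by
    intro f
    rw [ValuationSubring.mem_comap, hVM]
    rfl
  have h1 : LUrV k (V.comap (algebraMap K M)) := by
    refine LUs.lurV hVK (fun c => (hVK _).2 (hk c)) ?_
    rw [fieldRange_eq]
    exact hL
  have hd : DenseIn V (algebraMap K M) := by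
    intro a b hb
    obtain ⟨c, hc, hac⟩ := hcl a a.2 (v (b : Ω) + 1)
    refine ⟨⟨c, hc⟩, ?_⟩
    have hb0 : (b : Ω) ≠ 0 := fun h => hb (Subtype.ext h)
    have h2 : V.valuation ((a - algebraMap K M ⟨c, hc⟩) / b) < 1 := by
      rw [F2.lt_one_iff hVM]
      intro h3
      have h4 : algebraMap M Ω ((a - algebraMap K M ⟨c, hc⟩) / b) = ((a : Ω) - c) / b := rfl
      rw [h4] at h3 ⊢
      have h5 : (a : Ω) - c ≠ 0 := by
        intro h6
        rw [h6, zero_div] at h3
        exact h3 rfl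
      rw [v.map_div h5 hb0]
      have := hac h5
      linarith
    rwa [map_div₀, div_lt_one₀ ((Valuation.pos_iff _).2 hb)] at h2
  have hs : Algebra.IsSeparable K M := by
    refine ⟨fun a => ?_⟩
    have h2 := hsep a a.2
    unfold IsSeparable at h2 ⊢
    have h3 : minpoly K (algebraMap M Ω a) = minpoly K a :=
      minpoly.algebraMap_eq (algebraMap M Ω).injective a
    rw [← h3]
    exact h2
  have hs' : Algebra.IsSeparable (IntermediateField.adjoin K ((∅ : Finset M) : Set M)) M :=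
    Algebra.isSeparable_tower_top_of_isSeparable K _ M
  have h2 : LUrV k V := ascent (Q := fun _ _ _ V => LUrV k V) (ascends_lur k) V hd
    (fgField_of_fg K hK) (fgField_of_fg M hM) ∅ (by
      have : IsEmpty ((∅ : Finset M) : Type u) := ⟨fun x => absurd x.2 (Finset.notMem_empty _)⟩
      rw [algebraicIndependent_empty_type_iff]
      exact (algebraMap K M).injective) hs' h1
  have h3 := LUrV.lus (w := v) hVM hkM h2
  rwa [fieldRange_eq] at h3

/-- Descent along an etale datum. -/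
theorem lus_down (K : IntermediateField k Ω) (hk : ∀ c : k, v.Ge 0 (algebraMap k Ω c))
    (hpos : ∃ a ∈ K, a ≠ 0 ∧ 0 < v a) (θ : Ω) (h : EtData v K.toSubfield θ) (M : Subfield Ω)
    (hM : Subfield.closure ((K.toSubfield : Set Ω) ∪ {θ}) = M)
    (hL : LUs v (algebraMap k Ω).range M) :
    LUs v (algebraMap k Ω).range K.toSubfield := by
  have hn : IsNoetherianRing (algebraMap k Ω).range :=
    isNoetherianRing_of_surjective k _ (algebraMap k Ω).rangeRestrict
      (algebraMap k Ω).rangeRestrict_surjective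
  have hS : ∀ s ∈ (algebraMap k Ω).range, v.Ge 0 s := by
    rintro _ ⟨c, rfl⟩
    exact hk c
  subst hM
  exact LUT.lus _ hS _ (LUT.desc _ hS _ θ h hpos (lut_of_lus _ hS _ hL))

/-- The field generated by `K` and `K₁`. -/
theorem sup_toSubfield (K K₁ : IntermediateField k Ω) (S : Finset Ω)
    (hS : IntermediateField.adjoin k (S : Set Ω) = K₁) :
    (K ⊔ K₁).toSubfield = Subfield.closure ((K.toSubfield : Set Ω) ∪ S) := by
  apply le_antisymm
  · let E : IntermediateField k Ω :=
      (Subfield.closure ((K.toSubfield : Set Ω) ∪ S)).toIntermediateField fun c =>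
        Subfield.subset_closure (Or.inl (K.algebraMap_mem c))
    have h1 : K ⊔ K₁ ≤ E := by
      refine sup_le ?_ ?_
      · exact fun a ha => Subfield.subset_closure (Or.inl ha)
      · rw [← hS, IntermediateField.adjoin_le_iff]
        exact fun a ha => Subfield.subset_closure (Or.inr ha)
    exact fun a ha => h1 ha
  · rw [Subfield.closure_le]
    rintro a (ha | ha)
    · exact (le_sup_left : K ≤ K ⊔ K₁) ha
    · refine (le_sup_right : K₁ ≤ K ⊔ K₁) ?_
      rw [← hS]
      exact IntermediateField.subset_adjoin _ _ ha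

theorem cl_sup (K K₁ : IntermediateField k Ω) (hcl : ∀ a ∈ K₁, a ∈ Cl v K.toSubfield) :
    ∀ a ∈ K ⊔ K₁, a ∈ Cl v K.toSubfield := by
  let E : IntermediateField k Ω :=
    (clF v K.toSubfield).toIntermediateField fun c => Cl.subset (K.algebraMap_mem c)
  have h1 : K ⊔ K₁ ≤ E := sup_le (fun a ha => Cl.subset ha) fun a ha => hcl a ha
  exact fun a ha => h1 ha

theorem sep_sup (K K₁ : IntermediateField k Ω) (hsep : ∀ a ∈ K₁, IsSeparable K a) :
    ∀ a ∈ K ⊔ K₁, IsSeparable K a := by
  have h1 : K ⊔ K₁ ≤ (separableClosure K Ω).restrictScalars k := by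
    refine sup_le (fun a ha => ?_) fun a ha => ?_
    · rw [IntermediateField.mem_restrictScalars, mem_separableClosure_iff]
      exact isSeparable_algebraMap (K := Ω) (⟨a, ha⟩ : K)
    · rw [IntermediateField.mem_restrictScalars, mem_separableClosure_iff]
      exact hsep a ha
  intro a ha
  have h2 := h1 ha
  rwa [IntermediateField.mem_restrictScalars, mem_separableClosure_iff] at h2

/-- G3, with the etale datum (TM3) as a hypothesis. -/
theorem lus_of_cl_aux (K K₁ : IntermediateField k Ω)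
    (hk : ∀ c : k, v.Ge 0 (algebraMap k Ω c)) (hpos : ∃ a ∈ K, a ≠ 0 ∧ 0 < v a)
    (hK : K.FG) (hK₁ : K₁.FG)
    (hcl : ∀ a ∈ K, a ∈ Cl v K₁.toSubfield) (hcl₁ : ∀ a ∈ K₁, a ∈ Cl v K.toSubfield)
    (hsep : ∀ a ∈ K, IsSeparable K₁ a) (hsep₁ : ∀ a ∈ K₁, IsSeparable K a)
    (htm : ∀ S : Finset Ω, (∀ s ∈ S, IsSeparable K.toSubfield s) →
      (K ⊔ K₁).toSubfield = Subfield.closure ((K.toSubfield : Set Ω) ∪ S) →
      (∀ a ∈ (K ⊔ K₁).toSubfield, a ∈ Cl v K.toSubfield) →
      ∃ θ : Ω, EtData v K.toSubfield θ ∧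
        Subfield.closure ((K.toSubfield : Set Ω) ∪ {θ}) = (K ⊔ K₁).toSubfield)
    (hL : LUs v (algebraMap k Ω).range K₁.toSubfield) :
    LUs v (algebraMap k Ω).range K.toSubfield := by
  have h1 : LUs v (algebraMap k Ω).range (K ⊔ K₁).toSubfield := by
    rw [sup_comm]
    exact lus_up K₁ (K₁ ⊔ K) hk le_sup_left hK₁ (IntermediateField.fg_sup hK₁ hK) (cl_sup K₁ K hcl)
      (sep_sup K₁ K hsep) hL
  obtain ⟨S, hS⟩ := hK₁
  obtain ⟨θ, hθ, hM⟩ := htm S (fun s hs => hsep₁ s (by
    rw [← hS]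
    exact IntermediateField.subset_adjoin _ _ hs)) (sup_toSubfield K K₁ S hS)
    (fun a ha => cl_sup K K₁ hcl₁ a ha)
  exact lus_down K hk hpos θ hθ _ hM h1

end

end Pool.Agent.D2
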