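import Pool.Agent.Lib.D2.Ctx0
import Pool.Agent.Lib.LU1_h15.GalTheta

/-! # TM2: the decomposition field lies in the closure -/

set_option autoImplicit false

namespace Pool.Agent.D2

open Pool.Agent.H15JM (RVal)
open Pool.Agent.LU1 (VPos fixO decG mem_fixO val_add_vpos)
open Pool.Agent.LU1.GalThetaAux
open Pool.Agent.LUC

universe u

variable {k Ω : Type u} [Field k] [Field Ω] [Algebra k Ω] {v : RVal Ω}

/-- An element fixed by the decomposition group, close to `1`, with all other conjugates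
of positive value. -/
theorem exists_theta0 (F : IntermediateField k Ω) (N : IntermediateField F Ω)
    [FiniteDimensional F N] (H : Subgroup (N ≃ₐ[F] N)) :
    ∃ θ : N, (∀ σ ∈ decG v F N ⊓ H, σ θ = θ) ∧ VPos v ((θ : Ω) - 1) ∧
      ∀ σ ∈ H, σ ∉ decG v F N → VPos v ((σ θ : N) : Ω) := by
  classical
  by_cases htr : ∀ n : N, n ≠ 0 → v (n : Ω) = 0
  · refine ⟨1, fun σ _ => _root_.map_one σ, ?_, ?_⟩
    · rw [OneMemClass.coe_one, sub_self]; exact VPos.zero
    · intro σ _ hσ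
      exfalso
      apply hσ
      intro n
      by_cases hn : n = 0
      · rw [hn, _root_.map_zero]
      · rw [htr n hn, htr (σ n) (by simpa using hn)]
  push Not at htr
  obtain ⟨n0, hn0, hv0⟩ := htr
  obtain ⟨a, ha0, hva, hσa⟩ := exists_sep F N n0 hn0 hv0
  have ha0' : (a : Ω) ≠ 0 := by simpa using ha0
  -- `α = a / (1 + a)`
  have h1a : (a : Ω) + 1 ≠ 0 ∧ v ((a : Ω) + 1) = v (a : Ω) :=
    v.add_of_lt ha0' one_ne_zero (by rw [v.map_one]; exact hva)
  let α : N := a / (a + 1)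
  have hα : (α : Ω) = (a : Ω) / ((a : Ω) + 1) := rfl
  have hα1 : VPos v ((α : Ω) - 1) := by
    have h2 : (α : Ω) - 1 = -((a : Ω) + 1)⁻¹ := by
      rw [hα]; field_simp [h1a.1]; ring
    rw [h2]
    apply VPos.neg
    intro _
    rw [v.map_inv h1a.1, h1a.2]
    linarith
  have hσα : ∀ σ : N ≃ₐ[F] N, σ ∉ decG v F N → VPos v (σ α : Ω) := by
    intro σ hσ
    have h3 : (σ α : Ω) = (σ a : Ω) * ((σ a : Ω) + 1)⁻¹ := by
      show ((σ (a / (a + 1)) : N) : Ω) = _
      rw [map_div₀, _root_.map_add, _root_.map_one, div_eq_mul_inv]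
      rfl
    have h4 : VPos v (σ a : Ω) := fun _ => hσa σ hσ
    have h5 := val_add_vpos (one_ne_zero (α := Ω)) v.map_one h4
    rw [add_comm] at h5
    rw [h3]
    apply h4.mul
    intro _
    rw [v.map_inv h5.1, h5.2, neg_zero]
  have hDα : ∀ σ : N ≃ₐ[F] N, σ ∈ decG v F N → VPos v ((σ α : Ω) - 1) := by
    intro σ hσ h6
    have h7 : ((σ α : Ω) - 1) = (σ (α - 1) : Ω) := by
      rw [_root_.map_sub, _root_.map_one]; rfl
    rw [h7] at h6 ⊢
    rw [hσ (α - 1)]
    have h8 : ((α - 1 : N) : Ω) = (α : Ω) - 1 := rfl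
    rw [h8]
    apply hα1
    rw [← h8]
    intro h9
    have h10 : (α - 1 : N) = 0 := Subtype.ext h9
    rw [h10, _root_.map_zero] at h6
    exact h6 rfl
  have hfin : Finite (N ≃ₐ[F] N) := inferInstance
  have hft : Fintype (decG v F N) := Fintype.ofFinite _
  have hprod : ∀ s : Finset (decG v F N),
      VPos v (((∏ τ ∈ s, (τ : N ≃ₐ[F] N) α : N) : Ω) - 1) := by
    intro s
    induction s using Finset.induction_on with
    | empty =>
      rw [Finset.prod_empty, OneMemClass.coe_one, sub_self]; exact VPos.zero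
    | insert τ s hτ ih =>
      rw [Finset.prod_insert hτ]
      have h11 : (((τ : N ≃ₐ[F] N) α * ∏ τ ∈ s, (τ : N ≃ₐ[F] N) α : N) : Ω) - 1 =
          ((((τ : N ≃ₐ[F] N) α : N) : Ω) - 1) *
            ((∏ τ ∈ s, (τ : N ≃ₐ[F] N) α : N) : Ω) +
          (((∏ τ ∈ s, (τ : N ≃ₐ[F] N) α : N) : Ω) - 1) := by
        rw [MulMemClass.coe_mul]; ring
      rw [h11]
      refine ((hDα τ τ.2).mul ?_).add ih
      have h12 : ((∏ τ ∈ s, (τ : N ≃ₐ[F] N) α : N) : Ω) =
          (((∏ τ ∈ s, (τ : N ≃ₐ[F] N) α : N) : Ω) - 1) + 1 := by ring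
      rw [h12]
      exact ih.ge.add fun _ => by rw [v.map_one]
  refine ⟨∏ τ : decG v F N, (τ : N ≃ₐ[F] N) α, ?_, hprod _, ?_⟩
  · intro σ hσ
    have hσD : σ ∈ decG v F N := (Subgroup.mem_inf.1 hσ).1
    rw [_root_.map_prod]
    refine Fintype.prod_equiv (Equiv.mulLeft (⟨σ, hσD⟩ : decG v F N)) _ _ ?_
    intro τ
    rfl
  · intro σ _ hσ
    rw [_root_.map_prod]
    have h13 : ∀ τ : decG v F N, σ * (τ : N ≃ₐ[F] N) ∉ decG v F N := by
      intro τ h14
      apply hσ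
      have h15 := (decG v F N).mul_mem h14 ((decG v F N).inv_mem τ.2)
      rwa [mul_inv_cancel_right] at h15
    have h16 : ∀ s : Finset (decG v F N), s.Nonempty →
        VPos v ((∏ τ ∈ s, σ ((τ : N ≃ₐ[F] N) α) : N) : Ω) := by
      intro s hs
      induction hs using Finset.Nonempty.cons_induction with
      | singleton τ =>
        rw [Finset.prod_singleton]
        exact hσα _ (h13 τ)
      | cons τ s hτ hs ih =>
        rw [Finset.prod_cons, MulMemClass.coe_mul]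
        exact (hσα _ (h13 τ)).mul ih.ge
    exact h16 _ Finset.univ_nonempty


/-- `b a ^ m` has large value if `a` has positive value. -/
theorem exists_pow_ge {a b : Ω} (ha : VPos v a) (c : ℝ) :
    ∃ m₀ : ℕ, ∀ m : ℕ, m₀ ≤ m → v.Ge c (b * a ^ m) := by
  by_cases ha0 : a = 0
  · refine ⟨1, fun m hm => ?_⟩
    rw [ha0, zero_pow (by omega), mul_zero]
    exact RVal.Ge.zero
  by_cases hb0 : b = 0
  · refine ⟨0, fun m _ => ?_⟩
    rw [hb0, zero_mul]
    exact RVal.Ge.zero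
  have hp : 0 < v a := ha ha0
  obtain ⟨m₀, hm₀⟩ := exists_nat_ge ((c - v b) / v a)
  refine ⟨m₀, fun m hm _ => ?_⟩
  rw [v.map_mul hb0 (pow_ne_zero m ha0), v.map_pow ha0]
  have h1 : (m₀ : ℝ) ≤ m := by exact_mod_cast hm
  have h2 : c - v b ≤ m₀ * v a := by rwa [div_le_iff₀ hp] at hm₀
  have h3 : (m₀ : ℝ) * v a ≤ m * v a := mul_le_mul_of_nonneg_right h1 hp.le
  linarith

/-- The same for finitely many pairs. -/
theorem exists_pow_ge_finset {ι : Type*} (s : Finset ι) (a b : ι → Ω) (ha : ∀ i ∈ s, VPos v (a i))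
    (c : ℝ) : ∃ m₀ : ℕ, ∀ m : ℕ, m₀ ≤ m → ∀ i ∈ s, v.Ge c (b i * a i ^ m) := by
  classical
  induction s using Finset.induction_on with
  | empty => exact ⟨0, fun _ _ i hi => absurd hi (Finset.notMem_empty i)⟩
  | insert j s _ ih =>
    obtain ⟨m₁, h1⟩ := ih fun i hi => ha i (Finset.mem_insert_of_mem hi)
    obtain ⟨m₂, h2⟩ := exists_pow_ge (b := b j) (ha j (Finset.mem_insert_self j s)) c
    refine ⟨max m₁ m₂, fun m hm i hi => ?_⟩
    rcases Finset.mem_insert.1 hi with rfl | hi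
    · exact h2 m ((le_max_right _ _).trans hm)
    · exact h1 m ((le_max_left _ _).trans hm) i hi

theorem vpos_sum0 {ι : Type*} (s : Finset ι) (f : ι → Ω) (h : ∀ i ∈ s, VPos v (f i)) :
    VPos v (∑ i ∈ s, f i) := by
  classical
  induction s using Finset.induction_on with
  | empty =>
    rw [Finset.sum_empty]
    exact VPos.zero
  | insert j s hj ih =>
    rw [Finset.sum_insert hj]
    exact (h j (Finset.mem_insert_self j s)).add (ih fun i hi => h i (Finset.mem_insert_of_mem hi))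

/-- TM2: the decomposition field of `N` over the fixed field of `H` is in the closure. -/
theorem cl_dec (h : Ctx0 k v) (F : IntermediateField k Ω) (N : IntermediateField F Ω)
    [FiniteDimensional F N] [IsGalois F N] (H : Subgroup (N ≃ₐ[F] N)) :
    ∀ g ∈ fixO F N (decG v F N ⊓ H), g ∈ Cl v (fixO F N H).toSubfield := by
  classical
  have _h := h
  intro g hg c
  obtain ⟨n, rfl, hn⟩ := (mem_fixO F N _ g).1 hg
  obtain ⟨θ, hfix, h1, hmov⟩ := exists_theta0 (v := v) F N H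
  have hfin : Finite (N ≃ₐ[F] N) := inferInstance
  have _ft : Fintype (N ≃ₐ[F] N) := Fintype.ofFinite _
  -- the orbit of `(θ, n)`
  set O : Finset (N × N) :=
    (Finset.univ.filter fun σ : N ≃ₐ[F] N => σ ∈ H).image fun σ => (σ θ, σ n) with hO
  have hmemO : ∀ x : N × N, x ∈ O ↔ ∃ σ ∈ H, (σ θ, σ n) = x := by
    intro x
    rw [hO, Finset.mem_image]
    simp only [Finset.mem_filter, Finset.mem_univ, true_and]
  have h0O : (θ, n) ∈ O := (hmemO _).2 ⟨1, H.one_mem, rfl⟩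
  have hpos : ∀ x ∈ O.erase (θ, n), VPos v ((x.1 : N) : Ω) := by
    intro x hx
    rw [Finset.mem_erase] at hx
    obtain ⟨σ, hσ, rfl⟩ := (hmemO x).1 hx.2
    refine hmov σ hσ fun hσ' => hx.1 ?_
    rw [hfix σ ⟨hσ', hσ⟩, hn σ ⟨hσ', hσ⟩]
  have hinv : ∀ (φ : N × N → N), (∀ (σ : N ≃ₐ[F] N) (x : N × N), σ (φ x) = φ (σ x.1, σ x.2)) →
      (((∑ x ∈ O, φ x : N) : Ω) ∈ fixO F N H) := by
    intro φ hφ
    refine (mem_fixO F N H _).2 ⟨_, rfl, fun σ hσ => ?_⟩
    rw [_root_.map_sum]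
    refine Finset.sum_bij (fun x _ => (σ x.1, σ x.2)) ?_ ?_ ?_ ?_
    · intro x hx
      obtain ⟨ρ, hρ, rfl⟩ := (hmemO x).1 hx
      exact (hmemO _).2 ⟨σ * ρ, H.mul_mem hσ hρ, rfl⟩
    · intro a _ b _ hab
      rw [Prod.mk.injEq] at hab
      exact Prod.ext (σ.injective hab.1) (σ.injective hab.2)
    · intro x hx
      obtain ⟨ρ, hρ, rfl⟩ := (hmemO x).1 hx
      refine ⟨((σ⁻¹ * ρ) θ, (σ⁻¹ * ρ) n),
        (hmemO _).2 ⟨σ⁻¹ * ρ, H.mul_mem (H.inv_mem hσ) hρ, rfl⟩, ?_⟩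
      have e : ∀ z : N, σ ((σ⁻¹ * ρ) z) = ρ z := fun z => by
        rw [← AlgEquiv.mul_apply, mul_inv_cancel_left]
      rw [e, e]
    · intro x _
      exact hφ σ x
  obtain ⟨m₁, hm₁⟩ := exists_pow_ge_finset (v := v) (O.erase (θ, n)) (fun x => ((x.1 : N) : Ω))
    (fun x => (((n - x.2 : N)) : Ω)) hpos c
  set m : ℕ := max m₁ 1 with hm
  set T : N := ∑ x ∈ O, x.2 * x.1 ^ m with hT
  set S : N := ∑ x ∈ O, x.1 ^ m with hS
  have hTm : (T : Ω) ∈ fixO F N H := by
    refine hinv (fun x => x.2 * x.1 ^ m) fun σ x => ?_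
    rw [_root_.map_mul, _root_.map_pow]
  have hSm : (S : Ω) ∈ fixO F N H := by
    refine hinv (fun x => x.1 ^ m) fun σ x => ?_
    rw [_root_.map_pow]
  -- the values
  have hθ0 : (θ : Ω) ≠ 0 ∧ v (θ : Ω) = 0 := by
    have := val_add_vpos (v := v) one_ne_zero v.map_one h1
    rwa [add_sub_cancel] at this
  have hS0 : (S : Ω) ≠ 0 ∧ v (S : Ω) = 0 := by
    have e : (S : Ω) = (θ : Ω) ^ m + ∑ x ∈ O.erase (θ, n), ((x.1 : N) : Ω) ^ m := by
      rw [hS, ← Finset.add_sum_erase O _ h0O]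
      push_cast
      rfl
    rw [e]
    refine val_add_vpos (pow_ne_zero m hθ0.1) (by rw [v.map_pow hθ0.1, hθ0.2, mul_zero]) ?_
    refine vpos_sum0 _ _ fun x hx => ?_
    obtain ⟨j, hj⟩ : ∃ j, m = j + 1 := ⟨m - 1, by have := le_max_right m₁ 1; omega⟩
    rw [hj, pow_succ]
    refine VPos.mul' ?_ (hpos x hx)
    clear_value m
    clear hj
    induction j with
    | zero =>
      rw [pow_zero]
      intro _
      rw [v.map_one]
    | succ j ih =>
      rw [pow_succ]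
      have := ih.mul (hpos x hx).ge
      rwa [add_zero] at this
  refine ⟨(T : Ω) / (S : Ω), div_mem hTm hSm, ?_⟩
  have e1 : (n : Ω) - (T : Ω) / (S : Ω) = ((n : Ω) * S - T) * (S : Ω)⁻¹ := by
    field_simp [hS0.1]
  have e2 : (n : Ω) * S - T =
      ∑ x ∈ O.erase (θ, n), (((n - x.2 : N)) : Ω) * ((x.1 : N) : Ω) ^ m := by
    have e3 : n * S - T = ∑ x ∈ O, (n - x.2) * x.1 ^ m := by
      rw [hS, hT, Finset.mul_sum, ← Finset.sum_sub_distrib]
      exact Finset.sum_congr rfl fun x _ => by ring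
    have e4 : ((n * S - T : N) : Ω) = (n : Ω) * S - T := by push_cast; rfl
    rw [← e4, e3, ← Finset.add_sum_erase O _ h0O, sub_self, zero_mul, zero_add]
    push_cast
    rfl
  rw [e1, e2]
  have hs : v.Ge 0 (S : Ω)⁻¹ := fun _ => by rw [v.map_inv hS0.1, hS0.2, neg_zero]
  have := (RVal.Ge.sum (O.erase (θ, n)) _ (hm₁ m (le_max_left _ _))).mul hs
  rwa [add_zero] at this

end Pool.Agent.D2
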