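import Pool.Agent.Lib.D2.TM4b
import Pool.Agent.Lib.LU1_h15.GalSteps

/-! # D2, TM4a: Kummer generator of a step of prime index `ℓ ≠ p` -/

set_option autoImplicit false

namespace Pool.Agent.D2

open Pool.Agent.H15JM (RVal)
open Pool.Agent.LU1 (VPos fixO decG mem_fixO)
open Pool.Agent.LUC
open Polynomial

universe u

variable {k Ω : Type u} [Field k] [Field Ω] [Algebra k Ω] {v : RVal Ω}

/-- TM4a: Kummer generator of a step of prime index `ℓ ≠ p`. -/
theorem exists_kummer (p : ℕ) (hp : p.Prime) [CharP k p] [IsAlgClosed k]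
    (F : IntermediateField k Ω) (N : IntermediateField F Ω)
    [FiniteDimensional F N] [IsGalois F N] (A B : Subgroup (N ≃ₐ[F] N)) (ℓ : ℕ)
    (hℓ : ℓ.Prime) (hℓp : ℓ ≠ p) (hAB : A ≤ B) (hn : ∀ b ∈ B, ∀ x ∈ A, b * x * b⁻¹ ∈ A)
    (hi : A.relIndex B = ℓ) :
    ∃ η ∈ fixO F N A, η ≠ 0 ∧ η ^ ℓ ∈ fixO F N B ∧
      fixO F N A = LU1.adj (fixO F N B) η := by
  obtain ⟨b, hb, hbA, hconj, hgen, θ, hθ, hbθ⟩ := LU1.exists_moved F N A B ℓ hℓ hn hi
  have hℓk : (ℓ : k) ≠ 0 := by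
    intro h0
    have := (CharP.cast_eq_zero_iff k p ℓ).1 h0
    exact hℓp ((Nat.prime_dvd_prime_iff_eq hp hℓ).1 this).symm
  have : NeZero (ℓ : k) := ⟨hℓk⟩
  obtain ⟨ζ, hζ⟩ := HasEnoughRootsOfUnity.exists_primitiveRoot k ℓ
  let ι : k →+* N := (algebraMap F N).comp (algebraMap k F)
  have hι : Function.Injective ι := ι.injective
  have hζN : IsPrimitiveRoot (ι ζ) ℓ := hζ.map_of_injective hι
  have hbι : ∀ c : k, b (ι c) = ι c := fun c => b.commutes _
  have hιA : ∀ a ∈ A, ∀ c : k, a (ι c) = ι c := fun a _ c => a.commutes _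
  have hiter : ∀ (i : ℕ) (x : N), ((b : N →+* N)^[i]) x = (b ^ i) x := by
    intro i
    induction i with
    | zero => intro x; rfl
    | succ i ih =>
      intro x
      rw [Function.iterate_succ_apply', ih, pow_succ', AlgEquiv.mul_apply]
      rfl
  obtain ⟨j, hj1, hj2⟩ := LU1.exists_eigen (b : N →+* N) ℓ hℓ
    (by rw [← map_natCast ι]; exact (map_ne_zero ι).2 hℓk) (ι ζ) hζN (hbι ζ) θ
    (by rw [hiter]; exact hθ _ hbA) hbθ
  set g : N := ∑ i ∈ Finset.range ℓ, (ι ζ)⁻¹ ^ (i * j) * ((b : N →+* N)^[i]) θ with hg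
  have hgA : ∀ a ∈ A, a g = g := by
    intro a ha
    rw [hg, map_sum]
    refine Finset.sum_congr rfl fun i _ => ?_
    rw [map_mul, map_pow, map_inv₀, hιA a ha ζ]
    congr 1
    have : ∀ i : ℕ, ∀ a ∈ A, a (((b : N →+* N)^[i]) θ) = ((b : N →+* N)^[i]) θ := by
      intro i
      induction i with
      | zero => exact hθ
      | succ i ih =>
        rw [Function.iterate_succ_apply']
        exact LU1.fix_b hconj ih
    exact this i a ha
  have hbg : b g ≠ g := hj2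
  refine ⟨(g : Ω), (mem_fixO F N A _).2 ⟨g, rfl, hgA⟩, ?_, ?_,
    LU1.fixO_eq_adj F N A B ℓ hℓ hAB hi g hgA b hb hbg⟩
  · intro h0
    have h1 : g = 0 := by exact_mod_cast h0
    rw [h1, map_zero] at hbg
    exact hbg rfl
  · have h1 : ((g ^ ℓ : N) : Ω) ∈ fixO F N B := by
      refine LU1.mem_fixO_of hgen (fun a ha => by rw [map_pow, hgA a ha]) ?_
      have : b g = ι ζ ^ j * g := hj1
      rw [map_pow, this, mul_pow, ← pow_mul, mul_comm j, pow_mul, hζN.pow_eq_one, one_pow,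
        one_mul]
    simpa using h1

end Pool.Agent.D2
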