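import Mathlib

/-! # D2, rows TM5 and TM6: group theory of the tame part -/

set_option autoImplicit false

namespace Pool.Agent.D2

/-- TM5: a `p`-group acting on a set with fewer than `p` elements. -/
theorem ram_le {G : Type*} [Group G] [Finite G] (p : ℕ) (hp : p.Prime) (D V H : Subgroup G)
    (hVD : V ≤ D) (hVp : ∀ x ∈ V, ∃ n : ℕ, x ^ p ^ n = 1) (hi : (D ⊓ H).relIndex D < p) :
    V ≤ H := by
  have : Fact p.Prime := ⟨hp⟩
  have h1 : (D ⊓ H).relIndex D = H.relIndex D := by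
    rw [inf_comm]; exact Subgroup.inf_relIndex_right H D
  rw [h1] at hi
  have h0 : H.relIndex D ≠ 0 := by
    unfold Subgroup.relIndex
    exact Subgroup.index_ne_zero_of_finite
  have h2 : H.relIndex V ≤ H.relIndex D := Subgroup.relIndex_le_of_le_right hVD h0
  have hP : IsPGroup p V := by
    intro x
    obtain ⟨n, hn⟩ := hVp x x.2
    exact ⟨n, Subtype.ext (by simpa using hn)⟩
  obtain ⟨n, hn⟩ := hP.index (H.subgroupOf V)
  have h3 : H.relIndex V = p ^ n := hn
  have hn0 : n = 0 := by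
    by_contra hne
    have : p ^ 1 ≤ p ^ n := Nat.pow_le_pow_right hp.pos (Nat.one_le_iff_ne_zero.2 hne)
    rw [pow_one] at this
    omega
  subst hn0
  rw [pow_zero] at h3
  exact Subgroup.relIndex_eq_one.1 h3

/-- One prime step above a subgroup which contains `V`. -/
theorem exists_prime_step {G : Type*} [Group G] [Finite G] (p : ℕ) (hp : p.Prime)
    (D V C : Subgroup G) (hVD : V ≤ D) (hVC : V ≤ C) (hCD : C ≤ D) (hne : C ≠ D)
    (hab : ∀ a ∈ D, ∀ b ∈ D, a * b * a⁻¹ * b⁻¹ ∈ V)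
    (hpp : ∀ a ∈ D, a ^ p ∈ V → a ∈ V) :
    ∃ (B : Subgroup G) (ℓ : ℕ), ℓ.Prime ∧ ℓ ≠ p ∧ C ≤ B ∧ B ≤ D ∧
      (∀ b ∈ B, ∀ x ∈ C, b * x * b⁻¹ ∈ C) ∧ C.relIndex B = ℓ := by
  have : Fact p.Prime := ⟨hp⟩
  have hnorm : ∀ W : Subgroup G, V ≤ W → W ≤ D → ∀ b ∈ D, ∀ x ∈ W, b * x * b⁻¹ ∈ W := by
    intro W hVW hWD b hb x hx
    have := W.mul_mem (hVW (hab b hb x (hWD hx))) hx
    simpa [mul_assoc] using this
  have hN : ∀ W : Subgroup G, V ≤ W → W ≤ D → (W.subgroupOf D).Normal := by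
    intro W hVW hWD
    constructor
    intro x hx g
    rw [Subgroup.mem_subgroupOf] at hx ⊢
    simpa using hnorm W hVW hWD g g.2 x hx
  have hNV := hN V le_rfl hVD
  have hNC := hN C hVC hCD
  -- the index of `V` in `D` is prime to `p`
  have hcop : ¬ p ∣ V.relIndex D := by
    intro hdvd
    have hdvd' : p ∣ Nat.card (D ⧸ V.subgroupOf D) := hdvd
    obtain ⟨q, hq⟩ := exists_prime_orderOf_dvd_card' p hdvd'
    obtain ⟨a, rfl⟩ := QuotientGroup.mk_surjective q
    have h1 : ((a ^ p : D) : D ⧸ V.subgroupOf D) = 1 := by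
      rw [QuotientGroup.mk_pow, ← hq]; exact pow_orderOf_eq_one _
    rw [QuotientGroup.eq_one_iff, Subgroup.mem_subgroupOf] at h1
    have h2 : (a : G) ∈ V := hpp a a.2 (by simpa using h1)
    have h3 : ((a : D) : D ⧸ V.subgroupOf D) = 1 := by
      rw [QuotientGroup.eq_one_iff, Subgroup.mem_subgroupOf]; exact h2
    rw [h3, orderOf_one] at hq
    exact hp.one_lt.ne hq
  have hdiv : C.relIndex D ∣ V.relIndex D := Subgroup.relIndex_dvd_of_le_left D hVC
  have hcard : Nat.card (D ⧸ C.subgroupOf D) = C.relIndex D := rfl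
  have hne1 : C.relIndex D ≠ 1 := by
    intro h
    exact hne (le_antisymm hCD (Subgroup.relIndex_eq_one.1 h))
  obtain ⟨ℓ, hℓ, hℓd⟩ := Nat.exists_prime_and_dvd hne1
  have : Fact ℓ.Prime := ⟨hℓ⟩
  obtain ⟨q, hq⟩ := exists_prime_orderOf_dvd_card' (G := D ⧸ C.subgroupOf D) ℓ (hcard ▸ hℓd)
  let π : D →* D ⧸ C.subgroupOf D := QuotientGroup.mk' (C.subgroupOf D)
  have hπ : Function.Surjective π := QuotientGroup.mk'_surjective _
  let B : Subgroup G := ((Subgroup.zpowers q).comap π).map D.subtype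
  have hCeq : ((⊥ : Subgroup (D ⧸ C.subgroupOf D)).comap π).map D.subtype = C := by
    have : (⊥ : Subgroup (D ⧸ C.subgroupOf D)).comap π = C.subgroupOf D := by
      rw [MonoidHom.comap_bot]; exact QuotientGroup.ker_mk' _
    rw [this, Subgroup.map_subgroupOf_eq_of_le hCD]
  have hBD : B ≤ D := by
    rintro _ ⟨x, -, rfl⟩
    exact x.2
  refine ⟨B, ℓ, hℓ, ?_, ?_, hBD, ?_, ?_⟩
  · rintro rfl
    exact hcop (hℓd.trans hdiv)
  · rw [← hCeq]
    exact Subgroup.map_mono (Subgroup.comap_mono bot_le)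
  · intro b hb x hx
    exact hnorm C hVC hCD b (hBD hb) x hx
  · conv_lhs => rw [← hCeq]
    have h1 := Subgroup.relIndex_map_map_of_injective
      ((⊥ : Subgroup (D ⧸ C.subgroupOf D)).comap π) ((Subgroup.zpowers q).comap π)
      (f := D.subtype) D.subtype_injective
    rw [hCeq] at h1
    rw [hCeq]
    rw [h1, Subgroup.relIndex_comap, Subgroup.map_comap_eq_self_of_surjective hπ,
      Subgroup.relIndex_bot_left, Nat.card_zpowers, hq]

/-- TM6: the chain from `D` to `D ⊓ H`, when it contains the ramification group. -/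
theorem tame_chain {G : Type*} [Group G] [Finite G] (p : ℕ) (hp : p.Prime)
    (D V H : Subgroup G) (hVD : V ≤ D) (hVH : V ≤ H)
    (hab : ∀ a ∈ D, ∀ b ∈ D, a * b * a⁻¹ * b⁻¹ ∈ V)
    (hpp : ∀ a ∈ D, a ^ p ∈ V → a ∈ V) (P : Subgroup G → Prop)
    (hkum : ∀ (A B : Subgroup G) (ℓ : ℕ), ℓ.Prime → ℓ ≠ p → A ≤ B → B ≤ D →
      (∀ b ∈ B, ∀ x ∈ A, b * x * b⁻¹ ∈ A) → A.relIndex B = ℓ → P B → P A) :
    P D → P (D ⊓ H) := by
  intro hPD
  -- induction on the index of `C` in `D`
  have key : ∀ (n : ℕ) (C : Subgroup G), V ≤ C → C ≤ D → C.relIndex D ≤ n → P C := by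
    intro n
    induction n with
    | zero =>
      intro C _ _ h
      have : C.relIndex D ≠ 0 := by
        unfold Subgroup.relIndex
        exact Subgroup.index_ne_zero_of_finite
      omega
    | succ n ih =>
      intro C hVC hCD hn
      by_cases hne : C = D
      · rw [hne]; exact hPD
      · obtain ⟨B, ℓ, hℓ, hℓp, hCB, hBD, hnorm, hidx⟩ :=
          exists_prime_step p hp D V C hVD hVC hCD hne hab hpp
        refine hkum C B ℓ hℓ hℓp hCB hBD hnorm hidx ?_
        refine ih B (hVC.trans hCB) hBD ?_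
        have hmul : C.relIndex B * B.relIndex D = C.relIndex D :=
          Subgroup.relIndex_mul_relIndex C B D hCB hBD
        have hB0 : B.relIndex D ≠ 0 := by
          unfold Subgroup.relIndex
          exact Subgroup.index_ne_zero_of_finite
        have h2 : 2 ≤ C.relIndex B := hidx ▸ hℓ.two_le
        have : 2 * B.relIndex D ≤ n + 1 := (Nat.mul_le_mul_right _ h2).trans (hmul ▸ hn)
        omega
  exact key _ (D ⊓ H) (le_inf hVD hVH) inf_le_left le_rfl

end Pool.Agent.D2
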