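import Pool.Agent.Lib.D2.TM1
import Pool.Agent.Lib.D2.TM2
import Pool.Agent.Lib.D2.TM4
import Pool.Agent.Lib.D2.TM56
import Pool.Agent.Lib.LU1_h15.GalSep

/-!
# Henselian rationality: removing the tame ramification by divisibility of the value group

`F ≤ E` finite separable of local degree `ρ < p`, `v(E) = v(F) + ℓ v(E)` for all primes
`ℓ ≤ ρ`: then `E` lies in the closure of `F`.
-/

set_option autoImplicit false

namespace Pool.Agent.D2

open Pool.Agent.H15JM (RVal)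
open Pool.Agent.LU1 (VPos fixO decG mem_fixO)
open Pool.Agent.LUC

universe u

variable {k Ω : Type u} [Field k] [Field Ω] [Algebra k Ω] {v : RVal Ω}

namespace HR

/-- The norm from the fixed field of `decG ⊓ H` to the fixed field of `decG`. -/
theorem exists_norm (F : IntermediateField k Ω) (N : IntermediateField F Ω)
    [FiniteDimensional F N] (H : Subgroup (N ≃ₐ[F] N)) (n : N) (hn : n ≠ 0)
    (hH : ∀ σ ∈ H, σ n = n) :
    ∃ m : N, m ≠ 0 ∧ (∀ σ ∈ decG v F N, σ m = m) ∧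
      v (m : Ω) = (H.relIndex (decG v F N) : ℝ) * v (n : Ω) := by
  classical
  have hfin : Finite (N ≃ₐ[F] N) := inferInstance
  have _ft : Fintype ((decG v F N) ⧸ H.subgroupOf (decG v F N)) := Fintype.ofFinite _
  have hval : ∀ s : Finset ((decG v F N) ⧸ H.subgroupOf (decG v F N)),
      (∏ q ∈ s, (((Quotient.out q : decG v F N) : N ≃ₐ[F] N) n)) ≠ 0 ∧
      v ((∏ q ∈ s, (((Quotient.out q : decG v F N) : N ≃ₐ[F] N) n) : N) : Ω) =
        (s.card : ℝ) * v (n : Ω) := by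
    intro s
    induction s using Finset.induction_on with
    | empty => exact ⟨by simp, by rw [Finset.prod_empty, OneMemClass.coe_one, v.map_one]; simp⟩
    | insert q s hq ih =>
      have h1 : (((Quotient.out q : decG v F N) : N ≃ₐ[F] N) n) ≠ 0 := by
        rw [Ne, map_eq_zero_iff _ (AlgEquiv.injective _)]; exact hn
      rw [Finset.prod_insert hq]
      refine ⟨mul_ne_zero h1 ih.1, ?_⟩
      rw [MulMemClass.coe_mul, v.map_mul (by simpa using h1) (by
          rw [Ne, ZeroMemClass.coe_eq_zero]; exact ih.1), ih.2,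
        (Quotient.out q : decG v F N).2 n, Finset.card_insert_of_notMem hq]
      push_cast
      ring
  refine ⟨∏ q : (decG v F N) ⧸ H.subgroupOf (decG v F N),
    (((Quotient.out q : decG v F N) : N ≃ₐ[F] N) n), (hval _).1, ?_, ?_⟩
  · intro σ hσ
    rw [map_prod]
    refine Fintype.prod_equiv (MulAction.toPerm (⟨σ, hσ⟩ : decG v F N)) _ _ ?_
    intro q
    have h2 : (MulAction.toPerm (⟨σ, hσ⟩ : decG v F N)) q =
        (((⟨σ, hσ⟩ : decG v F N) * Quotient.out q : decG v F N) :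
          (decG v F N) ⧸ H.subgroupOf (decG v F N)) := by
      conv_lhs => rw [← Quotient.out_eq q]
      rfl
    rw [h2]
    obtain ⟨⟨t, ht⟩, h3⟩ := QuotientGroup.mk_out_eq_mul (H.subgroupOf (decG v F N))
      ((⟨σ, hσ⟩ : decG v F N) * Quotient.out q)
    rw [h3]
    have ht' : (t : N ≃ₐ[F] N) ∈ H := ht
    show σ (((Quotient.out q : decG v F N) : N ≃ₐ[F] N) n) =
      (σ * ((Quotient.out q : decG v F N) : N ≃ₐ[F] N) * (t : N ≃ₐ[F] N)) n
    rw [AlgEquiv.mul_apply, AlgEquiv.mul_apply, hH _ ht']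
  · rw [(hval _).2, Finset.card_univ, ← Nat.card_eq_fintype_card]
    rfl

/-- The values of `E` are values of `F`. -/
theorem val_eq (h : Ctx0 k v) (F : IntermediateField k Ω) (N : IntermediateField F Ω)
    [FiniteDimensional F N] [IsGalois F N] (H : Subgroup (N ≃ₐ[F] N))
    (hG : ∀ ℓ : ℕ, ℓ.Prime → ℓ ≤ H.relIndex (decG v F N) → ∀ a ∈ fixO F N H, a ≠ 0 →
      ∃ b ∈ fixO F N H, b ≠ 0 ∧ ∃ c ∈ F, c ≠ 0 ∧ v a = v c + (ℓ : ℝ) * v b)
    {a : Ω} (ha : a ∈ fixO F N H) (ha0 : a ≠ 0) : ∃ c ∈ F, c ≠ 0 ∧ v c = v a := by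
  have hfin : Finite (N ≃ₐ[F] N) := inferInstance
  set ρ := H.relIndex (decG v F N) with hρ
  have hρ0 : 0 < ρ := by
    rw [Nat.pos_iff_ne_zero, hρ]
    unfold Subgroup.relIndex
    exact Subgroup.index_ne_zero_of_finite
  -- `ρ v(b) ∈ v(F)`
  have hnorm : ∀ b ∈ fixO F N H, b ≠ 0 → ∃ c ∈ F, c ≠ 0 ∧ v c = (ρ : ℝ) * v b := by
    intro b hb hb0
    obtain ⟨n, rfl, hn⟩ := (mem_fixO F N H b).1 hb
    have hn0 : n ≠ 0 := by
      rintro rfl
      exact hb0 (by simp)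
    obtain ⟨m, hm0, hm, hv⟩ := exists_norm (v := v) F N H n hn0 hn
    have hm0' : (m : Ω) ≠ 0 := by simpa using hm0
    have h1 : (m : Ω) ∈ Cl v F.toSubfield := by
      have h2 := cl_dec h F N ⊤ (m : Ω)
        ((mem_fixO F N _ _).2 ⟨m, rfl, fun σ hσ => hm σ (Subgroup.mem_inf.1 hσ).1⟩)
      rwa [LU1.fixO_top] at h2
    obtain ⟨c, hc, hc0, hcv, -⟩ := Cl.exists_val h1 0 hm0'
    exact ⟨c, hc, hc0, by rw [hcv, hv]⟩
  -- iteration over the prime factors of `ρ`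
  have hiter : ∀ m : ℕ, 0 < m → m ≤ ρ → ∀ b ∈ fixO F N H, b ≠ 0 →
      ∃ b' ∈ fixO F N H, b' ≠ 0 ∧ ∃ c ∈ F, c ≠ 0 ∧ v b = v c + (m : ℝ) * v b' := by
    intro m
    induction m using Nat.strong_induction_on with
    | _ m ih =>
      intro hm hmρ b hb hb0
      by_cases hm1 : m = 1
      · refine ⟨b, hb, hb0, 1, F.one_mem, one_ne_zero, ?_⟩
        rw [hm1, v.map_one]; push_cast; ring
      obtain ⟨ℓ, hℓ, m', rfl⟩ := Nat.exists_prime_and_dvd hm1
      have hm'0 : 0 < m' := Nat.pos_of_mul_pos_left hm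
      have hℓ2 := hℓ.two_le
      have hlt : m' < ℓ * m' := by nlinarith
      have hℓρ : ℓ ≤ ρ := le_trans (Nat.le_mul_of_pos_right ℓ hm'0) hmρ
      obtain ⟨b₁, hb₁, hb₁0, c₁, hc₁, hc₁0, h1⟩ := hG ℓ hℓ hℓρ b hb hb0
      obtain ⟨b₂, hb₂, hb₂0, c₂, hc₂, hc₂0, h2⟩ := ih m' hlt hm'0 (by omega) b₁ hb₁ hb₁0
      refine ⟨b₂, hb₂, hb₂0, c₁ * c₂ ^ ℓ, F.mul_mem hc₁ (_root_.pow_mem hc₂ ℓ),
        mul_ne_zero hc₁0 (pow_ne_zero ℓ hc₂0), ?_⟩
      rw [h1, h2, v.map_mul hc₁0 (pow_ne_zero ℓ hc₂0), v.map_pow hc₂0]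
      push_cast
      ring
  obtain ⟨b, hb, hb0, c, hc, hc0, h1⟩ := hiter ρ hρ0 le_rfl a ha ha0
  obtain ⟨c', hc', hc'0, h2⟩ := hnorm b hb hb0
  exact ⟨c * c', F.mul_mem hc hc', mul_ne_zero hc0 hc'0, by
    rw [v.map_mul hc0 hc'0, h2, h1]⟩

/-- The index of `C` in `D = V C`, `V` a normal `p`-subgroup, is a power of `p`. -/
theorem relIndex_eq_pow_of_sup {G : Type*} [Group G] [Finite G] (p : ℕ) (hp : p.Prime)
    (D V C : Subgroup G) (hVD : V ≤ D) (hCD : C ≤ D)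
    (hVn : ∀ d ∈ D, ∀ x ∈ V, d * x * d⁻¹ ∈ V) (hVp : ∀ x ∈ V, ∃ n : ℕ, x ^ p ^ n = 1)
    (hsup : V ⊔ C = D) : ∃ ν : ℕ, C.relIndex D = p ^ ν := by
  have hpF : Fact p.Prime := ⟨hp⟩
  have hN : (V.subgroupOf D).Normal := by
    constructor
    intro x hx g
    exact hVn g g.2 x hx
  have hsup' : V.subgroupOf D ⊔ C.subgroupOf D = ⊤ := by
    rw [← Subgroup.subgroupOf_sup hVD hCD, hsup, Subgroup.subgroupOf_self]
  have hP : IsPGroup p (V.subgroupOf D) := by
    intro x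
    obtain ⟨n, hn⟩ := hVp x.1 x.2
    exact ⟨n, Subtype.ext (Subtype.ext (by simpa using hn))⟩
  obtain ⟨m, hm⟩ := IsPGroup.iff_card.1 hP
  set V' := V.subgroupOf D
  set C' := C.subgroupOf D
  have h1 : V'.relIndex C' = V'.index := by
    rw [← Subgroup.relIndex_sup_left C' V', hsup', Subgroup.relIndex_top_right]
  have h2 : Nat.card C' * C'.index = Nat.card D := Subgroup.card_mul_index C'
  have h3 : Nat.card V' * V'.index = Nat.card D := Subgroup.card_mul_index V'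
  have h4 : Nat.card (V' ⊓ C' : Subgroup D) * V'.relIndex C' = Nat.card C' := by
    have := Subgroup.relIndex_mul_relIndex ⊥ (V' ⊓ C') C' bot_le inf_le_right
    rwa [Subgroup.relIndex_bot_left, Subgroup.relIndex_bot_left, Subgroup.inf_relIndex_right] at this
  have hC : C.relIndex D = C'.index := rfl
  have hV0 : V'.index ≠ 0 := Subgroup.index_ne_zero_of_finite
  have h5 : Nat.card (V' ⊓ C' : Subgroup D) * C'.index = Nat.card V' := by
    have h6 : (Nat.card (V' ⊓ C' : Subgroup D) * C'.index) * V'.index = Nat.card V' * V'.index := by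
      rw [h3, ← h2, ← h4, h1]; ring
    exact Nat.eq_of_mul_eq_mul_right (Nat.pos_of_ne_zero hV0) h6
  have h7 : C'.index ∣ p ^ m := by
    rw [← hm, ← h5]
    exact Dvd.intro_left _ rfl
  obtain ⟨ν, -, hν⟩ := (Nat.dvd_prime_pow hp).1 h7
  exact ⟨ν, by rw [hC, hν]⟩

/-- Tame extensions that do not change the values are trivial. -/
theorem cl_of_vals [IsAlgClosed k] [IsAlgClosed Ω] (p : ℕ) (hp : p.Prime) [CharP k p]
    (h : Ctx0 k v) (F : IntermediateField k Ω) (N : IntermediateField F Ω)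
    [FiniteDimensional F N] [IsGalois F N] (V A0 : Subgroup (N ≃ₐ[F] N))
    (hVD : V ≤ decG v F N)
    (hab : ∀ a ∈ decG v F N, ∀ b ∈ decG v F N, a * b * a⁻¹ * b⁻¹ ∈ V)
    (hpp : ∀ a ∈ decG v F N, a ^ p ∈ V → a ∈ V)
    (hVA : V ≤ A0) (hAD : A0 ≤ decG v F N)
    (hval : ∀ a ∈ fixO F N A0, a ≠ 0 → ∃ c ∈ F, c ≠ 0 ∧ v c = v a) :
    ∀ a ∈ fixO F N A0, a ∈ Cl v F.toSubfield := by
  classical
  have hfin : Finite (N ≃ₐ[F] N) := inferInstance
  set D := decG v F N with hD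
  have key := tame_chain p hp D V A0 hVD hVA hab hpp
    (fun A => A0 ≤ A → ∀ a ∈ fixO F N A, a ∈ Cl v F.toSubfield) ?_ ?_
  · intro a ha
    refine key (le_inf hAD le_rfl) a ?_
    rwa [inf_eq_right.2 hAD]
  · intro A B ℓ hℓ hℓp hAB hBD hnorm hidx hPB hA
    have hB := hPB (hA.trans hAB)
    obtain ⟨η, hη, hη0, hηB, hadj⟩ := exists_kummer (k := k) (Ω := Ω) p hp F N A B ℓ hℓ hℓp hAB
      hnorm hidx
    have hℓk : ((ℓ : ℕ) : k) ≠ 0 := by
      intro h0
      have := (CharP.cast_eq_zero_iff k p ℓ).1 h0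
      exact hℓp ((Nat.prime_dvd_prime_iff_eq hp hℓ).1 this).symm
    -- the value of `η` is a value of `F`
    have hηD : η ∈ fixO F N A0 := by
      obtain ⟨n, hn, hn'⟩ := (mem_fixO F N A η).1 hη
      exact (mem_fixO F N _ η).2 ⟨n, hn, fun σ hσ => hn' σ (hA hσ)⟩
    obtain ⟨c, hc, hc0, hcv⟩ := hval η hηD hη0
    -- the residue
    have hu0 : η / c ≠ 0 := div_ne_zero hη0 hc0
    have hu1 : v (η / c) = 0 := by rw [v.map_div hη0 hc0, hcv, sub_self]
    obtain ⟨d, hd0, hd⟩ := h.res _ hu0 hu1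
    have hdΩ : algebraMap k Ω d ≠ 0 := (_root_.map_ne_zero _).2 hd0
    set e : Ω := algebraMap k Ω d * c with he
    have he0 : e ≠ 0 := mul_ne_zero hdΩ hc0
    have heF : e ∈ F := F.mul_mem (F.algebraMap_mem d) hc
    -- `u = η / e`
    have hu : VPos v (η / e - 1) := by
      have h1 : η / e - 1 = (η / c - algebraMap k Ω d) * (algebraMap k Ω d)⁻¹ := by
        rw [he]; field_simp
      rw [h1]
      refine hd.mul ?_
      intro _
      rw [v.map_inv hdΩ, h.triv d hd0, neg_zero]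
    have huCl : (η / e) ^ ℓ ∈ Cl v F.toSubfield := by
      have h2 : (η / e) ^ ℓ = η ^ ℓ * (e ^ ℓ)⁻¹ := by rw [div_pow, div_eq_mul_inv]
      rw [h2]
      exact Cl.mul (hB _ hηB) (Cl.subset (F.inv_mem (_root_.pow_mem heF ℓ)))
    have huv : ∀ m : ℕ, VPos v ((η / e) ^ m - 1) := by
      intro m
      induction m with
      | zero => rw [pow_zero, sub_self]; exact VPos.zero
      | succ m ih =>
        have h3 : (η / e) ^ (m + 1) - 1 = ((η / e) ^ m - 1) * (η / e) + (η / e - 1) := by ring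
        rw [h3]
        refine (ih.mul ?_).add hu
        have h4 : η / e = (η / e - 1) + 1 := by ring
        rw [h4]
        exact hu.ge.add fun _ => by rw [v.map_one]
    obtain ⟨s, hs, hs0, hsℓ, hs1⟩ := exists_root_one h ℓ hℓk F.toSubfield (huv ℓ)
      ((clF v F.toSubfield).sub_mem huCl (clF v F.toSubfield).one_mem)
    have hsu : s ^ ℓ = (η / e) ^ ℓ := by rw [hsℓ]; ring
    -- `u / s` is an `ℓ`-th root of unity with residue `1`
    have hse : η / e = s := by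
      by_contra hne
      have hpoly : (η / e / s) ^ ℓ = 1 := by
        rw [div_pow, ← hsu, div_self (pow_ne_zero ℓ hs0)]
      have : NeZero (ℓ : k) := ⟨hℓk⟩
      obtain ⟨ζ, hζ⟩ := HasEnoughRootsOfUnity.exists_primitiveRoot k ℓ
      have hζΩ : IsPrimitiveRoot (algebraMap k Ω ζ) ℓ :=
        hζ.map_of_injective (algebraMap k Ω).injective
      have : NeZero ℓ := ⟨hℓ.ne_zero⟩
      obtain ⟨i, hi1, hi2⟩ := hζΩ.eq_pow_of_pow_eq_one hpoly
      have h5 : VPos v (η / e / s - 1) := by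
        have h6 : η / e / s - 1 = (η / e - 1) * s⁻¹ + -((s - 1) * s⁻¹) := by
          field_simp; ring
        have hsv : v s = 0 := by
          have := LU1.val_add_vpos (v := v) one_ne_zero v.map_one hs1
          rw [add_sub_cancel] at this
          exact this.2
        have hsi : v.Ge 0 s⁻¹ := fun _ => by rw [v.map_inv hs0, hsv, neg_zero]
        rw [h6]
        exact (hu.mul hsi).add (hs1.mul hsi).neg
      rw [← hi2, ← _root_.map_pow, ← _root_.map_one (algebraMap k Ω), ← _root_.map_sub] at h5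
      have h7 := h.const_eq_zero h5
      apply hne
      have h8 : η / e / s = 1 := by
        rw [← hi2, ← _root_.map_pow, sub_eq_zero.1 h7, _root_.map_one]
      rwa [div_eq_one_iff_eq hs0] at h8
    have hηCl : η ∈ Cl v F.toSubfield := by
      have h9 : η = s * e := by rw [← hse, div_mul_cancel₀ _ he0]
      rw [h9]
      exact Cl.mul hs (Cl.subset heF)
    intro a ha
    rw [hadj] at ha
    have hle : LU1.adj (fixO F N B) η ≤
        ({ (clF v F.toSubfield) with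
          algebraMap_mem' := fun c => Cl.subset (F.algebraMap_mem c) } : IntermediateField k Ω) := by
      unfold LU1.adj
      refine sup_le ?_ ?_
      · intro b hb; exact hB b hb
      · rw [IntermediateField.adjoin_le_iff]
        rintro _ rfl
        exact hηCl
    exact hle ha
  · intro _ a ha
    have h2 := cl_dec h F N ⊤ a (by rwa [inf_top_eq])
    rwa [LU1.fixO_top] at h2

/-- The values of the fixed field of `decG ⊓ H` are values of `F`. -/
theorem val_eq' (h : Ctx0 k v) (F : IntermediateField k Ω) (N : IntermediateField F Ω)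
    [FiniteDimensional F N] [IsGalois F N] (H : Subgroup (N ≃ₐ[F] N))
    (hG : ∀ ℓ : ℕ, ℓ.Prime → ℓ ≤ H.relIndex (decG v F N) → ∀ a ∈ fixO F N H, a ≠ 0 →
      ∃ b ∈ fixO F N H, b ≠ 0 ∧ ∃ c ∈ F, c ≠ 0 ∧ v a = v c + (ℓ : ℝ) * v b)
    {a : Ω} (ha : a ∈ fixO F N (decG v F N ⊓ H)) (ha0 : a ≠ 0) :
    ∃ c ∈ F, c ≠ 0 ∧ v c = v a := by
  obtain ⟨b, hbK, hb0, hbv, -⟩ := Cl.exists_val (cl_dec h F N H a ha) 0 ha0
  obtain ⟨c, hc, hc0, hcv⟩ := val_eq h F N H hG hbK hb0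
  exact ⟨c, hc, hc0, by rw [hcv, hbv]⟩

/-- Henselian rationality, Galois form. -/
theorem cl_of_divisible [IsAlgClosed k] [IsAlgClosed Ω] (p : ℕ) (hp : p.Prime) [CharP k p]
    (h : Ctx0 k v) (F : IntermediateField k Ω) (N : IntermediateField F Ω)
    [FiniteDimensional F N] [IsGalois F N] (H : Subgroup (N ≃ₐ[F] N))
    (hi : H.relIndex (decG v F N) < p)
    (hG : ∀ ℓ : ℕ, ℓ.Prime → ℓ ≤ H.relIndex (decG v F N) → ∀ a ∈ fixO F N H, a ≠ 0 →
      ∃ b ∈ fixO F N H, b ≠ 0 ∧ ∃ c ∈ F, c ≠ 0 ∧ v a = v c + (ℓ : ℝ) * v b) :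
    ∀ a ∈ fixO F N H, a ∈ Cl v F.toSubfield := by
  classical
  have hfin : Finite (N ≃ₐ[F] N) := inferInstance
  obtain ⟨V, hVD, -, hVp, hab, hpp⟩ := exists_ramG0 (v := v) p hp h F N
  have hDH : (decG v F N ⊓ H).relIndex (decG v F N) = H.relIndex (decG v F N) := by
    rw [inf_comm]; exact Subgroup.inf_relIndex_right H _
  have hVH : V ≤ H := ram_le p hp _ V H hVD hVp (by rw [hDH]; exact hi)
  intro a ha
  refine cl_of_vals p hp h F N V (decG v F N ⊓ H) hVD hab hpp (le_inf hVD hVH) inf_le_left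
    (fun a ha ha0 => val_eq' h F N H hG ha ha0) a ?_
  obtain ⟨n, hn, hn'⟩ := (mem_fixO F N H a).1 ha
  exact (mem_fixO F N _ a).2 ⟨n, hn, fun σ hσ => hn' σ (Subgroup.mem_inf.1 hσ).2⟩

/-- Elements of `N` in the closure of `F` are fixed by the decomposition group. -/
theorem fix_of_cl (F : IntermediateField k Ω) (N : IntermediateField F Ω) (a : N)
    (ha : (a : Ω) ∈ Cl v F.toSubfield) (σ : N ≃ₐ[F] N) (hσ : σ ∈ decG v F N) : σ a = a := by
  by_contra hne
  have hne' : (σ a : Ω) - (a : Ω) ≠ 0 := by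
    intro h0
    exact hne (Subtype.ext (sub_eq_zero.1 h0))
  obtain ⟨c, hc, hca⟩ := ha (v ((σ a : Ω) - (a : Ω)) + 1)
  have h1 : v.Ge (v ((σ a : Ω) - (a : Ω)) + 1) ((σ a : Ω) - c) := by
    intro h0
    have h2 : ((σ a : Ω) - c) = ((σ (a - ⟨algebraMap F N ⟨c, hc⟩, (algebraMap F N ⟨c, hc⟩).2⟩) : N) : Ω) := by
      rw [_root_.map_sub]
      have h3 : σ ⟨algebraMap F N ⟨c, hc⟩, (algebraMap F N ⟨c, hc⟩).2⟩ =
          algebraMap F N ⟨c, hc⟩ := σ.commutes ⟨c, hc⟩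
      rw [h3]
      rfl
    rw [h2] at h0 ⊢
    rw [hσ]
    refine hca ?_
    intro h4
    apply h0
    have h5 : (a - ⟨algebraMap F N ⟨c, hc⟩, (algebraMap F N ⟨c, hc⟩).2⟩ : N) = 0 :=
      Subtype.ext h4
    rw [h5, _root_.map_zero]
    rfl
  have h6 : (σ a : Ω) - (a : Ω) = ((σ a : Ω) - c) + -((a : Ω) - c) := by ring
  have h7 : v.Ge (v ((σ a : Ω) - (a : Ω)) + 1) ((σ a : Ω) - (a : Ω)) := by
    rw [h6] at h1 hca ⊢
    exact h1.add hca.neg
  have h8 := h7 hne'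
  linarith

/-- The local degree is a power of `p`, for every `p`. -/
theorem relIndex_eq_pow [IsAlgClosed k] [IsAlgClosed Ω] (p : ℕ) (hp : p.Prime) [CharP k p]
    (h : Ctx0 k v) (F : IntermediateField k Ω) (N : IntermediateField F Ω)
    [FiniteDimensional F N] [IsGalois F N] (H : Subgroup (N ≃ₐ[F] N))
    (hG : ∀ ℓ : ℕ, ℓ.Prime → ℓ ≤ H.relIndex (decG v F N) → ∀ a ∈ fixO F N H, a ≠ 0 →
      ∃ b ∈ fixO F N H, b ≠ 0 ∧ ∃ c ∈ F, c ≠ 0 ∧ v a = v c + (ℓ : ℝ) * v b) :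
    ∃ ν : ℕ, H.relIndex (decG v F N) = p ^ ν := by
  classical
  have hfin : Finite (N ≃ₐ[F] N) := inferInstance
  have hpF : Fact p.Prime := ⟨hp⟩
  obtain ⟨V, hVD, hVn, hVp, hab, hpp⟩ := exists_ramG0 (v := v) p hp h F N
  set D := decG v F N with hD
  have hA : V ⊔ (D ⊓ H) = D := by
    have hle : V ⊔ (D ⊓ H) ≤ D := sup_le hVD inf_le_left
    have hcl := cl_of_vals p hp h F N V (V ⊔ (D ⊓ H)) hVD hab hpp le_sup_left hle
      (fun a ha ha0 => val_eq' h F N H hG (by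
        obtain ⟨n, hn, hn'⟩ := (mem_fixO F N _ a).1 ha
        exact (mem_fixO F N _ a).2 ⟨n, hn, fun σ hσ => hn' σ (le_sup_right (a := V) hσ)⟩) ha0)
    refine le_antisymm hle ?_
    have h1 : IntermediateField.fixedField (V ⊔ (D ⊓ H)) ≤ IntermediateField.fixedField D := by
      intro n hn
      rw [IntermediateField.mem_fixedField_iff] at hn ⊢
      intro σ hσ
      refine fix_of_cl F N n (hcl n ((mem_fixO F N _ _).2 ⟨n, rfl, hn⟩)) σ hσ
    have h2 := IntermediateField.fixingSubgroup_antitone h1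
    rwa [IntermediateField.fixingSubgroup_fixedField,
      IntermediateField.fixingSubgroup_fixedField] at h2
  obtain ⟨ν, hν⟩ := relIndex_eq_pow_of_sup p hp D V (D ⊓ H) hVD inf_le_left hVn hVp hA
  refine ⟨ν, ?_⟩
  rw [← hν, inf_comm]
  exact (Subgroup.inf_relIndex_right H D).symm

end HR

end Pool.Agent.D2
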