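import Pool.Agent.Lib.D2.HRT
import Pool.Agent.Lib.D2.FIN3
import Pool.Agent.Lib.D2.Fin1

/-!
# D2, HRK: henselian rationality for abstract function fields
-/

set_option autoImplicit false

open Pool.Agent.H15JM (RVal)
open Pool.Agent.LU1 (VPos fixO mem_fixO decG)
open Pool.Agent.LU2 (IsR1 IndVal IndRes Rel vring rel_vring)
open scoped Pointwise

namespace Pool.Agent.D2

namespace HR

universe u

variable {k K : Type u} [Field k] [Field K] [Algebra k K]

/-- The standing assumptions for the algebraic closure, any rational rank. -/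
theorem exists_ctx [IsAlgClosed k] (V : ValuationSubring K) (hk : ∀ c : k, algebraMap k K c ∈ V)
    (hR : IsR1 V) (hres : ∀ f ∈ V, ∃ c : k, V.valuation (f - algebraMap k K c) < 1)
    {n : ℕ} (hn : Algebra.trdeg k K = n) :
    ∃ (v : RVal K) (w : RVal (AlgebraicClosure K)) (r D : ℕ), n = r + D ∧ Rel V v ∧
      (∀ g : K, g ≠ 0 → w (algebraMap K (AlgebraicClosure K) g) = v g) ∧
      TA.CtxR k w n r := by
  classical
  obtain ⟨v, w, hrel, hw, -, -, hpos⟩ := LUC.exists_entry V hR
  -- the empty family of residues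
  have hz : IndRes k V (Fin.elim0 : Fin 0 → K) := by
    refine ⟨fun i => i.elim0, fun P hP => ?_⟩
    obtain ⟨c, rfl⟩ := MvPolynomial.C_surjective (R := k) (Fin 0) P
    rw [MvPolynomial.aeval_C] at hP
    by_contra hc
    have hc0 : c ≠ 0 := fun h => hc (by rw [h, map_zero])
    have h1 : V.valuation (algebraMap k K c) * V.valuation (algebraMap k K c⁻¹) = 1 := by
      rw [← map_mul, ← map_mul, mul_inv_cancel₀ hc0, map_one, map_one]
    have h2 : V.valuation (algebraMap k K c⁻¹) ≤ 1 := (V.valuation_le_one_iff _).2 (hk _)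
    have h3 : V.valuation (algebraMap k K c) * V.valuation (algebraMap k K c⁻¹) < 1 :=
      mul_lt_one_of_lt_of_le hP h2
    rw [h1] at h3
    exact lt_irrefl _ h3
  -- a maximal family of independent values
  have hbd : ∀ r : ℕ, (∃ x : Fin r → K, IndVal V x) → r ≤ n := by
    rintro r ⟨x, hx⟩
    have h1 := LU2.abhyankar hk hx hz
    rw [hn] at h1
    exact_mod_cast h1
  have h0 : ∃ x : Fin 0 → K, IndVal V x :=
    ⟨Fin.elim0, fun i => i.elim0, fun e _ => Subsingleton.elim _ _⟩
  obtain ⟨r, ⟨x, hx⟩, hmax⟩ : ∃ r : ℕ, (∃ x : Fin r → K, IndVal V x) ∧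
      ¬ ∃ x : Fin (r + 1) → K, IndVal V x := by
    by_contra hcon
    push Not at hcon
    have h1 : ∀ r : ℕ, ∃ x : Fin r → K, IndVal V x := by
      intro r
      induction r with
      | zero => exact h0
      | succ r ih =>
        obtain ⟨x, hx⟩ := ih
        exact hcon r ⟨x, hx⟩
    have := hbd (n + 1) (h1 (n + 1))
    omega
  have hrn := hbd r ⟨x, hx⟩
  have hxv := hrel.indVal_iff.1 hx
  have hspan : ∀ g : K, g ≠ 0 → v g ∈ Submodule.span ℚ (Set.range fun i => v (x i)) := by
    intro g hg
    by_contra hcon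
    apply hmax
    refine ⟨Fin.cons g x, hrel.indVal_iff.2 ⟨?_, ?_⟩⟩
    · intro i
      refine Fin.cases hg (fun j => ?_) i
      exact hxv.1 j
    · have h1 : (fun i => v ((Fin.cons g x : Fin (r + 1) → K) i)) =
          (Fin.cons (v g) (fun i => v (x i)) : Fin (r + 1) → ℝ) := by
        funext i
        refine Fin.cases rfl (fun j => rfl) i
      rw [h1, linearIndependent_finCons]
      exact ⟨hxv.2, hcon⟩
  have htriv : ∀ c : k, c ≠ 0 → v (algebraMap k K c) = 0 := by
    intro c hc
    have hc' : algebraMap k K c ≠ 0 := by rwa [_root_.map_ne_zero]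
    have h1 := (hrel _ hc').1 (hk c)
    have h2 := (hrel _ (inv_ne_zero hc')).1 (by rw [← map_inv₀]; exact hk c⁻¹)
    rw [v.map_inv hc'] at h2
    linarith
  have hc0 : Ctx0 k v := by
    refine ⟨htriv, fun g hg hg0 => ?_⟩
    obtain ⟨c, hc⟩ := hres g ((hrel g hg).2 hg0.ge)
    have hc1 := (hrel.lt_one_iff' _).1 hc
    refine ⟨c, ?_, hc1⟩
    rintro rfl
    rw [_root_.map_zero, sub_zero] at hc1
    have h1 := hc1 hg
    rw [hg0] at h1
    exact lt_irrefl _ h1
  refine ⟨v, w, r, n - r, by omega, hrel, hw, ?_⟩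
  refine { triv := ?_, res := residue_ext0 v hc0 w hw, trdeg := ?_, rank := ?_ }
  · intro c hc
    rw [IsScalarTower.algebraMap_apply k K (AlgebraicClosure K),
      hw _ (by rwa [_root_.map_ne_zero]), htriv c hc]
  · have h1 := _root_.trdeg_add_eq k K (A := AlgebraicClosure K)
    have h2 : Algebra.trdeg K (AlgebraicClosure K) = 0 := trdeg_eq_zero
    rw [h2, add_zero] at h1
    rw [← h1, hn]
  · have hXw : (fun i => w (algebraMap K (AlgebraicClosure K) (x i))) = fun i => v (x i) := by
      funext i
      exact hw _ (hxv.1 i)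
    refine ⟨fun i => algebraMap K (AlgebraicClosure K) (x i), fun i => by
      simpa using hxv.1 i, ?_, ?_⟩
    · rw [hXw]; exact hxv.2
    · rw [hXw]
      exact LU1.ExtVal_H2.val_mem_span v w hw _ hspan

section Dec

variable {Ω : Type u} [Field Ω] [Algebra k Ω]

/-- The decomposition groups are those of Mathlib. -/
theorem decG_eq (w : RVal Ω) (F : IntermediateField k Ω) (N : IntermediateField F Ω)
    [FiniteDimensional F N] :
    decG w F N = ((vring w).comap (algebraMap N Ω)).decompositionSubgroup F := by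
  have hmem : ∀ x : N, x ∈ (vring w).comap (algebraMap N Ω) ↔ w.Ge 0 (x : Ω) := fun x => Iff.rfl
  ext σ
  rw [MulAction.mem_stabilizer_iff]
  constructor
  · intro hσ
    ext x
    rw [ValuationSubring.mem_smul_pointwise_iff_exists]
    have h1 : ∀ y : N, w.Ge 0 (y : Ω) ↔ w.Ge 0 (σ y : Ω) := by
      intro y
      have h2 : w (σ y : Ω) = w (y : Ω) := hσ y
      have h3 : (σ y : Ω) ≠ 0 ↔ (y : Ω) ≠ 0 := by
        rw [not_iff_not, ZeroMemClass.coe_eq_zero, ZeroMemClass.coe_eq_zero]
        exact map_eq_zero σ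
      constructor
      · intro h h0
        rw [h2]
        exact h (h3.1 h0)
      · intro h h0
        rw [← h2]
        exact h (h3.2 h0)
    constructor
    · rintro ⟨y, hy, rfl⟩
      rw [hmem] at hy ⊢
      exact (h1 y).1 hy
    · intro hx
      refine ⟨σ.symm x, ?_, σ.apply_symm_apply x⟩
      rw [hmem] at hx ⊢
      rw [h1, σ.apply_symm_apply]
      exact hx
  · intro hσ
    have h1 : ∀ y : N, w.Ge 0 (y : Ω) ↔ w.Ge 0 (σ y : Ω) := by
      intro y
      rw [← hmem y, ← hmem (σ y)]
      constructor
      · intro hy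
        rw [← hσ, ValuationSubring.mem_smul_pointwise_iff_exists]
        exact ⟨y, hy, rfl⟩
      · intro hy
        rw [← hσ, ValuationSubring.mem_smul_pointwise_iff_exists] at hy
        obtain ⟨z, hz, hz'⟩ := hy
        have : z = y := σ.injective hz'
        rwa [← this]
    have hc : ∀ y : N, (σ y : Ω) ≠ 0 ↔ (y : Ω) ≠ 0 := by
      intro y
      rw [not_iff_not, ZeroMemClass.coe_eq_zero, ZeroMemClass.coe_eq_zero]
      exact map_eq_zero σ
    -- the order of the values is preserved
    have h2 : ∀ x y : N, (x : Ω) ≠ 0 → (y : Ω) ≠ 0 →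
        (w (x : Ω) ≤ w (y : Ω) ↔ w (σ x : Ω) ≤ w (σ y : Ω)) := by
      intro x y hx hy
      have h3 : ∀ a b : Ω, a ≠ 0 → b ≠ 0 → (w.Ge 0 (b * a⁻¹) ↔ w a ≤ w b) := by
        intro a b ha hb
        have h4 : w (b * a⁻¹) = w b - w a := by
          rw [w.map_mul hb (inv_ne_zero ha), w.map_inv ha]; ring
        constructor
        · intro h
          have := h (mul_ne_zero hb (inv_ne_zero ha))
          rw [h4] at this
          linarith
        · intro h _
          rw [h4]
          linarith
      rw [← h3 _ _ hx hy, ← h3 _ _ ((hc x).2 hx) ((hc y).2 hy)]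
      have h4 := h1 (y * x⁻¹)
      have h5 : ((y * x⁻¹ : N) : Ω) = (y : Ω) * (x : Ω)⁻¹ := by push_cast; rfl
      have h6 : ((σ (y * x⁻¹) : N) : Ω) = (σ y : Ω) * (σ x : Ω)⁻¹ := by
        rw [map_mul, map_inv₀]; push_cast; rfl
      rw [h5, h6] at h4
      exact h4
    have h3 : ∀ x y : N, (x : Ω) ≠ 0 → (y : Ω) ≠ 0 →
        (w (x : Ω) < w (y : Ω) ↔ w (σ x : Ω) < w (σ y : Ω)) := by
      intro x y hx hy
      rw [← not_le, ← not_le, h2 y x hy hx]
    have hfin : IsOfFinOrder σ := isOfFinOrder_of_finite σ
    obtain ⟨m, hm, hσm⟩ := isOfFinOrder_iff_pow_eq_one.1 hfin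
    intro y
    by_cases hy : (y : Ω) = 0
    · have : y = 0 := by ext; exact hy
      rw [this, map_zero]
    have hpow : ∀ i : ℕ, ((σ ^ i) y : Ω) ≠ 0 := by
      intro i
      rw [Ne, ZeroMemClass.coe_eq_zero, map_eq_zero]
      intro h
      exact hy (by rw [h]; rfl)
    have hstep : ∀ i : ℕ, (σ ^ (i + 1)) y = σ ((σ ^ i) y) := by
      intro i
      rw [pow_succ', AlgEquiv.mul_apply]
    rcases lt_trichotomy (w (y : Ω)) (w (σ y : Ω)) with hlt | heq | hgt
    · exfalso
      have h4 : ∀ i : ℕ, w ((σ ^ i) y : Ω) < w ((σ ^ (i + 1)) y : Ω) := by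
        intro i
        induction i with
        | zero => simpa using hlt
        | succ i ih =>
          rw [hstep i, hstep (i + 1)]
          exact (h3 _ _ (hpow i) (hpow (i + 1))).1 ih
      have h5 : StrictMono fun i : ℕ => w ((σ ^ i) y : Ω) := strictMono_nat_of_lt_succ h4
      have h6 := h5 hm
      simp only [hσm, pow_zero] at h6
      exact lt_irrefl _ h6
    · exact heq.symm
    · exfalso
      have h4 : ∀ i : ℕ, w ((σ ^ (i + 1)) y : Ω) < w ((σ ^ i) y : Ω) := by
        intro i
        induction i with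
        | zero => simpa using hgt
        | succ i ih =>
          rw [hstep i, hstep (i + 1)]
          exact (h3 _ _ (hpow (i + 1)) (hpow i)).1 ih
      have h5 : StrictAnti fun i : ℕ => w ((σ ^ i) y : Ω) := strictAnti_nat_of_succ_lt h4
      have h6 := h5 hm
      simp only [hσm, pow_zero] at h6
      exact lt_irrefl _ h6

end Dec

section Main

variable [IsAlgClosed k]

/-- Henselian rationality for abstract function fields. -/
theorem exists_rationalK (p : ℕ) (hp : p.Prime) [CharP k p]
    (hK : (⊤ : IntermediateField k K).FG)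
    (V : ValuationSubring K) (hk : ∀ c : k, algebraMap k K c ∈ V) (hR : IsR1 V)
    (hres : ∀ f ∈ V, ∃ c : k, V.valuation (f - algebraMap k K c) < 1) {n : ℕ}
    (hn : Algebra.trdeg k K = n) :
    ∃ z : Fin n → K, AlgebraicIndependent k z ∧ (∀ i, V.valuation (z i) < 1) ∧
      FiniteDimensional (IntermediateField.adjoin k (Set.range z)) K ∧
      Algebra.IsSeparable (IntermediateField.adjoin k (Set.range z)) K ∧
      (∀ a : K, ∃ c ∈ IntermediateField.adjoin k (Set.range z),
        V.valuation c = V.valuation a) ∧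
      (∃ W : ValuationSubring (AlgebraicClosure K),
        W.comap (algebraMap K (AlgebraicClosure K)) = V ∧
        ∀ F : IntermediateField k (AlgebraicClosure K),
          F = IntermediateField.adjoin k
            (Set.range fun i => algebraMap K (AlgebraicClosure K) (z i)) →
          ∀ (N : IntermediateField F (AlgebraicClosure K)) [FiniteDimensional F N]
            [IsGalois F N], (∀ a : K, algebraMap K (AlgebraicClosure K) a ∈ N) →
            ∃ ν : ℕ, p ^ ν ≤ 2 ^ n * n.factorial ∧
              (fixingSubgroup (N ≃ₐ[F] N) {x : N | (x : AlgebraicClosure K) ∈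
                Set.range (algebraMap K (AlgebraicClosure K))}).relIndex
                  ((W.comap (algebraMap N (AlgebraicClosure K))).decompositionSubgroup F) =
                    p ^ ν) ∧
      (2 ^ n * n.factorial < p → ∀ a b : K, b ≠ 0 →
        ∃ c ∈ IntermediateField.adjoin k (Set.range z),
          V.valuation (a - c) < V.valuation b) := by
  classical
  obtain ⟨v, w, r, D, hnrD, hrel, hw, hctx⟩ := exists_ctx V hk hR hres hn
  let Ω : Type u := AlgebraicClosure K
  let ι : K →ₐ[k] Ω := IsScalarTower.toAlgHom k K Ω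
  have hι : ∀ a : K, ι a = algebraMap K Ω a := fun a => rfl
  have hιinj : Function.Injective ι := ι.injective
  let L : IntermediateField k Ω := ι.fieldRange
  have hmemL : ∀ g : Ω, g ∈ L ↔ ∃ a : K, ι a = g := fun g => Iff.rfl
  obtain ⟨S, hS⟩ := hK
  have hLfg : L = IntermediateField.adjoin k ((S.image ι : Finset Ω) : Set Ω) := by
    rw [Finset.coe_image, ← IntermediateField.adjoin_map, hS]
    exact AlgHom.fieldRange_eq_map ι
  have halg : ∀ g : Ω, IsAlgebraic L g := by
    intro g
    obtain ⟨P, hP0, hP⟩ := (Algebra.IsAlgebraic.isAlgebraic g : IsAlgebraic K g)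
    let j : K →+* L := (ι.rangeRestrict : K →ₐ[k] ι.range).toRingHom
    refine ⟨P.map j, ?_, ?_⟩
    · exact (Polynomial.map_ne_zero_iff j.injective).2 hP0
    · rw [Polynomial.aeval_def, Polynomial.eval₂_map]
      exact hP
  obtain ⟨x, y, hx, -, hy, hai, hF⟩ := exists_rational p hp hctx hnrD L ⟨_, hLfg⟩ halg
  obtain ⟨F, hFdef⟩ : ∃ F : IntermediateField k (AlgebraicClosure K),
    F = IntermediateField.adjoin k (Set.range x ∪ Set.range y) := ⟨_, rfl⟩
  obtain ⟨hFL, hsep, hval, hN, hcl⟩ := hF F hFdef
  -- the family `z`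
  let e : Fin r ⊕ Fin D ≃ Fin n := finSumFinEquiv.trans (finCongr hnrD.symm)
  have hzΩ : ∀ i : Fin n, ∃ a : K, ι a = Sum.elim x y (e.symm i) ∧ 0 < w (ι a) := by
    intro i
    rcases h : e.symm i with j | j
    · obtain ⟨a, ha⟩ := (hmemL _).1 (hx j).1
      exact ⟨a, ha, by rw [ha]; exact (hx j).2.2⟩
    · obtain ⟨a, ha⟩ := (hmemL _).1 (hy j).1
      exact ⟨a, ha, by rw [ha]; exact (hy j).2.2⟩
  choose z hz hz0 using hzΩ
  have hrange : Set.range (fun i => ι (z i)) = Set.range x ∪ Set.range y := by
    have h1 : (fun i => ι (z i)) = Sum.elim x y ∘ e.symm := funext hz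
    rw [h1, e.symm.surjective.range_comp, Set.Sum.elim_range]
  have hz' : AlgebraicIndependent k z := by
    refine AlgebraicIndependent.of_comp ι ?_
    have h1 : ι ∘ z = Sum.elim x y ∘ e.symm := funext hz
    rw [h1]
    exact hai.comp _ e.symm.injective
  have hzne : ∀ i, z i ≠ 0 := hz'.ne_zero
  let F₀ : IntermediateField k K := IntermediateField.adjoin k (Set.range z)
  have hF₀ : F₀.map ι = F := by
    show (IntermediateField.adjoin k (Set.range z)).map ι = _
    rw [IntermediateField.adjoin_map, hFdef, ← hrange]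
    congr 1
    exact (Set.range_comp ι z).symm
  have hmemF : ∀ g : Ω, g ∈ F ↔ ∃ a ∈ F₀, ι a = g := by
    intro g
    rw [← hF₀]
    exact IntermediateField.mem_map F₀
  -- separability
  have hsepK : ∀ a : K, IsSeparable F₀ a := by
    intro a
    have h1 : IsSeparable F (ι a) := hsep _ ((hmemL _).2 ⟨a, rfl⟩)
    let f : F₀ →+* F :=
      { toFun := fun c => ⟨ι c, (hmemF _).2 ⟨c, c.2, rfl⟩⟩
        map_one' := by ext; exact ι.map_one
        map_mul' := fun c d => by ext; exact ι.map_mul _ _
        map_zero' := by ext; exact ι.map_zero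
        map_add' := fun c d => by ext; exact ι.map_add _ _ }
    have hf : Function.Bijective f := by
      refine ⟨f.injective, fun g => ?_⟩
      obtain ⟨c, hc, hcg⟩ := (hmemF _).1 g.2
      exact ⟨⟨c, hc⟩, Subtype.ext hcg⟩
    let fe : F₀ ≃+* F := RingEquiv.ofBijective f hf
    have h2 : ((minpoly F (ι a)).map (fe.symm : F →+* F₀)).Separable :=
      Polynomial.Separable.map (show (minpoly F (ι a)).Separable from h1)
    have h3 : Polynomial.aeval a ((minpoly F (ι a)).map (fe.symm : F →+* F₀)) = 0 := by
      apply hιinj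
      rw [map_zero]
      have h4 : (ι : K →+* Ω).comp ((algebraMap F₀ K).comp (fe.symm : F →+* F₀)) =
          algebraMap F Ω := by
        ext g
        have h5 : fe (fe.symm g) = g := fe.apply_symm_apply g
        exact congrArg (fun t : F => (t : Ω)) h5
      rw [Polynomial.aeval_def, Polynomial.eval₂_map]
      have h6 := Polynomial.hom_eval₂ (minpoly F (ι a))
        ((algebraMap F₀ K).comp (fe.symm : F →+* F₀)) (ι : K →+* Ω) a
      rw [h4] at h6
      exact h6.trans (minpoly.aeval F (ι a))
    exact h2.of_dvd (minpoly.dvd F₀ a h3)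
  have hsepA : Algebra.IsSeparable F₀ K := ⟨hsepK⟩
  have hfd : FiniteDimensional F₀ K := by
    have h1 : IntermediateField.adjoin F₀ (S : Set K) = ⊤ := by
      rw [eq_top_iff]
      intro a _
      have h2 : a ∈ (⊤ : IntermediateField k K) := IntermediateField.mem_top
      rw [← hS] at h2
      have h3 : IntermediateField.adjoin k (S : Set K) ≤
          (IntermediateField.adjoin F₀ (S : Set K)).restrictScalars k := by
        rw [IntermediateField.adjoin_le_iff]
        exact fun s hs => IntermediateField.subset_adjoin F₀ _ hs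
      exact h3 h2
    have h2 : FiniteDimensional F₀ (IntermediateField.adjoin F₀ (S : Set K)) :=
      IntermediateField.finiteDimensional_adjoin fun s _ => (hsepK s).isIntegral
    rw [h1] at h2
    exact (IntermediateField.topEquiv (F := F₀) (E := K)).toLinearEquiv.finiteDimensional
  refine ⟨z, hz', fun i => ?_, hfd, hsepA, fun a => ?_, ?_, fun hpn a b hb => ?_⟩
  · rw [hrel.lt_one_iff (hzne i), ← hw _ (hzne i)]
    exact hz0 i
  · by_cases ha : a = 0
    · exact ⟨0, zero_mem _, by rw [ha]⟩
    · obtain ⟨c', hc', hc0, hcv⟩ := hval (ι a) ((hmemL _).2 ⟨a, rfl⟩)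
        (fun h => ha (hιinj (by rw [h, map_zero])))
      obtain ⟨c, hc, rfl⟩ := (hmemF _).1 hc'
      have hc00 : c ≠ 0 := fun h => hc0 (by rw [h, map_zero])
      refine ⟨c, hc, ?_⟩
      rw [hrel.eq_iff hc00 ha, ← hw _ hc00, ← hw _ ha]
      exact hcv
  · refine ⟨vring w, ?_, ?_⟩
    · ext a
      rw [ValuationSubring.mem_comap]
      by_cases ha : a = 0
      · subst ha
        rw [map_zero]
        exact ⟨fun _ => V.zero_mem, fun _ => (vring w).zero_mem⟩
      · rw [hrel a ha, ← hw a ha]
        have h1 : algebraMap K Ω a ≠ 0 := (_root_.map_ne_zero _).2 ha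
        exact ⟨fun h => h h1, fun h _ => h⟩
    · intro F' hF'
      have hFF : F' = F := by
        rw [hF']
        show IntermediateField.adjoin k (Set.range fun i => ι (z i)) = _
        rw [hrange, hFdef]
      rw [hFF]
      intro N _ _ hKN
      obtain ⟨H, hH⟩ := LU1.exists_fixO_eq F N L hFL (by
        intro g hg
        obtain ⟨a, rfl⟩ := (hmemL _).1 hg
        exact hKN a)
      obtain ⟨h1, ν, h2⟩ := hN N H hH
      refine ⟨ν, by rw [← h2]; exact h1, ?_⟩
      rw [← decG_eq w F N, ← h2]
      congr 1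
      -- `H` is the fixing subgroup
      have h3 : IntermediateField.fixingSubgroup (IntermediateField.fixedField H) = H :=
        IntermediateField.fixingSubgroup_fixedField H
      rw [← h3]
      ext σ
      rw [mem_fixingSubgroup_iff, IntermediateField.mem_fixingSubgroup_iff]
      have h4 : ∀ m : N, m ∈ IntermediateField.fixedField H ↔
          (m : Ω) ∈ Set.range (algebraMap K (AlgebraicClosure K)) := by
        intro m
        have h5 : (m : Ω) ∈ fixO F N H ↔ (m : Ω) ∈ L := by rw [hH]
        rw [mem_fixO] at h5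
        rw [IntermediateField.mem_fixedField_iff]
        constructor
        · intro h6
          exact (hmemL _).1 (h5.1 ⟨m, rfl, h6⟩)
        · intro h6
          obtain ⟨m', hm', h7⟩ := h5.2 ((hmemL _).2 h6)
          have : m' = m := Subtype.ext hm'
          rwa [← this]
      constructor
      · intro h m hm
        exact h m ((h4 m).1 hm)
      · intro h m hm
        exact h m ((h4 m).2 hm)
  · obtain ⟨c', hc', hcb⟩ := hcl hpn (ι a) ((hmemL _).2 ⟨a, rfl⟩) (v b + 1)
    obtain ⟨c, hc, rfl⟩ := (hmemF _).1 hc'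
    refine ⟨c, hc, ?_⟩
    by_cases h0 : a - c = 0
    · rw [h0, map_zero]
      exact zero_lt_iff.2 ((Valuation.ne_zero_iff _).2 hb)
    · rw [hrel.lt_iff h0 hb, ← hw _ h0]
      have h1 : ι a - ι c ≠ 0 := by
        rw [← map_sub]
        exact fun h => h0 (hιinj (by rw [h, map_zero]))
      have h2 := hcb h1
      rw [← map_sub] at h2
      have h3 : w (ι (a - c)) = w (algebraMap K Ω (a - c)) := rfl
      rw [h3] at h2
      linarith

end Main

/-- Log uniformization of a valuation ring with a dense rational subfield of the same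
transcendence degree. -/
theorem logUniformizable_of_dense {k : Type} [Field k] [IsAlgClosed k] (A : Type) [CommRing A]
    [IsDomain A] [Algebra k A] [Algebra.EssFiniteType k A]
    (V : ValuationSubring (FractionRing A)) (hV : ∀ a : A, algebraMap A (FractionRing A) a ∈ V)
    {n : ℕ} (z : Fin n → FractionRing A)
    [hsep : Algebra.IsSeparable (IntermediateField.adjoin k (Set.range z)) (FractionRing A)]
    (hdense : ∀ a b : FractionRing A, b ≠ 0 → ∃ c ∈ IntermediateField.adjoin k (Set.range z),
      V.valuation (a - c) < V.valuation b)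
    (hLU : LU2.LU k (V.comap (algebraMap (IntermediateField.adjoin k (Set.range z))
      (FractionRing A)))) : LU2G.LogUniformizable V := by
  classical
  have h1 : Algebra.EssFiniteType A (FractionRing A) :=
    Algebra.EssFiniteType.of_isLocalization _ (nonZeroDivisors A)
  have h2 : Algebra.EssFiniteType k (FractionRing A) :=
    Algebra.EssFiniteType.comp k A (FractionRing A)
  have hKtop : (⊤ : IntermediateField k (FractionRing A)).FG :=
    IntermediateField.fg_top_iff.2 h2
  obtain ⟨F, hF⟩ : ∃ F : IntermediateField k (FractionRing A),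
    F = IntermediateField.adjoin k (Set.range z) := ⟨_, rfl⟩
  rw [← hF] at hdense hLU hsep
  have hFfg : F.FG := by
    refine ⟨Finset.univ.image z, ?_⟩
    rw [Finset.coe_image, Finset.coe_univ, Set.image_univ, hF]
  have hFtop : (⊤ : IntermediateField k F).FG := by
    rw [← IntermediateField.essFiniteType_iff] at hFfg
    rw [IntermediateField.fg_top_iff]
    exact hFfg
  refine LU2G.logUniformizable_of_LU_ess k A V hV (LUC.lu_iff.2 ?_)
  refine LUC.ascent (LUC.ascends_lu k) V (fun a b hb => ?_) (LUC.fgField_of_fg hFtop)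
    (LUC.fgField_of_fg hKtop) ∅ ?_ ?_ (LUC.lu_iff.1 hLU)
  · obtain ⟨c, hc, hc'⟩ := hdense a b hb
    exact ⟨⟨c, hc⟩, hc'⟩
  · exact algebraicIndependent_empty_type
  · constructor
    intro a
    exact IsSeparable.tower_top _ (Algebra.IsSeparable.isSeparable F a)

end HR

end Pool.Agent.D2
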