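import Pool.Agent.Lib.D2.HR
import Pool.Agent.Lib.TA.Main

/-!
# Henselian rationality: adapted rational subfields

For a function field `E` with a real valuation with residue field `k` there is a rational
subfield `F = k(x, y)`, `E` finite separable over `F`, with the values of `E` and local degree a
power of `p` that is at most `2^n n!`; for `p > 2^n n!` the field `F` is dense in `E`.
-/

set_option autoImplicit false

namespace Pool.Agent.D2

open Pool.Agent.H15JM (RVal)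
open Pool.Agent.LU1 (VPos fixO decG mem_fixO)
open Pool.Agent.LUC
open Submodule

universe u

namespace HR

section gens

variable {M : Type*} [AddCommGroup M] [Module ℚ M]

/-- Independence modulo `ℓ`. -/
def IndMod (G : AddSubgroup M) (ℓ : ℕ) {N : ℕ} (g : Fin N → M) : Prop :=
  (∀ i, g i ∈ G) ∧ ∀ m : Fin N → ℤ, (∃ b ∈ G, ∑ i, m i • g i = (ℓ : ℤ) • b) → ∀ i, (ℓ : ℤ) ∣ m i

theorem IndMod.li {G : AddSubgroup M} {ℓ : ℕ} (hℓ : ℓ.Prime) {N : ℕ} {g : Fin N → M}
    (h : IndMod G ℓ g) : LinearIndependent ℚ g := by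
  rw [← LinearIndependent.iff_fractionRing ℤ ℚ, Fintype.linearIndependent_iff]
  have key : ∀ j : ℕ, ∀ m : Fin N → ℤ, ∑ i, m i • g i = 0 → ∀ i, (ℓ : ℤ) ^ j ∣ m i := by
    intro j
    induction j with
    | zero => intro m _ i; rw [pow_zero]; exact one_dvd _
    | succ j ih =>
      intro m hm
      have h1 := h.2 m ⟨0, G.zero_mem, by rw [hm, smul_zero]⟩
      choose m' hm' using h1
      have hℓ0 : (ℓ : ℤ) ≠ 0 := by exact_mod_cast hℓ.ne_zero
      have h2 : ∑ i, m' i • g i = 0 := by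
        have h3 : (ℓ : ℤ) • ∑ i, m' i • g i = 0 := by
          rw [← hm, Finset.smul_sum]
          refine Finset.sum_congr rfl fun i _ => ?_
          rw [smul_smul, hm' i]
        have h4 : (((ℓ : ℤ) : ℚ)) • ∑ i, m' i • g i = 0 := by
          rw [Int.cast_smul_eq_zsmul]; exact h3
        exact (smul_eq_zero.1 h4).resolve_left (by exact_mod_cast hℓ0)
      intro i
      rw [hm' i, pow_succ']
      exact mul_dvd_mul_left _ (ih m' h2 i)
  intro m hm i
  by_contra h0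
  have h1 : ∀ j : ℕ, (ℓ : ℤ) ^ j ∣ m i := fun j => key j m hm i
  have h2 := h1 (m i).natAbs
  rw [← Int.natAbs_dvd_natAbs, Int.natAbs_pow, Int.natAbs_natCast] at h2
  have h3 := Nat.le_of_dvd (Int.natAbs_pos.2 h0) h2
  have h4 : (m i).natAbs < ℓ ^ (m i).natAbs := Nat.lt_pow_self hℓ.one_lt
  omega

/-- A torsion free group of finite rational rank is finitely generated modulo `ℓ`. -/
theorem exists_gens (G : AddSubgroup M) {r : ℕ} (X : Fin r → M)
    (hX : ∀ g ∈ G, g ∈ span ℚ (Set.range X)) (ℓ : ℕ) (hℓ : ℓ.Prime) :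
    ∃ (N : ℕ) (g : Fin N → M), (∀ i, g i ∈ G) ∧
      ∀ a ∈ G, ∃ m : Fin N → ℤ, ∃ b ∈ G, a = ∑ i, m i • g i + (ℓ : ℤ) • b := by
  classical
  have hbound : ∀ N : ℕ, (∃ g : Fin N → M, IndMod G ℓ g) → N ≤ r := by
    rintro N ⟨g, hg⟩
    have h1 := hg.li hℓ
    have h2 : Set.range g ≤ span ℚ (Set.range X) := by
      rintro _ ⟨i, rfl⟩
      exact hX _ (hg.1 i)
    have h3 := linearIndependent_le_span' g h1 (Set.range X) h2
    have h4 : Fintype.card (Set.range X) ≤ r := by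
      have := Fintype.card_range_le X
      simpa using this
    rw [Cardinal.mk_fin, Nat.cast_le] at h3
    exact h3.trans h4
  have hex : ∃ N, ∃ g : Fin N → M, IndMod G ℓ g :=
    ⟨0, Fin.elim0, fun i => i.elim0, fun _ _ i => i.elim0⟩
  obtain ⟨N, ⟨g, hg⟩, hmax⟩ : ∃ N, (∃ g : Fin N → M, IndMod G ℓ g) ∧
      ¬ ∃ g : Fin (N + 1) → M, IndMod G ℓ g := by
    by_contra hcon
    push Not at hcon
    have h1 : ∀ N : ℕ, ∃ g : Fin N → M, IndMod G ℓ g := by
      intro N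
      induction N with
      | zero => obtain ⟨g⟩ : Nonempty (Fin 0 → M) := inferInstance
                exact ⟨g, fun i => i.elim0, fun _ _ i => i.elim0⟩
      | succ N ih =>
        by_contra h2
        push Not at h2
        obtain ⟨g, hg⟩ := hcon N ih
        exact h2 g hg
    have := hbound _ (h1 (r + 1))
    omega
  refine ⟨N, g, hg.1, fun a ha => ?_⟩
  have h1 : ¬ IndMod G ℓ (Fin.cons a g : Fin (N + 1) → M) := fun h => hmax ⟨_, h⟩
  unfold IndMod at h1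
  push Not at h1
  obtain ⟨m, ⟨b, hb, hmb⟩, i, hi⟩ := h1 (by
    intro i
    refine Fin.cases ?_ (fun i => ?_) i
    · rw [Fin.cons_zero]; exact ha
    · rw [Fin.cons_succ]; exact hg.1 i)
  rw [Fin.sum_univ_succ] at hmb
  simp only [Fin.cons_zero, Fin.cons_succ] at hmb
  have hm0 : ¬ (ℓ : ℤ) ∣ m 0 := by
    intro h2
    obtain ⟨w, hw⟩ := h2
    have h3 := hg.2 (fun i => m i.succ) ⟨b - w • a, G.sub_mem hb (G.zsmul_mem ha w), by
      rw [smul_sub, ← hmb, smul_smul, ← hw, add_sub_cancel_left]⟩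
    apply hi
    revert i
    intro i
    refine Fin.cases ?_ (fun i => ?_) i
    · intro _; exact ⟨w, hw⟩
    · intro _; exact h3 i
  have hcop : IsCoprime (ℓ : ℤ) (m 0) :=
    (Prime.coprime_iff_not_dvd (Nat.prime_iff_prime_int.1 hℓ)).2 hm0
  obtain ⟨s, t, hst⟩ := hcop
  refine ⟨fun i => - (t * m i.succ), t • b + s • a,
    G.add_mem (G.zsmul_mem hb t) (G.zsmul_mem ha s), ?_⟩
  have h2 : a = (s * ℓ + t * m 0) • a := by rw [hst, one_smul]
  have h3 : m 0 • a = (ℓ : ℤ) • b - ∑ i : Fin N, m i.succ • g i := by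
    rw [← hmb, add_sub_cancel_right]
  have h4 : ∑ i : Fin N, (-(t * m i.succ)) • g i = - (t • ∑ i : Fin N, m i.succ • g i) := by
    rw [Finset.smul_sum, ← Finset.sum_neg_distrib]
    refine Finset.sum_congr rfl fun i _ => ?_
    rw [neg_smul, smul_smul]
  rw [h4]
  conv_lhs => rw [h2]
  rw [add_smul, mul_smul t, h3, smul_sub, smul_add, smul_smul, smul_smul, smul_smul,
    mul_comm s (ℓ : ℤ), mul_comm t (ℓ : ℤ)]
  abel

end gens

variable {k Ω : Type u} [Field k] [Field Ω] [Algebra k Ω] {v : RVal Ω} {n r D : ℕ}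

/-- The value group of a subfield. -/
def vgrp (v : RVal Ω) (E : IntermediateField k Ω) : AddSubgroup ℝ where
  carrier := {a | ∃ e ∈ E, e ≠ 0 ∧ v e = a}
  add_mem' := by
    rintro _ _ ⟨e, he, he0, rfl⟩ ⟨f, hf, hf0, rfl⟩
    exact ⟨e * f, E.mul_mem he hf, mul_ne_zero he0 hf0, v.map_mul he0 hf0⟩
  zero_mem' := ⟨1, E.one_mem, one_ne_zero, v.map_one⟩
  neg_mem' := by
    rintro _ ⟨e, he, he0, rfl⟩
    exact ⟨e⁻¹, E.inv_mem he, inv_ne_zero he0, v.map_inv he0⟩

/-- Finitely many elements whose values generate the value group modulo all primes `≤ C`. -/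
theorem exists_reps (h : TA.CtxR k v n r) (E : IntermediateField k Ω) (C : ℕ) :
    ∃ Z : Finset Ω, (∀ z ∈ Z, z ∈ E ∧ z ≠ 0) ∧ ∀ ℓ : ℕ, ℓ.Prime → ℓ ≤ C → ∀ a ∈ E, a ≠ 0 →
      ∃ m : Ω → ℤ, ∃ b ∈ E, b ≠ 0 ∧ v a = ∑ z ∈ Z, (m z : ℝ) * v z + (ℓ : ℝ) * v b := by
  classical
  obtain ⟨X, hX0, -, hX⟩ := h.rank
  have h1 : ∀ ℓ : ℕ, ∃ Z : Finset Ω, (∀ z ∈ Z, z ∈ E ∧ z ≠ 0) ∧ (ℓ.Prime → ∀ a ∈ E, a ≠ 0 →
      ∃ m : Ω → ℤ, ∃ b ∈ E, b ≠ 0 ∧ v a = ∑ z ∈ Z, (m z : ℝ) * v z + (ℓ : ℝ) * v b) := by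
    intro ℓ
    by_cases hℓ : ℓ.Prime
    · obtain ⟨N, g, hg, hgen⟩ := exists_gens (vgrp v E) (fun i => v (X i)) (by
        rintro _ ⟨e, -, he0, rfl⟩
        exact hX e he0) ℓ hℓ
      choose e heE he0 heg using hg
      refine ⟨Finset.univ.image e, ?_, fun _ a ha ha0 => ?_⟩
      · intro z hz
        obtain ⟨i, -, rfl⟩ := Finset.mem_image.1 hz
        exact ⟨heE i, he0 i⟩
      · obtain ⟨m, _, ⟨b, hb, hb0, rfl⟩, hab⟩ := hgen (v a) ⟨a, ha, ha0, rfl⟩
        refine ⟨fun z => ∑ i ∈ Finset.univ.filter (fun i => e i = z), m i, b, hb, hb0, ?_⟩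
        rw [hab]
        congr 1
        · rw [← Finset.sum_fiberwise_of_maps_to (s := Finset.univ) (t := Finset.univ.image e)
            (g := e) (fun i _ => Finset.mem_image_of_mem e (Finset.mem_univ i))]
          refine Finset.sum_congr rfl fun z _ => ?_
          push_cast
          rw [Finset.sum_mul]
          refine Finset.sum_congr rfl fun i hi => ?_
          rw [zsmul_eq_mul, ← heg i, (Finset.mem_filter.1 hi).2]
        · rw [zsmul_eq_mul]; push_cast; rfl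
    · exact ⟨∅, by simp, fun h => absurd h hℓ⟩
  choose Z hZ hZ' using h1
  refine ⟨(Finset.range (C + 1)).biUnion Z, ?_, fun ℓ hℓ hℓC a ha ha0 => ?_⟩
  · intro z hz
    obtain ⟨ℓ, -, hz⟩ := Finset.mem_biUnion.1 hz
    exact hZ ℓ z hz
  · obtain ⟨m, b, hb, hb0, hab⟩ := hZ' ℓ hℓ a ha ha0
    refine ⟨fun z => if z ∈ Z ℓ then m z else 0, b, hb, hb0, ?_⟩
    rw [hab]
    congr 1
    have h2 : Z ℓ ⊆ (Finset.range (C + 1)).biUnion Z :=
      Finset.subset_biUnion_of_mem Z (Finset.mem_range.2 (by omega))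
    rw [← Finset.sum_subset h2]
    · refine Finset.sum_congr rfl fun z hz => ?_
      show _ = ((if z ∈ Z ℓ then m z else 0 : ℤ) : ℝ) * v z
      rw [if_pos hz]
    · intro z _ hz
      show ((if z ∈ Z ℓ then m z else 0 : ℤ) : ℝ) * v z = 0
      rw [if_neg hz]; simp

/-- Lattice elements are values of monomials. -/
theorem exists_mon (F : IntermediateField k Ω) {x : Fin r → Ω} (hx : ∀ i, x i ∈ F ∧ x i ≠ 0)
    (l : Fin r → ℤ) : ∃ c ∈ F, c ≠ 0 ∧ v c = ∑ i, (l i : ℝ) * v (x i) :=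
  ⟨TA.mx x l, TA.mx_mem_field F x (fun i => (hx i).1) l, TA.mx_ne (fun i => (hx i).2) l,
    TA.v_mx (fun i => (hx i).2) l⟩

theorem ctx0 (h : TA.CtxR k v n r) : Ctx0 k v := ⟨h.triv, h.res⟩

/-- HENSELIAN RATIONALITY. A function field `E` of any transcendence degree `n` with a real
valuation with residue field `k` has a rational subfield `F = k(x, y)` over which it is finite and
separable, with the same values, with local degree a power of `p` that is at most `2 ^ n * n!`;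
for `p > 2 ^ n * n!` it is dense in `E`. -/
theorem exists_rational (p : ℕ) (hp : p.Prime) [CharP k p] [IsAlgClosed k] [IsAlgClosed Ω]
    (h : TA.CtxR k v n r) (hn : n = r + D) (E : IntermediateField k Ω)
    (hfg : ∃ S : Finset Ω, E = IntermediateField.adjoin k (S : Set Ω))
    (halg : ∀ g : Ω, IsAlgebraic E g) :
    ∃ (x : Fin r → Ω) (y : Fin D → Ω), (∀ i, x i ∈ E ∧ x i ≠ 0 ∧ 0 < v (x i)) ∧
      LinearIndependent ℚ (fun i => v (x i)) ∧ (∀ j, y j ∈ E ∧ y j ≠ 0 ∧ 0 < v (y j)) ∧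
      AlgebraicIndependent k (Sum.elim x y) ∧
      ∀ F : IntermediateField k Ω, F = IntermediateField.adjoin k (Set.range x ∪ Set.range y) →
        F ≤ E ∧ (∀ g ∈ E, IsSeparable F g) ∧
        (∀ a ∈ E, a ≠ 0 → ∃ c ∈ F, c ≠ 0 ∧ v c = v a) ∧
        (∀ (N : IntermediateField F Ω) [FiniteDimensional F N] [IsGalois F N]
          (H : Subgroup (N ≃ₐ[F] N)), fixO F N H = E →
          H.relIndex (decG v F N) ≤ 2 ^ n * n.factorial ∧
          ∃ ν : ℕ, H.relIndex (decG v F N) = p ^ ν) ∧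
        (2 ^ n * n.factorial < p → ∀ a ∈ E, a ∈ Cl v F.toSubfield) := by
  classical
  obtain ⟨Z, hZ, hZm⟩ := exists_reps h E (2 ^ n * n.factorial)
  obtain ⟨x, y, hx, hxi, hy, hai, hlat, hF⟩ := TA.toric_albanese_z h hn E hfg halg Z hZ
  refine ⟨x, y, hx, hxi, hy, hai, ?_⟩
  rintro F hFdef
  obtain ⟨hsep, hN⟩ := hF F hFdef
  have hFE : F ≤ E := by
    rw [hFdef, IntermediateField.adjoin_le_iff]
    rintro _ (⟨i, rfl⟩ | ⟨j, rfl⟩)
    · exact (hx i).1
    · exact (hy j).1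
  have hxF : ∀ i, x i ∈ F ∧ x i ≠ 0 := fun i =>
    ⟨by rw [hFdef]; exact IntermediateField.subset_adjoin k _ (Or.inl ⟨i, rfl⟩), (hx i).2.1⟩
  -- the divisibility hypothesis
  have hdiv : ∀ ℓ : ℕ, ℓ.Prime → ℓ ≤ 2 ^ n * n.factorial → ∀ a ∈ E, a ≠ 0 →
      ∃ b ∈ E, b ≠ 0 ∧ ∃ c ∈ F, c ≠ 0 ∧ v a = v c + (ℓ : ℝ) * v b := by
    intro ℓ hℓ hℓC a ha ha0
    obtain ⟨m, b, hb, hb0, hab⟩ := hZm ℓ hℓ hℓC a ha ha0
    have h1 : ∃ l : Fin r → ℤ, ∑ z ∈ Z, (m z : ℝ) * v z = ∑ i, (l i : ℝ) * v (x i) := by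
      have h2 : ∀ z : Ω, ∃ l : Fin r → ℤ, z ∈ Z → v z = ∑ i, (l i : ℝ) * v (x i) := by
        intro z
        by_cases hz : z ∈ Z
        · obtain ⟨l, hl⟩ := hlat z hz
          exact ⟨l, fun _ => hl⟩
        · exact ⟨0, fun h => absurd h hz⟩
      choose l hl using h2
      refine ⟨fun i => ∑ z ∈ Z, m z * l z i, ?_⟩
      have h3 : ∀ i, ((∑ z ∈ Z, m z * l z i : ℤ) : ℝ) * v (x i) =
          ∑ z ∈ Z, (m z : ℝ) * ((l z i : ℝ) * v (x i)) := by
        intro i
        push_cast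
        rw [Finset.sum_mul]
        exact Finset.sum_congr rfl fun z _ => by ring
      simp only [h3]
      rw [Finset.sum_comm]
      refine Finset.sum_congr rfl fun z hz => ?_
      rw [← Finset.mul_sum, ← hl z hz]
    obtain ⟨l, hl⟩ := h1
    obtain ⟨c, hc, hc0, hcv⟩ := exists_mon (v := v) F hxF l
    exact ⟨b, hb, hb0, c, hc, hc0, by rw [hab, hcv, hl]⟩
  -- a Galois closure
  have halgF : ∀ g : Ω, IsAlgebraic F g := by
    intro g
    have h1 : Algebra.IsAlgebraic F (IntermediateField.extendScalars hFE) := by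
      constructor
      rintro ⟨z, hz⟩
      have := (hsep z hz).isIntegral.isAlgebraic
      exact (isAlgebraic_algHom_iff (IntermediateField.extendScalars hFE).val
        Subtype.val_injective).1 this
    have h2 : IsAlgebraic (IntermediateField.extendScalars hFE) g := halg g
    exact h2.restrictScalars F
  have hgal : ∀ (N : IntermediateField F Ω) [FiniteDimensional F N] [IsGalois F N]
      (H : Subgroup (N ≃ₐ[F] N)), fixO F N H = E →
      (∀ ℓ : ℕ, ℓ.Prime → ℓ ≤ H.relIndex (decG v F N) → ∀ a ∈ fixO F N H, a ≠ 0 →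
        ∃ b ∈ fixO F N H, b ≠ 0 ∧ ∃ c ∈ F, c ≠ 0 ∧ v a = v c + (ℓ : ℝ) * v b) := by
    intro N _ _ H hH ℓ hℓ hℓi a ha ha0
    rw [hH] at ha ⊢
    exact hdiv ℓ hℓ (hℓi.trans (hN N H hH)) a ha ha0
  obtain ⟨S, hS⟩ := hfg
  have hSE : ∀ g ∈ S, g ∈ E := fun g hg => by
    rw [hS]; exact IntermediateField.subset_adjoin k _ hg
  obtain ⟨N, hN1, hN2, hSN⟩ := LU1.exists_galois_closure F halgF S fun g hg => hsep g (hSE g hg)
  have hEN : ∀ g ∈ E, g ∈ N := by
    have h1 : E ≤ N.restrictScalars k := by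
      rw [hS, IntermediateField.adjoin_le_iff]
      exact fun g hg => hSN g hg
    exact fun g hg => h1 hg
  obtain ⟨H, hH⟩ := LU1.exists_fixO_eq F N E hFE hEN
  refine ⟨hFE, hsep, fun a ha ha0 => ?_, fun N _ _ H hH => ⟨hN N H hH, ?_⟩, fun hC a ha => ?_⟩
  · exact val_eq (ctx0 h) F N H (hgal N H hH) (by rw [hH]; exact ha) ha0
  · exact relIndex_eq_pow p hp (ctx0 h) F N H (hgal N H hH)
  · exact cl_of_divisible p hp (ctx0 h) F N H (lt_of_le_of_lt (hN N H hH) hC) (hgal N H hH) a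
      (by rw [hH]; exact ha)

end HR

end Pool.Agent.D2
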