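import Pool.Agent.Lib.D2.Ctx0

/-! # D2, TM1: ramification group (after LU1 GalRam) -/

set_option autoImplicit false

open Polynomial

namespace Pool.Agent.D2

open Pool.Agent.H15JM (RVal)
open Pool.Agent.LU1 (VPos fixO decG mem_fixO)

universe u

variable {k Ω : Type u} [Field k] [Field Ω] [Algebra k Ω] {v : RVal Ω}

namespace GalRam

open Classical in
/-- The residue of an element of the valuation ring. -/
noncomputable def rs (v : RVal Ω) (k : Type u) [Field k] [Algebra k Ω] (f : Ω) : k :=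
  if h : ∃ c : k, VPos v (f - algebraMap k Ω c) then h.choose else 0

lemma rs_spec (h : Ctx0 k v) {f : Ω} (hf : v.Ge 0 f) : VPos v (f - algebraMap k Ω (rs v k f)) := by
  have h1 := h.residue hf
  rw [rs, dif_pos h1]
  exact h1.choose_spec

lemma rs_eq (h : Ctx0 k v) {f : Ω} (hf : v.Ge 0 f) {c : k} (hc : VPos v (f - algebraMap k Ω c)) :
    rs v k f = c := by
  have h1 := (rs_spec h hf).sub hc
  have h2 : f - algebraMap k Ω (rs v k f) - (f - algebraMap k Ω c)
      = algebraMap k Ω (c - rs v k f) := by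
    rw [map_sub]
    ring
  rw [h2] at h1
  exact (sub_eq_zero.mp (h.const_eq_zero h1)).symm

lemma rs_one (h : Ctx0 k v) : rs v k (1 : Ω) = 1 := by
  refine rs_eq h (fun _ => by rw [v.map_one]) ?_
  rw [_root_.map_one, sub_self]
  exact LU1.VPos.zero

lemma rs_mul (h : Ctx0 k v) {f g : Ω} (hf : v.Ge 0 f) (hg : v.Ge 0 g) :
    rs v k (f * g) = rs v k f * rs v k g := by
  refine rs_eq h (by simpa using hf.mul hg) ?_
  have h1 : f * g - algebraMap k Ω (rs v k f * rs v k g)
      = (f - algebraMap k Ω (rs v k f)) * g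
        + algebraMap k Ω (rs v k f) * (g - algebraMap k Ω (rs v k g)) := by
    rw [_root_.map_mul]
    ring
  rw [h1]
  exact ((rs_spec h hf).mul hg).add (LU1.VPos.mul' (h.ge _) (rs_spec h hg))

variable {F : IntermediateField k Ω} {N : IntermediateField F Ω}

lemma coe_ne {n : N} (hn : n ≠ 0) : (n : Ω) ≠ 0 := by
  intro h
  exact hn (Subtype.ext h)

lemma quot_ne (σ : N ≃ₐ[F] N) {n : N} (hn : n ≠ 0) : ((σ n : N) : Ω) / n ≠ 0 := by
  apply div_ne_zero _ (coe_ne hn)
  apply coe_ne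
  intro h
  apply hn
  apply σ.injective
  rw [h, _root_.map_zero]

lemma quot_val {σ : N ≃ₐ[F] N} (hσ : σ ∈ decG v F N) {n : N} (hn : n ≠ 0) :
    v (((σ n : N) : Ω) / n) = 0 := by
  have h0 : ((σ n : N) : Ω) ≠ 0 := by
    apply coe_ne
    intro h
    apply hn
    apply σ.injective
    rw [h, _root_.map_zero]
  rw [v.map_div h0 (coe_ne hn), hσ n, sub_self]

lemma quot_ge {σ : N ≃ₐ[F] N} (hσ : σ ∈ decG v F N) {n : N} (hn : n ≠ 0) :
    v.Ge 0 (((σ n : N) : Ω) / n) := fun _ => by rw [quot_val hσ hn]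

/-- The decomposition group acts trivially on residues. -/
lemma inert (h : Ctx0 k v) {σ : N ≃ₐ[F] N} (hσ : σ ∈ decG v F N) {u : N}
    (hu : v.Ge 0 (u : Ω)) : VPos v (((σ u : N) : Ω) - u) := by
  have h1 := rs_spec h hu
  set c := rs v k (u : Ω) with hc
  have h2 : (((u - algebraMap k N c : N)) : Ω) = (u : Ω) - algebraMap k Ω c := rfl
  have h3 : ((σ (u - algebraMap k N c) : N) : Ω) = ((σ u : N) : Ω) - algebraMap k Ω c := by
    have h4 : σ (algebraMap k N c) = algebraMap k N c := by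
      have h5 : algebraMap k N c = algebraMap F N (algebraMap k F c) := rfl
      rw [h5, AlgEquiv.commutes]
    rw [map_sub, h4]
    rfl
  have h4 : VPos v (((σ u : N) : Ω) - algebraMap k Ω c) := by
    intro h0
    rw [← h3, hσ, h2]
    apply h1
    intro h5
    apply h0
    rw [← h3]
    have h6 : u - algebraMap k N c = 0 := Subtype.ext h5
    rw [h6, _root_.map_zero]
    rfl
  have h5 := h4.sub h1
  rw [sub_sub_sub_cancel_right] at h5
  exact h5

/-- The character. -/
noncomputable def chi (h : Ctx0 k v) (F : IntermediateField k Ω) (N : IntermediateField F Ω) :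
    decG v F N →* ({n : N // n ≠ 0} → k) where
  toFun σ := fun n => rs v k ((((σ : N ≃ₐ[F] N) n.1 : N) : Ω) / (n.1 : Ω))
  map_one' := by
    funext n
    show rs v k ((n.1 : Ω) / (n.1 : Ω)) = 1
    rw [div_self (coe_ne n.2), rs_one h]
  map_mul' := by
    rintro ⟨σ, hσ⟩ ⟨τ, hτ⟩
    funext ⟨n, hn⟩
    show rs v k (((σ (τ n) : N) : Ω) / (n : Ω)) = rs v k (((σ n : N) : Ω) / (n : Ω))
      * rs v k (((τ n : N) : Ω) / (n : Ω))
    have hτn : τ n ≠ 0 := by
      intro h0
      apply hn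
      apply τ.injective
      rw [h0, _root_.map_zero]
    have h1 := coe_ne hn
    have h2 := coe_ne hτn
    have hσn : σ n ≠ 0 := by
      intro h0
      apply hn
      apply σ.injective
      rw [h0, _root_.map_zero]
    have h3 := coe_ne hσn
    -- u = τ n / n
    have hu0 : τ n / n ≠ 0 := div_ne_zero hτn hn
    have hu : ((τ n / n : N) : Ω) = ((τ n : N) : Ω) / (n : Ω) := rfl
    have hge : v.Ge 0 ((τ n / n : N) : Ω) := by
      rw [hu]
      exact quot_ge hτ hn
    have h4 : ((σ (τ n) : N) : Ω) = ((σ n : N) : Ω) * ((σ (τ n / n) : N) : Ω) := by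
      have h5 : σ (τ n) = σ n * σ (τ n / n) := by
        rw [← _root_.map_mul, mul_div_cancel₀ _ hn]
      rw [h5]
      rfl
    have h5 : ((σ (τ n) : N) : Ω) / (n : Ω) = (((σ n : N) : Ω) / (n : Ω))
        * ((σ (τ n / n) : N) : Ω) := by
      rw [h4]
      ring
    rw [h5, rs_mul h (quot_ge hσ hn), ← hu]
    · congr 1
      refine rs_eq h ?_ ?_
      · intro h6
        rw [hσ]
        exact hge (coe_ne hu0)
      · have h6 := (inert h hσ hge).add (rs_spec h hge)
        rw [sub_add_sub_cancel] at h6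
        exact h6
    · intro h6
      rw [hσ]
      exact hge (coe_ne hu0)

/-- An element of the ramification group whose order is prime to `p` is trivial. -/
lemma tame_trivial (p : ℕ) [CharP k p] (h : Ctx0 k v) {τ : N ≃ₐ[F] N} (hτ : τ ∈ decG v F N)
    (hχ : chi h F N ⟨τ, hτ⟩ = 1) (l : ℕ) (hl : ¬ p ∣ l) (hl1 : τ ^ l = 1) : τ = 1 := by
  have hlk : ((l : ℕ) : k) ≠ 0 := by
    rw [Ne, CharP.cast_eq_zero_iff k p]
    exact hl
  have hlN : ((l : ℕ) : N) ≠ 0 := by
    intro h0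
    apply hlk
    have h1 : algebraMap k N ((l : ℕ) : k) = 0 := by rw [map_natCast, h0]
    exact (map_eq_zero (algebraMap k N)).mp h1
  have hl0 : l ≠ 0 := by
    rintro rfl
    exact hl (dvd_zero p)
  ext n
  by_contra hne
  have hne' : τ n ≠ n := fun h0 => hne (by rw [h0]; rfl)
  set a : N := ∑ i ∈ Finset.range l, (τ ^ i) n with ha
  have hτa : τ a = a := by
    rw [ha, map_sum]
    have h1 : ∀ i, τ ((τ ^ i) n) = (τ ^ (i + 1)) n := by
      intro i
      rw [pow_succ']
      rfl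
    rw [Finset.sum_congr rfl fun i _ => h1 i]
    have h2 := Finset.sum_range_succ' (fun i => (τ ^ i) n) l
    have h3 := Finset.sum_range_succ (fun i => (τ ^ i) n) l
    rw [hl1] at h3
    rw [h3, pow_zero] at h2
    exact (add_right_cancel h2).symm
  set n' : N := n - a / l with hn'
  have hτn' : τ n' ≠ n' := by
    intro h0
    apply hne'
    rw [hn', map_sub, map_div₀, hτa, map_natCast] at h0
    exact sub_left_injective h0
  have hn0 : n' ≠ 0 := by
    intro h0
    apply hτn'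
    rw [h0, _root_.map_zero]
  have hsum : ∑ i ∈ Finset.range l, (τ ^ i) n' = 0 := by
    have h1 : ∀ i, (τ ^ i) n' = (τ ^ i) n - a / l := by
      intro i
      rw [hn', map_sub, map_div₀, map_natCast]
      have h2 : (τ ^ i) a = a := by
        induction i with
        | zero => rfl
        | succ i ih =>
          rw [pow_succ']
          show τ ((τ ^ i) a) = a
          rw [ih, hτa]
      rw [h2]
    rw [Finset.sum_congr rfl fun i _ => h1 i, Finset.sum_sub_distrib, ← ha, Finset.sum_const,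
      Finset.card_range, nsmul_eq_mul, mul_div_cancel₀ _ hlN, sub_self]
  have h1 : ∀ i, VPos v ((((τ ^ i) n' : N) : Ω) / (n' : Ω) - 1) := by
    intro i
    have hτi : τ ^ i ∈ decG v F N := (decG v F N).pow_mem hτ i
    have h2 : chi h F N ⟨τ ^ i, hτi⟩ = 1 := by
      have h3 : (⟨τ ^ i, hτi⟩ : decG v F N) = ⟨τ, hτ⟩ ^ i := rfl
      rw [h3, _root_.map_pow, hχ, one_pow]
    have h3 : rs v k ((((τ ^ i) n' : N) : Ω) / (n' : Ω)) = 1 := congrFun h2 ⟨n', hn0⟩
    have h4 := rs_spec h (quot_ge hτi hn0)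
    rw [h3, _root_.map_one] at h4
    exact h4
  have h2 : VPos v (∑ i ∈ Finset.range l, ((((τ ^ i) n' : N) : Ω) / (n' : Ω) - 1)) :=
    Finset.sum_induction _ (VPos v) (fun _ _ => LU1.VPos.add) LU1.VPos.zero fun i _ => h1 i
  have h3 : ∑ i ∈ Finset.range l, ((((τ ^ i) n' : N) : Ω) / (n' : Ω) - 1)
      = -algebraMap k Ω (l : k) := by
    rw [Finset.sum_sub_distrib, ← Finset.sum_div, Finset.sum_const, Finset.card_range,
      nsmul_eq_mul, mul_one, map_natCast]
    have h4 : ∑ i ∈ Finset.range l, (((τ ^ i) n' : N) : Ω) = 0 := by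
      have h5 := congrArg (fun z : N => (z : Ω)) hsum
      have h6 : ((∑ i ∈ Finset.range l, (τ ^ i) n' : N) : Ω)
          = ∑ i ∈ Finset.range l, (((τ ^ i) n' : N) : Ω) := map_sum N.val _ _
      rw [← h6]
      exact h5
    rw [h4, zero_div, zero_sub]
  rw [h3] at h2
  have h4 := h2.neg
  rw [neg_neg] at h4
  exact hlk (h.const_eq_zero h4)

end GalRam

/-- The ramification group. -/
theorem exists_ramG0 (p : ℕ) (hp : p.Prime) [CharP k p] [IsAlgClosed k] (h : Ctx0 k v)
    (F : IntermediateField k Ω) (N : IntermediateField F Ω) [FiniteDimensional F N]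
    [IsGalois F N] :
    ∃ V : Subgroup (N ≃ₐ[F] N), V ≤ decG v F N ∧
      (∀ d ∈ decG v F N, ∀ x ∈ V, d * x * d⁻¹ ∈ V) ∧
      (∀ x ∈ V, ∃ n : ℕ, x ^ p ^ n = 1) ∧
      (∀ a ∈ decG v F N, ∀ b ∈ decG v F N, a * b * a⁻¹ * b⁻¹ ∈ V) ∧
      (∀ a ∈ decG v F N, a ^ p ∈ V → a ∈ V) := by
  have hmem : ∀ x : N ≃ₐ[F] N, x ∈ (GalRam.chi h F N).ker.map (decG v F N).subtype ↔
      ∃ hx : x ∈ decG v F N, GalRam.chi h F N ⟨x, hx⟩ = 1 := by
    intro x
    constructor
    · rintro ⟨⟨y, hy⟩, hy1, rfl⟩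
      exact ⟨hy, hy1⟩
    · rintro ⟨hx, hx1⟩
      exact ⟨⟨x, hx⟩, hx1, rfl⟩
  refine ⟨(GalRam.chi h F N).ker.map (decG v F N).subtype, ?_, ?_, ?_, ?_, ?_⟩
  · intro x hx
    exact ((hmem x).1 hx).1
  · intro d hd x hx
    obtain ⟨hx1, hx2⟩ := (hmem x).1 hx
    rw [hmem]
    refine ⟨(decG v F N).mul_mem ((decG v F N).mul_mem hd hx1) ((decG v F N).inv_mem hd), ?_⟩
    have h1 : (⟨d * x * d⁻¹, (decG v F N).mul_mem ((decG v F N).mul_mem hd hx1)
        ((decG v F N).inv_mem hd)⟩ : decG v F N) = ⟨d, hd⟩ * ⟨x, hx1⟩ * ⟨d, hd⟩⁻¹ := rfl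
    rw [h1, _root_.map_mul, _root_.map_mul, hx2, mul_one, ← _root_.map_mul, mul_inv_cancel,
      _root_.map_one]
  · intro x hx
    have hfin : IsOfFinOrder x := isOfFinOrder_of_finite x
    have hm : orderOf x ≠ 0 := (orderOf_pos_iff.2 hfin).ne'
    obtain ⟨e, n', hn', hmn⟩ := Nat.exists_eq_pow_mul_and_not_dvd hm p hp.ne_one
    by_cases h1 : n' = 1
    · refine ⟨e, ?_⟩
      rw [h1, mul_one] at hmn
      rw [← hmn]
      exact pow_orderOf_eq_one x
    · exfalso
      obtain ⟨l, hl, hln⟩ := Nat.exists_prime_and_dvd h1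
      have hlp : ¬ p ∣ l := by
        intro h2
        rw [Nat.prime_dvd_prime_iff_eq hp hl] at h2
        rw [← h2] at hln
        exact hn' hln
      have hlm : l ∣ orderOf x := by
        rw [hmn]
        exact Dvd.dvd.mul_left hln _
      obtain ⟨q, hq⟩ := hlm
      have hq0 : q ≠ 0 := by
        rintro rfl
        rw [mul_zero] at hq
        exact hm hq
      have hxq := ((GalRam.chi h F N).ker.map (decG v F N).subtype).pow_mem hx q
      obtain ⟨hx1, hx2⟩ := (hmem _).1 hxq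
      have h3 := GalRam.tame_trivial p h hx1 hx2 l hlp (by
        rw [← pow_mul, mul_comm, ← hq]
        exact pow_orderOf_eq_one x)
      have h4 : orderOf x ≤ q := orderOf_le_of_pow_eq_one (Nat.pos_of_ne_zero hq0) h3
      have h5 := hl.two_le
      rw [hq] at h4
      nlinarith [Nat.pos_of_ne_zero hq0]
  · intro a ha b hb
    rw [hmem]
    refine ⟨(decG v F N).mul_mem ((decG v F N).mul_mem ((decG v F N).mul_mem ha hb)
      ((decG v F N).inv_mem ha)) ((decG v F N).inv_mem hb), ?_⟩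
    have h1 : (⟨a * b * a⁻¹ * b⁻¹, (decG v F N).mul_mem ((decG v F N).mul_mem
        ((decG v F N).mul_mem ha hb) ((decG v F N).inv_mem ha)) ((decG v F N).inv_mem hb)⟩ :
          decG v F N) = ⟨a, ha⟩ * ⟨b, hb⟩ * ⟨a, ha⟩⁻¹ * ⟨b, hb⟩⁻¹ := rfl
    have h2 := congrArg (GalRam.chi h F N) (mul_inv_cancel (⟨a, ha⟩ : decG v F N))
    have h3 := congrArg (GalRam.chi h F N) (mul_inv_cancel (⟨b, hb⟩ : decG v F N))
    rw [_root_.map_mul, _root_.map_one] at h2 h3
    rw [h1, _root_.map_mul, _root_.map_mul, _root_.map_mul]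
    calc _ = (GalRam.chi h F N ⟨a, ha⟩ * GalRam.chi h F N ⟨a, ha⟩⁻¹)
          * (GalRam.chi h F N ⟨b, hb⟩ * GalRam.chi h F N ⟨b, hb⟩⁻¹) := by ring
      _ = 1 := by rw [h2, h3, mul_one]
  · intro a ha hap
    obtain ⟨hx1, hx2⟩ := (hmem _).1 hap
    rw [hmem]
    refine ⟨ha, ?_⟩
    have h1 : (⟨a ^ p, hx1⟩ : decG v F N) = ⟨a, ha⟩ ^ p := rfl
    rw [h1, _root_.map_pow] at hx2
    funext n
    have h2 := congrFun hx2 n
    rw [Pi.pow_apply, Pi.one_apply] at h2
    rw [Pi.one_apply]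
    have _ : Fact p.Prime := ⟨hp⟩
    apply frobenius_inj k p
    rw [frobenius_def, frobenius_def, h2, one_pow]

end Pool.Agent.D2
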