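import Pool.Agent.Lib.D2.Ctx0
import Pool.Agent.Lib.LUC.E1

/-! # D2, TM4b: `ℓ`-th roots of elements close to `1` are in the closure -/

set_option autoImplicit false

namespace Pool.Agent.D2

open Pool.Agent.H15JM (RVal)
open Pool.Agent.LU1 (VPos fixO decG mem_fixO)
open Pool.Agent.LUC
open Polynomial

universe u

variable {k Ω : Type u} [Field k] [Field Ω] [Algebra k Ω] {v : RVal Ω}

/-- TM4b: `ℓ`-th roots of elements close to `1`. -/
theorem exists_root_one (h : Ctx0 k v) [IsAlgClosed Ω] (ℓ : ℕ) (hℓ : ((ℓ : ℕ) : k) ≠ 0)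
    (E : Subfield Ω) {ε : Ω} (hε : VPos v ε) (hεE : ε ∈ Cl v E) :
    ∃ s : Ω, s ∈ Cl v E ∧ s ≠ 0 ∧ s ^ ℓ = 1 + ε ∧ VPos v (s - 1) := by
  have hc : ∀ n : ℕ, ((n : ℕ) : Ω) = algebraMap k Ω (n : k) := fun n => (map_natCast _ n).symm
  have hF : ∀ i, ((X + 1 : Polynomial Ω) ^ ℓ - C (1 + ε)).coeff i =
      (Nat.choose ℓ i : Ω) - (if i = 0 then 1 + ε else 0) := by
    intro i
    rw [coeff_sub, coeff_X_add_one_pow, coeff_C]
  have h1ge : v.Ge 0 (1 : Ω) := by simpa using h.ge (1 : k)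
  have hge : ∀ i, v.Ge 0 (((X + 1 : Polynomial Ω) ^ ℓ - C (1 + ε)).coeff i) := by
    intro i
    rw [hF i]
    refine RVal.Ge.sub ?_ ?_
    · rw [hc]; exact h.ge _
    · split_ifs
      · exact h1ge.add hε.ge
      · exact RVal.Ge.zero
  have h0 : VPos v (((X + 1 : Polynomial Ω) ^ ℓ - C (1 + ε)).coeff 0) := by
    rw [hF 0, if_pos rfl, Nat.choose_zero_right, Nat.cast_one]
    have : (1 : Ω) - (1 + ε) = -ε := by ring
    rw [this]
    exact hε.neg
  have h1 : ((X + 1 : Polynomial Ω) ^ ℓ - C (1 + ε)).coeff 1 = algebraMap k Ω (ℓ : k) := by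
    rw [hF 1, if_neg one_ne_zero, Nat.choose_one_right, sub_zero, hc]
  have h1n : ((X + 1 : Polynomial Ω) ^ ℓ - C (1 + ε)).coeff 1 ≠ 0 := by
    rw [h1]
    exact (_root_.map_ne_zero _).2 hℓ
  have h1v : v (((X + 1 : Polynomial Ω) ^ ℓ - C (1 + ε)).coeff 1) = 0 := by
    rw [h1]; exact h.triv _ hℓ
  obtain ⟨u, hu, hv⟩ := exists_root _ hge h0 h1n h1v
  have hu' := root_mem_cl E _ hge (fun i => by
    rw [hF i]
    refine (clF v E).sub_mem ?_ ?_
    · exact natCast_mem (clF v E) _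
    · split_ifs
      · exact (clF v E).add_mem (clF v E).one_mem hεE
      · exact (clF v E).zero_mem) h1n h1v hu hv
  refine ⟨u + 1, (clF v E).add_mem hu' (clF v E).one_mem, ?_, ?_, ?_⟩
  · intro h2
    have h3 : VPos v (1 : Ω) := by
      have : (1 : Ω) = -u := by
        rw [eq_neg_iff_add_eq_zero, add_comm]; exact h2
      rw [this]; exact hv.neg
    have := h3 one_ne_zero
    rw [v.map_one] at this
    exact lt_irrefl _ this
  · rw [eval_sub, eval_pow, eval_add, eval_X, eval_one, eval_C, sub_eq_zero] at hu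
    exact hu
  · rw [add_sub_cancel_right]; exact hv

end Pool.Agent.D2
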