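import Pool.Agent.Lib.D2.TM1
import Pool.Agent.Lib.D2.TM2
import Pool.Agent.Lib.D2.TM4
import Pool.Agent.Lib.D2.TM56
import Pool.Agent.Lib.D2.G3
import Pool.Agent.Lib.D2.G1c

/-! # D2, TM8: tame extensions of rational adapted fields, from the radical step -/

set_option autoImplicit false

namespace Pool.Agent.D2.T8

open Pool.Agent.H15JM (RVal)
open Pool.Agent.LU1 (VPos fixO decG mem_fixO)
open Pool.Agent.LUC
open Pool.Agent.LU3 (Ctx2 RF2 E2r)
open Polynomial

universe u

variable {k Ω : Type u} [Field k] [Field Ω] [Algebra k Ω] {v : RVal Ω} {r : ℕ}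

theorem ctx0_of_ctx2 (h : Ctx2 k v r) : Ctx0 k v := ⟨h.triv, h.res⟩

/-- The base field lies in the fixed field. -/
theorem le_fixO (F : IntermediateField k Ω) (N : IntermediateField F Ω)
    (H : Subgroup (N ≃ₐ[F] N)) : F ≤ fixO F N H := by
  intro g hg
  exact (mem_fixO F N H g).2 ⟨algebraMap F N ⟨g, hg⟩, rfl, fun σ _ => σ.commutes _⟩

theorem fixO_anti (F : IntermediateField k Ω) (N : IntermediateField F Ω)
    {A B : Subgroup (N ≃ₐ[F] N)} (hAB : A ≤ B) : fixO F N B ≤ fixO F N A := by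
  intro g hg
  obtain ⟨n, rfl, hn⟩ := (mem_fixO F N B g).1 hg
  exact (mem_fixO F N A _).2 ⟨n, rfl, fun σ hσ => hn σ (hAB hσ)⟩

/-- The fixed field of the whole group is the base field. -/
theorem fixO_top (F : IntermediateField k Ω) (N : IntermediateField F Ω)
    [FiniteDimensional F N] [IsGalois F N] : fixO F N ⊤ = F := by
  refine le_antisymm ?_ (le_fixO F N ⊤)
  intro g hg
  obtain ⟨n, rfl, hn⟩ := (mem_fixO F N ⊤ g).1 hg
  obtain ⟨f, hf⟩ := (IsGalois.mem_range_algebraMap_iff_fixed n).2 fun σ => hn σ trivial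
  rw [← hf]
  exact f.2

/-- Transitivity of the closure. -/
theorem cl_trans {E E' : Subfield Ω} (h : ∀ a ∈ E, a ∈ Cl v E') {a : Ω} (ha : a ∈ Cl v E) :
    a ∈ Cl v E' := by
  refine cl_cl (F := E') ?_
  intro c
  obtain ⟨a₀, h0, h1⟩ := ha c
  exact ⟨a₀, h a₀ h0, h1⟩

/-- Separability goes up. -/
theorem sep_up {F E : IntermediateField k Ω} (hFE : F ≤ E) {a : Ω} (ha : IsSeparable F a) :
    IsSeparable E a := by
  let _ : Algebra F E := (IntermediateField.inclusion hFE).toRingHom.toAlgebra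
  have _ : IsScalarTower F E Ω := IsScalarTower.of_algebraMap_eq fun _ => rfl
  exact ha.tower_top E

/-- Separability is transitive. -/
theorem sep_trans {F E : IntermediateField k Ω} (hFE : F ≤ E)
    (hE : ∀ a ∈ E, IsSeparable F a) {a : Ω} (ha : IsSeparable E a) : IsSeparable F a := by
  let _ : Algebra F E := (IntermediateField.inclusion hFE).toRingHom.toAlgebra
  have _ : IsScalarTower F E Ω := IsScalarTower.of_algebraMap_eq fun _ => rfl
  have _ : Algebra.IsSeparable F E := by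
    refine ⟨fun x => ?_⟩
    have h1 := hE x x.2
    have h2 : algebraMap E Ω x = (x : Ω) := rfl
    rw [← h2] at h1
    exact IsSeparable.of_algHom (IsScalarTower.toAlgHom F E Ω) h1
  exact IsSeparable.of_algebra_isSeparable_of_isSeparable F ha

/-- The statement of the radical step. -/
def RadStep (p : ℕ) (k : Type u) {Ω : Type u} [Field k] [Field Ω] [Algebra k Ω]
    (v : RVal Ω) : Prop :=
  ∀ (F : RF2 k v) (E : IntermediateField k Ω) (_ : ∀ a ∈ E, a ∈ Cl v F.K.toSubfield)
    (_ : ∀ a ∈ F.K, a ∈ Cl v E.toSubfield) (ℓ : ℕ) (_ : ℓ.Prime) (_ : ℓ ≠ p) (η : Ω)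
    (_ : η ≠ 0) (_ : η ^ ℓ ∈ E),
    ∃ F' : RF2 k v, F.K ≤ F'.K ∧ (∀ a ∈ F'.K, IsSeparable F.K a) ∧
      (∀ a ∈ F'.K, a ∈ Cl v (LU1.adj E η).toSubfield) ∧
      ∀ a ∈ LU1.adj E η, a ∈ Cl v F'.K.toSubfield

/-- TM8 from the radical step. -/
theorem tame_thm_of_rad [IsAlgClosed k] [IsAlgClosed Ω] (p : ℕ) (hp : p.Prime) [CharP k p]
    (h : Ctx2 k v r) (hrad : RadStep p k v) (F : RF2 k v) (N : IntermediateField F.K Ω)
    [FiniteDimensional F.K N] [IsGalois F.K N] (H : Subgroup (N ≃ₐ[F.K] N))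
    (hi : H.relIndex (decG v F.K N) < p) :
    ∃ F' : RF2 k v, F.K ≤ F'.K ∧ (∀ a ∈ F'.K, IsSeparable F.K a) ∧
      (∀ a ∈ fixO F.K N H, a ∈ Cl v F'.K.toSubfield) ∧
      ∀ a ∈ F'.K, a ∈ Cl v (fixO F.K N H).toSubfield := by
  have h0 := ctx0_of_ctx2 h
  have hfin : Finite (N ≃ₐ[F.K] N) := inferInstance
  obtain ⟨V, hVD, -, hVp, hab, hpp⟩ := exists_ramG0 p hp h0 F.K N
  have hi' : (decG v F.K N ⊓ H).relIndex (decG v F.K N) < p := by
    rw [inf_comm, Subgroup.inf_relIndex_right]; exact hi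
  have hVH := ram_le p hp (decG v F.K N) V H hVD hVp hi'
  obtain ⟨F', hle, hsep, h1, h2⟩ := tame_chain p hp (decG v F.K N) V H hVD hVH hab hpp
    (fun A => ∃ F' : RF2 k v, F.K ≤ F'.K ∧ (∀ a ∈ F'.K, IsSeparable F.K a) ∧
      (∀ a ∈ fixO F.K N A, a ∈ Cl v F'.K.toSubfield) ∧
      ∀ a ∈ F'.K, a ∈ Cl v (fixO F.K N A).toSubfield) (by
      rintro A B ℓ hℓ hℓp hAB hBD hn hidx ⟨F₁, hle, hsep, h1, h2⟩
      obtain ⟨η, -, hη0, hηB, hadj⟩ := exists_kummer p hp F.K N A B ℓ hℓ hℓp hAB hn hidx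
      obtain ⟨F₂, hle₂, hsep₂, h3, h4⟩ := hrad F₁ (fixO F.K N B) h1 h2 ℓ hℓ hℓp η hη0 hηB
      rw [← hadj] at h3 h4
      exact ⟨F₂, hle.trans hle₂, fun a ha => sep_trans hle hsep (hsep₂ a ha), h4, h3⟩)
    ⟨F, le_rfl, fun a ha => isSeparable_algebraMap (F := F.K) (K := Ω) ⟨a, ha⟩, fun a ha => by
      have := cl_dec h0 F.K N ⊤ a (by rwa [inf_top_eq])
      rwa [fixO_top] at this, fun a ha => Cl.subset (le_fixO F.K N _ ha)⟩
  refine ⟨F', hle, hsep, fun a ha => h1 a (fixO_anti F.K N inf_le_right ha), fun a ha => ?_⟩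
  exact cl_trans (fun b hb => cl_dec h0 F.K N H b hb) (h2 a ha)

/-- The field of a rational frame is finitely generated. -/
theorem fg_K (F : RF2 k v) : F.K.FG := by
  classical
  obtain ⟨S, hS⟩ := F.fg
  refine ⟨S.image F.χ ∪ {F.y, F.z}, ?_⟩
  refine le_antisymm ?_ ?_
  · refine IntermediateField.adjoin_le_iff.2 ?_
    intro g hg
    simp only [Finset.coe_union, Finset.coe_image, Finset.coe_insert, Finset.coe_singleton] at hg
    rcases hg with ⟨γ, hγ, rfl⟩ | hg
    · refine IntermediateField.subset_adjoin _ _ (Or.inl ⟨γ, ?_, rfl⟩)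
      show γ ∈ F.Γ
      rw [← hS]
      exact AddSubgroup.subset_closure hγ
    · exact IntermediateField.subset_adjoin _ _ (Or.inr hg)
  · refine IntermediateField.adjoin_le_iff.2 ?_
    rintro g (⟨γ, hγ, rfl⟩ | hg)
    · have key : ∀ γ ∈ AddSubgroup.closure (S : Set ℝ), γ ∈ F.Γ ∧
          F.χ γ ∈ IntermediateField.adjoin k
            (((S.image F.χ ∪ {F.y, F.z} : Finset Ω) : Set Ω)) := by
        intro γ hγ
        have h0 : F.χ 0 = 1 := by
          have h1 := F.χ_add 0 F.Γ.zero_mem 0 F.Γ.zero_mem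
          rw [add_zero] at h1
          exact (mul_eq_left₀ (F.χ_ne 0 F.Γ.zero_mem)).1 h1.symm
        refine AddSubgroup.closure_induction (p := fun γ _ => γ ∈ F.Γ ∧
          F.χ γ ∈ IntermediateField.adjoin k
            (((S.image F.χ ∪ {F.y, F.z} : Finset Ω) : Set Ω))) ?_ ?_ ?_ ?_ hγ
        · intro x hx
          refine ⟨hS ▸ AddSubgroup.subset_closure hx, IntermediateField.subset_adjoin _ _ ?_⟩
          simp only [Finset.coe_union, Finset.coe_image]
          exact Or.inl ⟨x, hx, rfl⟩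
        · exact ⟨F.Γ.zero_mem, by rw [h0]; exact one_mem _⟩
        · rintro x y - - ⟨h1, h2⟩ ⟨h3, h4⟩
          exact ⟨F.Γ.add_mem h1 h3, by rw [F.χ_add x h1 y h3]; exact mul_mem h2 h4⟩
        · rintro x - ⟨h1, h2⟩
          refine ⟨F.Γ.neg_mem h1, ?_⟩
          have h3 := F.χ_add x h1 (-x) (F.Γ.neg_mem h1)
          rw [add_neg_cancel, h0] at h3
          have h4 : F.χ (-x) = (F.χ x)⁻¹ := by
            rw [eq_comm, inv_eq_of_mul_eq_one_right h3.symm]
          rw [h4]
          exact inv_mem h2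
      refine (key γ ?_).2
      rw [hS]
      exact hγ
    · refine IntermediateField.subset_adjoin _ _ ?_
      simp only [Finset.coe_union, Finset.coe_insert, Finset.coe_singleton]
      exact Or.inr hg

/-- Fixed fields over finitely generated fields are finitely generated. -/
theorem fg_fixO (F : IntermediateField k Ω) (hF : F.FG) (N : IntermediateField F Ω)
    [FiniteDimensional F N] (H : Subgroup (N ≃ₐ[F] N)) : (fixO F N H).FG := by
  classical
  obtain ⟨T, hT⟩ := hF
  obtain ⟨S, hS⟩ : (IntermediateField.fixedField H).FG :=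
    IntermediateField.fg_of_noetherian _
  refine ⟨T ∪ S.image (fun x : N => (x : Ω)), ?_⟩
  refine le_antisymm ?_ ?_
  · refine IntermediateField.adjoin_le_iff.2 ?_
    intro g hg
    simp only [Finset.coe_union, Finset.coe_image] at hg
    rcases hg with hg | ⟨x, hx, rfl⟩
    · refine le_fixO F N H ?_
      rw [← hT]
      exact IntermediateField.subset_adjoin _ _ hg
    · refine (mem_fixO F N H _).2 ⟨x, rfl, ?_⟩
      rw [← IntermediateField.mem_fixedField_iff, ← hS]
      exact IntermediateField.subset_adjoin _ _ hx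
  · intro g hg
    obtain ⟨n, rfl, hn⟩ := (mem_fixO F N H _).1 hg
    have hn' : n ∈ IntermediateField.adjoin F (S : Set N) := by
      rw [hS, IntermediateField.mem_fixedField_iff]
      exact hn
    set M := IntermediateField.adjoin k
      (((T ∪ S.image (fun x : N => (x : Ω)) : Finset Ω) : Set Ω)) with hM
    have hFM : F ≤ M := by
      rw [← hT]
      refine IntermediateField.adjoin_le_iff.2 fun x hx => IntermediateField.subset_adjoin _ _ ?_
      rw [Finset.coe_union]
      exact Or.inl hx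
    refine IntermediateField.adjoin_induction (p := fun x _ => ((x : N) : Ω) ∈ M) F
      ?_ ?_ ?_ ?_ ?_ hn'
    · intro x hx
      refine IntermediateField.subset_adjoin _ _ ?_
      simp only [Finset.coe_union, Finset.coe_image]
      exact Or.inr ⟨x, hx, rfl⟩
    · intro f
      exact hFM f.2
    · rintro x y - - hx hy
      exact add_mem hx hy
    · rintro x - hx
      exact inv_mem hx
    · rintro x y - - hx hy
      exact mul_mem hx hy

/-- TM9 from the radical step. -/
theorem lus_tame_of_rad [IsAlgClosed k] [IsAlgClosed Ω] (p : ℕ) (hp : p.Prime) [CharP k p]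
    (h : Ctx2 k v r) (hE : E2r k Ω v) (hrad : RadStep p k v) (F : RF2 k v)
    (N : IntermediateField F.K Ω)
    [FiniteDimensional F.K N] [IsGalois F.K N] (H : Subgroup (N ≃ₐ[F.K] N))
    (hi : H.relIndex (decG v F.K N) < p) :
    LUs v (algebraMap k Ω).range (fixO F.K N H).toSubfield := by
  obtain ⟨F', hle, hsep, h1, h2⟩ := tame_thm_of_rad p hp h hrad F N H hi
  have hle' : F.K ≤ fixO F.K N H := le_fixO F.K N H
  refine lus_of_cl (fixO F.K N H) F'.K (ctx0_of_ctx2 h).ge ⟨F.y, hle' ?_, F.y_ne, F.y_pos⟩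
    (fg_fixO F.K (fg_K F) N H) (fg_K F') ?_ h1 h2 ?_ ?_ (lus_rat h hE F')
  · exact IntermediateField.subset_adjoin _ _ (Or.inr (Set.mem_insert _ _))
  · intro g
    have h3 : IsAlgebraic (fixO F.K N H) g := by
      obtain ⟨P, hP, hPg⟩ := F.alg g
      have hsub : Algebra.adjoin k (F.χ '' {γ | γ ∈ F.Γ} ∪ {F.y, F.z}) ≤
          (fixO F.K N H).toSubalgebra :=
        (IntermediateField.algebra_adjoin_le_adjoin k _).trans hle'
      refine ⟨P.map (Subalgebra.inclusion hsub).toRingHom, ?_, ?_⟩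
      · rw [Ne, Polynomial.map_eq_zero_iff]
        · exact hP
        · exact Subalgebra.inclusion_injective hsub
      · rw [Polynomial.aeval_def, Polynomial.eval₂_map]
        exact hPg
    exact h3
  · intro a ha
    obtain ⟨n, rfl, -⟩ := (mem_fixO F.K N H a).1 ha
    refine sep_up hle ?_
    have h3 : IsSeparable F.K n := (IsGalois.to_isSeparable (F := F.K) (E := N)).isSeparable' n
    exact h3.map N.val N.val.injective
  · intro a ha
    exact sep_up hle' (hsep a ha)

end Pool.Agent.D2.T8
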